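import Pool.Agent.Lib.MP_25e40f_pr.D.MDef

/-!
# MP_25e40f_pr, stream D, job ENa: the function `E(k)`

`En k = (1/n) ∑ (1 - cos k_i)`, `Ck p k = 2 p ∑ cos k_i`, `Cb k`: `|k_i| ≤ π` for all `i`.
`sum_sq_le`: `1 - cos t ≥ 2 t^2/π^2` for `|t| ≤ π` (`Real.cos_quadratic_upper_bound` or `Real.cos_le_one_sub_mul_cos_sq`; otherwise `1 - cos t = 2 sin^2(t/2)` and `Real.mul_le_sin`: `2/π x ≤ sin x` for `0 ≤ x ≤ π/2`), and `π^2/2 ≤ 5` (`Real.pi_lt_d2`: `π < 3.15`).
-/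

set_option autoImplicit false
set_option linter.unusedSectionVars false

noncomputable section

open Finset
open scoped Classical Matrix.Norms.L2Operator

namespace IPC.BS

open IPC.Fo

variable {n : ℕ}

private theorem ENa_term {t : ℝ} (ht : |t| ≤ Real.pi) : t ^ 2 ≤ 5 * (1 - Real.cos t) := by
  have h1 := Real.cos_le_one_sub_mul_cos_sq ht
  have hpi : 0 < Real.pi := Real.pi_pos
  have hp2 : Real.pi < 3.15 := Real.pi_lt_d2
  have h2 : Real.pi ^ 2 ≤ 10 := by nlinarith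
  have h3 : 2 / Real.pi ^ 2 * t ^ 2 ≤ 1 - Real.cos t := by linarith
  have h4 : t ^ 2 = Real.pi ^ 2 / 2 * (2 / Real.pi ^ 2 * t ^ 2) := by
    field_simp
  have h5 : 0 ≤ 2 / Real.pi ^ 2 * t ^ 2 := by positivity
  rw [h4]
  have h6 : 0 ≤ 1 - Real.cos t := by linarith [Real.cos_le_one t]
  nlinarith

theorem En_nonneg (k : Fin n → ℝ) : 0 ≤ En k := by
  unfold En
  refine mul_nonneg (by positivity) (Finset.sum_nonneg fun i _ => ?_)
  linarith [Real.cos_le_one (k i)]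

theorem En_le_two (k : Fin n → ℝ) : En k ≤ 2 := by
  unfold En
  have h : ∑ i, (1 - Real.cos (k i)) ≤ ∑ _i : Fin n, (2 : ℝ) := by
    refine Finset.sum_le_sum fun i _ => ?_
    linarith [Real.neg_one_le_cos (k i)]
  rw [Finset.sum_const, Finset.card_univ, Fintype.card_fin, nsmul_eq_mul] at h
  rcases Nat.eq_zero_or_pos n with h0 | h0
  · subst h0
    simp
  · have hn : (0 : ℝ) < n := by exact_mod_cast h0
    calc (1 / (n : ℝ)) * ∑ i, (1 - Real.cos (k i)) ≤ (1 / (n : ℝ)) * (n * 2) := by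
          exact mul_le_mul_of_nonneg_left h (by positivity)
      _ = 2 := by field_simp

theorem sum_sq_le (hn : 1 ≤ n) {k : Fin n → ℝ} (hk : Cb k) : ∑ e, k e ^ 2 ≤ 5 * n * En k := by
  have hn' : (0 : ℝ) < n := by exact_mod_cast hn
  have h : 5 * n * En k = ∑ e, 5 * (1 - Real.cos (k e)) := by
    unfold En
    rw [← Finset.mul_sum]
    field_simp
  rw [h]
  exact Finset.sum_le_sum fun e _ => ENa_term (hk e)

theorem Ck_sub (hn : 1 ≤ n) (p : ℝ) (k : Fin n → ℝ) : Ck p (0 : Fin n → ℝ) - Ck p k = 2 * n * p * En k := by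
  have hn' : (0 : ℝ) < n := by exact_mod_cast hn
  unfold Ck En
  simp only [Pi.zero_apply, Real.cos_zero, Finset.sum_sub_distrib]
  field_simp

theorem abs_Ck_le {p : ℝ} (hp : 0 ≤ p) (k : Fin n → ℝ) : |Ck p k| ≤ 2 * n * p := by
  unfold Ck
  rw [abs_mul, abs_of_nonneg (by positivity : (0 : ℝ) ≤ 2 * p)]
  have h : |∑ i, Real.cos (k i)| ≤ n := by
    calc |∑ i, Real.cos (k i)| ≤ ∑ i, |Real.cos (k i)| := Finset.abs_sum_le_sum_abs _ _
      _ ≤ ∑ _i : Fin n, (1 : ℝ) := Finset.sum_le_sum fun i _ => Real.abs_cos_le_one (k i)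
      _ = n := by simp
  calc 2 * p * |∑ i, Real.cos (k i)| ≤ 2 * p * n := mul_le_mul_of_nonneg_left h (by positivity)
    _ = 2 * n * p := by ring

theorem En_pos (hn : 1 ≤ n) {k : Fin n → ℝ} (hk : Cb k) (h : k ≠ 0) : 0 < En k := by
  have hn' : (0 : ℝ) < n := by exact_mod_cast hn
  obtain ⟨i, hi⟩ : ∃ i, k i ≠ 0 := by
    by_contra hcon
    push Not at hcon
    exact h (funext fun i => by simpa using hcon i)
  have h1 : 0 < ∑ e, k e ^ 2 :=
    Finset.sum_pos' (fun e _ => sq_nonneg (k e)) ⟨i, Finset.mem_univ i, by positivity⟩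
  have h2 := sum_sq_le hn hk
  have h3 : 0 < 5 * n * En k := lt_of_lt_of_le h1 h2
  by_contra hcon
  have h4 : En k ≤ 0 := not_lt.mp hcon
  nlinarith

end IPC.BS
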