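import Pool.Agent.Lib.MP_25e40f_pr.D.Defs
import Pool.Agent.Lib.MP_25e40f_pr.E.Mom

/-!
# MP_25e40f_pr, stream D (helper38): matrix valued sequences on `ℤⁿ`, definitions

A sequence `f : ℤⁿ → Matrix` is written `f x i j`. `FM f k` is the Fourier transform (a complex matrix), `cm` the convolution,
`om e a f` the multiplication with `x_e ^ a`, `kr f` the translation invariant kernel of `f` on `ℤⁿ × ι`.
`ts`, `ps`, `gs`: two point function, `p` times the adjacency, and the function `g` of the lace expansion, for `ℤⁿ × H`.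
-/

set_option autoImplicit false

noncomputable section

open Finset
open scoped Classical Matrix.Norms.L2Operator

namespace IPC.BS

open IPC.Fo

/-- matrix valued sequences -/
abbrev MS (n : ℕ) (ι : Type) : Type := (Fin n → ℤ) → ι → ι → ℝ

/-- moments of order `m` -/
def Mm {n : ℕ} {ι : Type} (m : ℕ) (f : MS n ι) : Prop := ∀ i j, Mo m (fun x => f x i j)

/-- Fourier transform -/
def FM {n : ℕ} {ι : Type} (f : MS n ι) (k : Fin n → ℝ) : Matrix ι ι ℂ :=
  Matrix.of fun i j => FT (fun x => f x i j) k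

/-- convolution -/
def cm {n : ℕ} {ι : Type} [Fintype ι] (f g : MS n ι) : MS n ι :=
  fun x i j => ∑ l, cv (fun y => f y i l) (fun y => g y l j) x

/-- unit of the convolution -/
def dm (n : ℕ) (ι : Type) [DecidableEq ι] : MS n ι := fun x i j => if i = j then del n x else 0

/-- multiplication with `x_e ^ a` -/
def om {n : ℕ} {ι : Type} (e : Fin n) (a : ℕ) (f : MS n ι) : MS n ι := fun x i j => (x e : ℝ) ^ a * f x i j

/-- multiplication with `|x|²` -/
def sq {n : ℕ} {ι : Type} (f : MS n ι) : MS n ι := fun x i j => (∑ e, (x e : ℝ) ^ 2) * f x i j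

/-- the kernel of a sequence -/
def kr {n : ℕ} {ι : Type} (f : MS n ι) (x y : (Fin n → ℤ) × ι) : ENNReal :=
  ENNReal.ofReal (f (y.1 - x.1) x.2 y.2)

/-- nonnegative entries -/
def Nn {n : ℕ} {ι : Type} (f : MS n ι) : Prop := ∀ x i j, 0 ≤ f x i j

section
variable (n : ℕ) (ι : Type) [Fintype ι] [DecidableEq ι] (H : SimpleGraph ι) (p : ℝ)

/-- the two point function of `ℤⁿ × H` -/
def ts : MS n ι := fun x i j => (Wg n ι H).tau p (0, i) (x, j)

/-- `p` times the adjacency of `ℤⁿ × H` -/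
def ps : MS n ι := fun x i j => if (x, j) ∈ (Wg n ι H).nb (0, i) then p else 0

/-- the function `g` of the expansion -/
def gs : MS n ι := fun x i j => gg (Wg n ι H) p (0, i) (x, j)

end

/-- `E(k) = (1/n) ∑ (1 - cos k_i)` -/
def En {n : ℕ} (k : Fin n → ℝ) : ℝ := (1 / n) * ∑ i, (1 - Real.cos (k i))

/-- `C(k) = 2 p ∑ cos k_i` -/
def Ck {n : ℕ} (p : ℝ) (k : Fin n → ℝ) : ℝ := 2 * p * ∑ i, Real.cos (k i)

/-- the cube -/
def Cb {n : ℕ} (k : Fin n → ℝ) : Prop := ∀ i, |k i| ≤ Real.pi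

/-- square of the norm of a vector -/
def nq {ι : Type} [Fintype ι] (v : ι → ℂ) : ℝ := ∑ i, ‖v i‖ ^ 2

/-- quadratic form of a matrix -/
def qf {ι : Type} [Fintype ι] (A : Matrix ι ι ℂ) (v : ι → ℂ) : ℝ :=
  (∑ i, ∑ j, (starRingEnd ℂ) (v i) * A i j * v j).re

/-- hypotheses on the transforms `T` of the two point function, `G` of `g`, `P` of the step kernel -/
structure HP {ι : Type} [Fintype ι] [DecidableEq ι] (T G P : Matrix ι ι ℂ) : Prop where
  hT : T.IsHermitian
  hP : P.IsHermitian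
  pos : ∃ c : ℝ, 0 < c ∧ ∀ v, c * nq v ≤ qf T v
  eq : T = G * (1 + P * T)

/-- the bound of the integrals: `√n C(k)² + (1 + E(k)^(-10)) / √n` -/
def Bn {n : ℕ} (p : ℝ) (k : Fin n → ℝ) : ℝ :=
  Real.sqrt n * Ck p k ^ 2 + (1 + (En k ^ 10)⁻¹) / Real.sqrt n

end IPC.BS
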