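import Pool.Agent.Lib.MP_25e40f_pr.E.ItgA
import Pool.Agent.Lib.MP_25e40f_pr.D.MDef
import Pool.Agent.Lib.MP_25e40f_pr.D.ENa

/-!
# MP_25e40f_pr, stream D, job AVa: the average of `E(k)^(-10)` is bounded uniformly in the dimension

`mu n = Measure.pi (fun _ => nu1)`, `nu1` the uniform probability measure on `[-π, π]` (E/Fou.lean). Let `n ≥ 40`, `s = 20/n ≤ 1/2`.
`nu1_rpow`: `∫ t, |t|^(-s) ∂nu1 = π^(-s)/(1 - s)` for `0 ≤ s < 1` (`ItgA` contains the integrability of `|t| ^ (-s)` as a private lemma: repeat the argument; `integral_rpow` on `[0, π]` and evenness), hence `≤ 1/(1-s)` (`π ≥ 1`). Only the inequality `≤ 1/(1-s)` is needed.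
For `k` with all `k i ≠ 0` and `Cb k` (almost every `k`: `ae_cube`, `ae_coord_ne` of E/ItgA.lean; `Cu` there is the same as `Cb`): `E(k) ≥ (1/5) (1/n) ∑ (k i)^2` (`sum_sq_le`) `≥ (1/5) ∏ |k i|^(2/n)` (AM-GM: `Real.inner_le_nnorm_mul_nnorm`.. no: `Real.geom_mean_le_arith_mean_weighted` with weights `1/n` and `z i = (k i)^2`),
 so `(E(k)^10)⁻¹ ≤ 5^10 ∏ |k i|^(-20/n)`. The right side is integrable with integral `5^10 (∫ |t|^(-s) ∂nu1)^n ≤ 5^10 (1 - s)^(-n)` (`Integrable.fintype_prod`, `integral_fintype_prod_eq_prod`, `Finset.prod_const`), and `(1 - s)^(-n) ≤ e^{40}`: `-log (1 - s) ≤ s/(1-s) ≤ 2 s` for `s ≤ 1/2` (`Real.one_sub_inv_le_log_of_pos` or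
 `Real.add_one_le_exp`: `1/(1-s) ≤ exp (s/(1-s)) ≤ exp (2 s)`), so `(1/(1-s))^n ≤ exp (2 s n) = exp 40`. Constant `I10 = 5^10 * exp 40`.
`(E(k)^10)⁻¹` is measurable (continuous `En`, `Measurable.inv`), `Integrable.mono'`.
-/

set_option autoImplicit false
set_option linter.unusedSectionVars false

noncomputable section

open Finset
open scoped Classical Matrix.Norms.L2Operator

namespace IPC.BS

open IPC.Fo

/-- the constant -/
def I10 : ℝ := 5 ^ 10 * Real.exp 40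

private theorem AVa_one {r : ℝ} (hr1 : r < 1) : MeasureTheory.Integrable (fun t : ℝ => |t| ^ (-r)) nu1 ∧
    ∫ t, |t| ^ (-r) ∂nu1 = Real.pi ^ (-r) / (1 - r) := by
  have hpi := Real.pi_pos
  have h1 : IntervalIntegrable (fun t : ℝ => |t| ^ (-r)) MeasureTheory.volume 0 Real.pi := by
    have h : IntervalIntegrable (fun t : ℝ => t ^ (-r)) MeasureTheory.volume 0 Real.pi :=
      intervalIntegral.intervalIntegrable_rpow' (by linarith)
    refine h.congr ?_
    intro t ht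
    rw [Set.uIoc_of_le hpi.le] at ht
    simp only [abs_of_pos ht.1]
  have h2 : IntervalIntegrable (fun t : ℝ => |t| ^ (-r)) MeasureTheory.volume (-Real.pi) 0 := by
    have h := (IntervalIntegrable.iff_comp_neg (by simp)).1 h1
    have e : (fun t : ℝ => |(-t)| ^ (-r)) = fun t : ℝ => |t| ^ (-r) := by
      funext t
      rw [abs_neg]
    rw [e, neg_zero] at h
    exact h.symm
  have h3 : IntervalIntegrable (fun t : ℝ => |t| ^ (-r)) MeasureTheory.volume (-Real.pi) Real.pi := h2.trans h1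
  have h4 : MeasureTheory.IntegrableOn (fun t : ℝ => |t| ^ (-r)) (Set.Icc (-Real.pi) Real.pi) MeasureTheory.volume := by
    rwa [intervalIntegrable_iff_integrableOn_Icc_of_le (by linarith)] at h3
  have i0 : ∫ t in (0 : ℝ)..Real.pi, |t| ^ (-r) = Real.pi ^ (1 - r) / (1 - r) := by
    have e : ∫ t in (0 : ℝ)..Real.pi, |t| ^ (-r) = ∫ t in (0 : ℝ)..Real.pi, t ^ (-r) := by
      refine intervalIntegral.integral_congr ?_
      intro t ht
      rw [Set.uIcc_of_le hpi.le] at ht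
      simp only [abs_of_nonneg ht.1]
    rw [e, integral_rpow (Or.inl (by linarith))]
    have e2 : -r + 1 = 1 - r := by ring
    rw [e2, Real.zero_rpow (by linarith), sub_zero]
  have i1 : ∫ t in (-Real.pi)..(0 : ℝ), |t| ^ (-r) = ∫ t in (0 : ℝ)..Real.pi, |t| ^ (-r) := by
    have h := intervalIntegral.integral_comp_neg (a := 0) (b := Real.pi) (fun t : ℝ => |t| ^ (-r))
    rw [neg_zero] at h
    rw [← h]
    simp only [abs_neg]
  have i2 : ∫ t in (-Real.pi)..Real.pi, |t| ^ (-r) = 2 * (Real.pi ^ (1 - r) / (1 - r)) := by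
    rw [← intervalIntegral.integral_add_adjacent_intervals h2 h1, i1, i0]
    ring
  constructor
  · unfold nu1
    exact h4.smul_measure ENNReal.ofReal_ne_top
  · unfold nu1
    rw [MeasureTheory.integral_smul_measure, ENNReal.toReal_ofReal (by positivity), MeasureTheory.integral_Icc_eq_integral_Ioc,
      ← intervalIntegral.integral_of_le (by linarith), i2]
    have e3 : Real.pi ^ (1 - r) = Real.pi * Real.pi ^ (-r) := by
      rw [show 1 - r = 1 + -r by ring, Real.rpow_add hpi, Real.rpow_one]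
    rw [e3, smul_eq_mul]
    have h5 : (1 : ℝ) - r ≠ 0 := by
      intro h
      linarith
    field_simp

theorem nu1_rpow {s : ℝ} (h0 : 0 ≤ s) (h1 : s < 1) : MeasureTheory.Integrable (fun t : ℝ => |t| ^ (-s)) nu1 ∧
    ∫ t, |t| ^ (-s) ∂nu1 ≤ 1 / (1 - s) := by
  obtain ⟨a, b⟩ := AVa_one h1
  refine ⟨a, ?_⟩
  rw [b]
  have h2 : Real.pi ^ (-s) ≤ 1 := Real.rpow_le_one_of_one_le_of_nonpos (by linarith [Real.pi_gt_three]) (by linarith)
  have h3 : 0 < 1 - s := by linarith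
  gcongr

private theorem AVa_amgm {n : ℕ} (hn : 1 ≤ n) (k : Fin n → ℝ) :
    ∏ i, |k i| ^ ((2 : ℝ) / n) ≤ (1 / n : ℝ) * ∑ i, k i ^ 2 := by
  have hn' : (0 : ℝ) < n := by exact_mod_cast hn
  have h := Real.geom_mean_le_arith_mean_weighted (Finset.univ : Finset (Fin n)) (fun _ => (1 / n : ℝ)) (fun i => k i ^ 2)
    (fun _ _ => by positivity) (by
      rw [Finset.sum_const, Finset.card_univ, Fintype.card_fin, nsmul_eq_mul]
      field_simp) (fun i _ => sq_nonneg _)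
  rw [← Finset.mul_sum] at h
  refine le_trans (le_of_eq ?_) h
  refine Finset.prod_congr rfl (fun i _ => ?_)
  rw [← sq_abs (k i), ← Real.rpow_natCast (|k i|) 2, ← Real.rpow_mul (abs_nonneg _)]
  congr 1
  push_cast
  ring

private theorem AVa_bound {n : ℕ} (hn : 40 ≤ n) (k : Fin n → ℝ) (hk : ∀ i, k i ≠ 0) (hC : Cb k) :
    (En k ^ 10)⁻¹ ≤ 5 ^ 10 * ∏ i, |k i| ^ (-((20 : ℝ) / n)) := by
  have hn1 : 1 ≤ n := by omega
  have hn' : (0 : ℝ) < n := by exact_mod_cast (by omega : 0 < n)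
  have h1 := AVa_amgm hn1 k
  have h2 := sum_sq_le hn1 hC
  have hP : 0 < ∏ i, |k i| ^ ((2 : ℝ) / n) := Finset.prod_pos (fun i _ => Real.rpow_pos_of_pos (abs_pos.2 (hk i)) _)
  have h3 : ∏ i, |k i| ^ ((2 : ℝ) / n) ≤ 5 * En k := by
    refine le_trans h1 ?_
    rw [one_div, inv_mul_le_iff₀ hn']
    linarith
  have h4 : (∏ i, |k i| ^ ((2 : ℝ) / n)) ^ 10 ≤ 5 ^ 10 * En k ^ 10 := by
    rw [← mul_pow]
    exact pow_le_pow_left₀ hP.le h3 10
  have h5 : ∏ i, |k i| ^ (-((20 : ℝ) / n)) = ((∏ i, |k i| ^ ((2 : ℝ) / n)) ^ 10)⁻¹ := by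
    rw [← Finset.prod_pow, ← Finset.prod_inv_distrib]
    refine Finset.prod_congr rfl (fun i _ => ?_)
    rw [Real.rpow_neg (abs_nonneg _), ← Real.rpow_natCast _ 10, ← Real.rpow_mul (abs_nonneg _)]
    congr 2
    push_cast
    ring
  rw [h5]
  have hE : 0 < En k ^ 10 := by
    have : 0 < (∏ i, |k i| ^ ((2 : ℝ) / n)) ^ 10 := pow_pos hP 10
    nlinarith
  rw [← div_eq_mul_inv, inv_eq_one_div, div_le_div_iff₀ hE (pow_pos hP 10), one_mul]
  exact h4

private theorem AVa_int {n : ℕ} (hn : 40 ≤ n) :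
    MeasureTheory.Integrable (fun k : Fin n → ℝ => ∏ i, |k i| ^ (-((20 : ℝ) / n))) (mu n) := by
  have hn' : (0 : ℝ) < n := by exact_mod_cast (by omega : 0 < n)
  have h40 : (40 : ℝ) ≤ n := by exact_mod_cast hn
  have hs1 : (20 : ℝ) / n < 1 := by
    rw [div_lt_one hn']
    linarith
  unfold mu
  exact MeasureTheory.Integrable.fintype_prod (f := fun (_ : Fin n) (t : ℝ) => |t| ^ (-((20 : ℝ) / n))) (fun _ => (AVa_one hs1).1)

private theorem AVa_meas {n : ℕ} : Measurable (fun k : Fin n → ℝ => (En k ^ 10)⁻¹) := by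
  unfold En
  refine (Continuous.measurable ?_).inv
  fun_prop

theorem inv_En_integrable {n : ℕ} (hn : 40 ≤ n) :
    MeasureTheory.Integrable (fun k : Fin n → ℝ => (En k ^ 10)⁻¹) (mu n) := by
  refine ((AVa_int hn).const_mul (5 ^ 10)).mono' AVa_meas.aestronglyMeasurable ?_
  filter_upwards [ae_coord_ne (d := n), ae_cube (d := n)] with k hk hC
  rw [Real.norm_eq_abs, abs_of_nonneg (inv_nonneg.2 (pow_nonneg (En_nonneg k) 10))]
  exact AVa_bound hn k hk hC

private theorem AVa_exp {n : ℕ} (hn : 40 ≤ n) : (1 / (1 - (20 : ℝ) / n)) ^ n ≤ Real.exp 40 := by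
  have hn' : (0 : ℝ) < n := by exact_mod_cast (by omega : 0 < n)
  have h40 : (40 : ℝ) ≤ n := by exact_mod_cast hn
  have hs : (20 : ℝ) / n ≤ 1 / 2 := by
    rw [div_le_div_iff₀ hn' (by norm_num)]
    linarith
  have hs0 : 0 ≤ (20 : ℝ) / n := by positivity
  have h1 : 1 / (1 - (20 : ℝ) / n) ≤ 1 + 2 * ((20 : ℝ) / n) := by
    rw [div_le_iff₀ (by linarith)]
    nlinarith
  have h2 : 1 / (1 - (20 : ℝ) / n) ≤ Real.exp (2 * ((20 : ℝ) / n)) :=
    le_trans h1 (by linarith [Real.add_one_le_exp (2 * ((20 : ℝ) / n))])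
  have h3 := pow_le_pow_left₀ (by
    apply div_nonneg zero_le_one
    linarith) h2 n
  refine le_trans h3 (le_of_eq ?_)
  rw [← Real.exp_nat_mul]
  congr 1
  field_simp
  norm_num

theorem inv_En_le {n : ℕ} (hn : 40 ≤ n) : ∫ k : Fin n → ℝ, (En k ^ 10)⁻¹ ∂(mu n) ≤ I10 := by
  have hn' : (0 : ℝ) < n := by exact_mod_cast (by omega : 0 < n)
  have h40 : (40 : ℝ) ≤ n := by exact_mod_cast hn
  have hs0 : 0 ≤ (20 : ℝ) / n := by positivity
  have hs1 : (20 : ℝ) / n < 1 := by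
    rw [div_lt_one hn']
    linarith
  have h1 : ∫ k : Fin n → ℝ, (En k ^ 10)⁻¹ ∂(mu n) ≤
      ∫ k : Fin n → ℝ, 5 ^ 10 * ∏ i, |k i| ^ (-((20 : ℝ) / n)) ∂(mu n) := by
    refine MeasureTheory.integral_mono_ae (inv_En_integrable hn) ((AVa_int hn).const_mul _) ?_
    filter_upwards [ae_coord_ne (d := n), ae_cube (d := n)] with k hk hC
    exact AVa_bound hn k hk hC
  refine le_trans h1 ?_
  rw [MeasureTheory.integral_const_mul]
  have h2 : ∫ k : Fin n → ℝ, ∏ i, |k i| ^ (-((20 : ℝ) / n)) ∂(mu n) = (∫ t, |t| ^ (-((20 : ℝ) / n)) ∂nu1) ^ n := by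
    unfold mu
    rw [MeasureTheory.integral_fintype_prod_eq_prod (fun (_ : Fin n) (t : ℝ) => |t| ^ (-((20 : ℝ) / n))), Finset.prod_const,
      Finset.card_univ, Fintype.card_fin]
  rw [h2]
  unfold I10
  refine mul_le_mul_of_nonneg_left ?_ (by positivity)
  refine le_trans (pow_le_pow_left₀ ?_ (nu1_rpow hs0 hs1).2 n) (AVa_exp hn)
  exact MeasureTheory.integral_nonneg (fun t => Real.rpow_nonneg (abs_nonneg t) _)

end IPC.BS
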