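import Pool.Agent.Lib.MP_25e40f_pr.D.AVa

/-!
# MP_25e40f_pr, stream D, job AVb: the average of `C(k)²` and of the bound `Bn`

`Ck_sq`: Parseval (`parseval` of E/Fou.lean) for `f x = if x ∈ nbZ n 0 then p else 0` (finite support, `S1`): `FT f k = Ck p k` (the points of `nbZ n 0` are `update 0 l (± 1)`, pairwise different, `ch k (e_l) + ch k (-e_l) = 2 cos (k l)`), `∑' x, f x ^ 2 = p^2 card (nbZ n 0) ≤ 2 n p^2` (`Finset.card_image_le`), `‖FT f k‖^2 = Ck p k ^ 2`.
`Bn_integrable`, `Bn_avg`: `Bn p k = √n Ck² + (1 + (En^10)⁻¹)/√n` (D/MDef.lean). `Ck²` is bounded and continuous, so integrable. `∫ Bn ≤ √n 2 n p² + (1 + I10)/√n ≤ √n (2/n) + (1 + I10)/√n = (3 + I10)/√n` as `p ≤ 1/n` (`n p² ≤ 1/n`, `√n/n = 1/√n`).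
`elem`: for `a = |Ck|`, `E > 0`, `E ≤ 2`, `s = √n ≥ 1`: `E^(-5) a ≤ (s a² + E^(-10)/s)/2` (`2 x y ≤ s x² + y²/s`), `E^(-5) ≤ 1 + E^(-10)`, `1/n ≤ 1/s`: so `E^(-5) (a + 2/n) ≤ s a² + 3 (1 + E^(-10))/s ≤ 3 Bn`.
-/

set_option autoImplicit false
set_option linter.unusedSectionVars false

noncomputable section

open Finset
open scoped Classical Matrix.Norms.L2Operator

namespace IPC.BS

open IPC.Fo

private theorem AVb_cos_int {n : ℕ} (x : Fin n → ℤ) :
    MeasureTheory.Integrable (fun k : Fin n → ℝ => Real.cos (dot k x)) (mu n) := by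
  refine MeasureTheory.Integrable.mono' (MeasureTheory.integrable_const (1 : ℝ)) ?_ ?_
  · have : Continuous (fun k : Fin n → ℝ => Real.cos (dot k x)) := by
      unfold dot
      fun_prop
    exact this.aestronglyMeasurable
  · exact Filter.Eventually.of_forall fun k => by
      rw [Real.norm_eq_abs]
      exact Real.abs_cos_le_one _

private theorem AVb_cos {n : ℕ} (x : Fin n → ℤ) :
    ∫ k : Fin n → ℝ, Real.cos (dot k x) ∂(mu n) = if x = 0 then 1 else 0 := by
  have h0 : MeasureTheory.Integrable (fun k : Fin n → ℝ => ch k x) (mu n) := by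
    refine MeasureTheory.Integrable.mono' (MeasureTheory.integrable_const (1 : ℝ))
      (ch_measurable x).aestronglyMeasurable ?_
    exact Filter.Eventually.of_forall fun k => (norm_ch k _).le
  have h1 := mu_ch x
  have h2 : (∫ k : Fin n → ℝ, ch k x ∂(mu n)).re = ∫ k : Fin n → ℝ, (ch k x).re ∂(mu n) := by
    have := integral_re h0
    exact this.symm
  have h3 : ∀ k : Fin n → ℝ, (ch k x).re = Real.cos (dot k x) := by
    intro k
    unfold ch
    exact Complex.exp_ofReal_mul_I_re _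
  simp only [h3] at h2
  rw [← h2, h1]
  split_ifs <;> simp

private theorem AVb_sq {n : ℕ} (p : ℝ) (k : Fin n → ℝ) : Ck p k ^ 2 = ∑ i : Fin n, ∑ j : Fin n,
    (2 * p ^ 2 * Real.cos (dot k (Pi.single i 1 + Pi.single j 1)) +
      2 * p ^ 2 * Real.cos (dot k (Pi.single i 1 - Pi.single j 1))) := by
  have hd : ∀ i : Fin n, dot k (Pi.single i 1) = k i := by
    intro i
    unfold dot
    rw [Finset.sum_eq_single i]
    · simp
    · intro b _ hb
      simp [Pi.single_eq_of_ne hb]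
    · intro h
      exact absurd (Finset.mem_univ i) h
  have h1 : ∀ i j : Fin n, (2 * p ^ 2 * Real.cos (dot k (Pi.single i 1 + Pi.single j 1)) +
      2 * p ^ 2 * Real.cos (dot k (Pi.single i 1 - Pi.single j 1))) =
      4 * p ^ 2 * (Real.cos (k i) * Real.cos (k j)) := by
    intro i j
    rw [dot_add, dot_sub, hd, hd, Real.cos_add, Real.cos_sub]
    ring
  simp only [h1]
  unfold Ck
  rw [mul_pow, pow_two (∑ i, Real.cos (k i)), Finset.sum_mul_sum, Finset.mul_sum]
  refine Finset.sum_congr rfl fun i _ => ?_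
  rw [Finset.mul_sum]
  refine Finset.sum_congr rfl fun j _ => ?_
  ring

private theorem AVb_term {n : ℕ} (p : ℝ) (i j : Fin n) : MeasureTheory.Integrable (fun k : Fin n → ℝ =>
    2 * p ^ 2 * Real.cos (dot k (Pi.single i 1 + Pi.single j 1)) +
      2 * p ^ 2 * Real.cos (dot k (Pi.single i 1 - Pi.single j 1))) (mu n) :=
  ((AVb_cos_int _).const_mul _).add ((AVb_cos_int _).const_mul _)

private theorem AVb_sq_integrable {n : ℕ} (p : ℝ) :
    MeasureTheory.Integrable (fun k : Fin n → ℝ => Ck p k ^ 2) (mu n) := by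
  simp only [AVb_sq]
  exact MeasureTheory.integrable_finsetSum _ fun i _ => MeasureTheory.integrable_finsetSum _ fun j _ =>
    AVb_term p i j

theorem Ck_sq {n : ℕ} (p : ℝ) : ∫ k : Fin n → ℝ, Ck p k ^ 2 ∂(mu n) ≤ 2 * n * p ^ 2 := by
  simp only [AVb_sq]
  rw [MeasureTheory.integral_finsetSum _ fun i _ => MeasureTheory.integrable_finsetSum _ fun j _ =>
    AVb_term p i j]
  have h1 : ∀ i : Fin n, ∫ k : Fin n → ℝ, ∑ j : Fin n,
    (2 * p ^ 2 * Real.cos (dot k (Pi.single i 1 + Pi.single j 1)) +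
      2 * p ^ 2 * Real.cos (dot k (Pi.single i 1 - Pi.single j 1))) ∂(mu n) = 2 * p ^ 2 := by
    intro i
    rw [MeasureTheory.integral_finsetSum _ fun j _ => AVb_term p i j]
    have h2 : ∀ j : Fin n, ∫ k : Fin n → ℝ,
      (2 * p ^ 2 * Real.cos (dot k (Pi.single i 1 + Pi.single j 1)) +
        2 * p ^ 2 * Real.cos (dot k (Pi.single i 1 - Pi.single j 1))) ∂(mu n) =
        if j = i then 2 * p ^ 2 else 0 := by
      intro j
      rw [MeasureTheory.integral_add ((AVb_cos_int _).const_mul _) ((AVb_cos_int _).const_mul _),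
        MeasureTheory.integral_const_mul, MeasureTheory.integral_const_mul, AVb_cos, AVb_cos]
      have h3 : ¬ ((Pi.single i 1 + Pi.single j 1 : Fin n → ℤ) = 0) := by
        intro h
        have h4 := congrFun h i
        rw [Pi.add_apply, Pi.single_eq_same, Pi.zero_apply] at h4
        by_cases hij : i = j
        · rw [← hij, Pi.single_eq_same] at h4
          omega
        · rw [Pi.single_eq_of_ne hij] at h4
          omega
      rw [if_neg h3]
      by_cases hij : j = i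
      · rw [if_pos (by rw [hij, sub_self]), if_pos hij]
        ring
      · have h5 : ¬ ((Pi.single i 1 - Pi.single j 1 : Fin n → ℤ) = 0) := by
          intro h
          have h4 := congrFun h i
          rw [Pi.sub_apply, Pi.single_eq_same, Pi.zero_apply, Pi.single_eq_of_ne (Ne.symm hij)] at h4
          omega
        rw [if_neg h5, if_neg hij]
        ring
    simp only [h2]
    rw [Finset.sum_ite_eq' Finset.univ i]
    simp
  simp only [h1]
  rw [Finset.sum_const, Finset.card_univ, Fintype.card_fin, nsmul_eq_mul]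
  apply le_of_eq
  ring

theorem Bn_integrable {n : ℕ} (hn : 40 ≤ n) (p : ℝ) : MeasureTheory.Integrable (fun k : Fin n → ℝ => Bn p k) (mu n) := by
  unfold Bn
  exact ((AVb_sq_integrable p).const_mul _).add
    (((MeasureTheory.integrable_const (1 : ℝ)).add (inv_En_integrable hn)).div_const _)

theorem Bn_avg {n : ℕ} (hn : 40 ≤ n) {p : ℝ} (hp0 : 0 ≤ p) (hp : p ≤ 1 / n) :
    ∫ k : Fin n → ℝ, Bn p k ∂(mu n) ≤ (3 + I10) / Real.sqrt n := by
  have hn0 : (0 : ℝ) < n := by
    have : 0 < n := by omega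
    exact_mod_cast this
  have hs : 0 < Real.sqrt n := Real.sqrt_pos.2 hn0
  have hss : Real.sqrt n * Real.sqrt n = n := Real.mul_self_sqrt hn0.le
  unfold Bn
  have hi1 : MeasureTheory.Integrable (fun k : Fin n → ℝ => Real.sqrt n * Ck p k ^ 2) (mu n) :=
    (AVb_sq_integrable p).const_mul _
  have hi2 : MeasureTheory.Integrable (fun k : Fin n → ℝ => 1 + (En k ^ 10)⁻¹) (mu n) :=
    (MeasureTheory.integrable_const (1 : ℝ)).add (inv_En_integrable hn)
  have hi3 : MeasureTheory.Integrable (fun k : Fin n → ℝ => (1 + (En k ^ 10)⁻¹) / Real.sqrt n) (mu n) :=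
    hi2.div_const _
  rw [MeasureTheory.integral_add hi1 hi3, MeasureTheory.integral_const_mul, MeasureTheory.integral_div,
    MeasureTheory.integral_add (MeasureTheory.integrable_const (1 : ℝ)) (inv_En_integrable hn)]
  have h1 : ∫ _ : Fin n → ℝ, (1 : ℝ) ∂(mu n) = 1 := by
    rw [MeasureTheory.integral_const, MeasureTheory.probReal_univ, one_smul]
  rw [h1]
  have h2 : ∫ k : Fin n → ℝ, Ck p k ^ 2 ∂(mu n) ≤ 2 / n := by
    refine (Ck_sq p).trans ?_
    have h3 : p ^ 2 ≤ (1 / (n : ℝ)) ^ 2 := pow_le_pow_left₀ hp0 hp 2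
    have h4 : 2 * (n : ℝ) * p ^ 2 ≤ 2 * (n : ℝ) * (1 / (n : ℝ)) ^ 2 :=
      mul_le_mul_of_nonneg_left h3 (by positivity)
    refine h4.trans (le_of_eq ?_)
    field_simp
  have h4 : Real.sqrt n * ∫ k : Fin n → ℝ, Ck p k ^ 2 ∂(mu n) ≤ 2 / Real.sqrt n := by
    calc Real.sqrt n * ∫ k : Fin n → ℝ, Ck p k ^ 2 ∂(mu n) ≤ Real.sqrt n * (2 / n) :=
          mul_le_mul_of_nonneg_left h2 hs.le
      _ = 2 / Real.sqrt n := by
          rw [← hss]
          rw [Real.sqrt_mul_self hs.le]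
          field_simp
  have h5 : (1 + ∫ k : Fin n → ℝ, (En k ^ 10)⁻¹ ∂(mu n)) / Real.sqrt n ≤ (1 + I10) / Real.sqrt n :=
    div_le_div_of_nonneg_right (by linarith [inv_En_le hn]) hs.le
  have h6 : 2 / Real.sqrt n + (1 + I10) / Real.sqrt n = (3 + I10) / Real.sqrt n := by
    rw [← add_div]
    ring
  rw [← h6]
  exact add_le_add h4 h5

theorem elem {n : ℕ} (hn : 40 ≤ n) (p : ℝ) {k : Fin n → ℝ} (hE : 0 < En k) :
    (En k ^ 5)⁻¹ * (|Ck p k| + 2 / n) ≤ 3 * Bn p k := by
  have hn0 : (1 : ℝ) ≤ n := by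
    have : 1 ≤ n := by omega
    exact_mod_cast this
  have hn00 : (0 : ℝ) < n := by linarith
  have hs : 0 < Real.sqrt n := Real.sqrt_pos.2 hn00
  have hss : Real.sqrt n * Real.sqrt n = n := Real.mul_self_sqrt hn00.le
  have hs1 : 1 ≤ Real.sqrt n := Real.one_le_sqrt.2 hn0
  unfold Bn
  have hu : (En k ^ 10)⁻¹ = ((En k ^ 5)⁻¹) ^ 2 := by
    rw [inv_pow, ← pow_mul]
  have hu0 : 0 ≤ (En k ^ 5)⁻¹ := by positivity
  have hc : Ck p k ^ 2 = |Ck p k| ^ 2 := (sq_abs _).symm
  rw [hu, hc]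
  generalize (En k ^ 5)⁻¹ = u at hu0
  have ha0 : 0 ≤ |Ck p k| := abs_nonneg _
  generalize |Ck p k| = a at ha0
  generalize hsd : Real.sqrt n = s at hs hss hs1
  rw [← hss]
  have h1 : u * a ≤ (s * a ^ 2 + u ^ 2 / s) / 2 := by
    have h2 : s * a ^ 2 + u ^ 2 / s - 2 * (u * a) = (s * a - u) ^ 2 / s := by
      field_simp
      ring
    have h3 : 0 ≤ (s * a - u) ^ 2 / s := by positivity
    linarith
  have h4 : u * (2 / (s * s)) ≤ (1 + u ^ 2) / s := by
    have h5 : u * (2 / (s * s)) = (2 * u / s) / s := by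
      field_simp
    rw [h5]
    refine div_le_div_of_nonneg_right ?_ hs.le
    have h6 : 2 * u / s ≤ 2 * u := div_le_self (by positivity) hs1
    nlinarith [sq_nonneg (u - 1)]
  have h7 : 0 ≤ s * a ^ 2 := by positivity
  have h8 : 0 ≤ u ^ 2 / s := by positivity
  have h9 : 0 ≤ 1 / s := by positivity
  have h10 : (1 + u ^ 2) / s = 1 / s + u ^ 2 / s := add_div _ _ _
  rw [h10] at h4 ⊢
  rw [mul_add]
  linarith

end IPC.BS
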