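import Pool.Agent.Lib.MP_25e40f_pr.Defs2
import Pool.Agent.Lib.MP_25e40f_pr.C.Kalg

/-!
# MP_25e40f_pr, stream D (helper38): the bootstrap on `ℤⁿ × H`, definitions
-/

set_option autoImplicit false

noncomputable section

open Finset
open scoped Classical

namespace IPC.BS

/-- the weight `|x - y|²` on `ℤⁿ × ι` -/
def w2 {n : ℕ} {ι : Type} (x y : (Fin n → ℤ) × ι) : ENNReal :=
  ENNReal.ofReal (∑ i, ((x.1 i - y.1 i : ℤ) : ℝ) ^ 2)

/-- the three quantities of the bootstrap are at most `δ` -/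
structure Sml (n : ℕ) (ι : Type) [Fintype ι] [DecidableEq ι] (H : SimpleGraph ι) (p : ℝ) (δ : ENNReal) : Prop where
  q : ∀ x y, ch4 (mm ((Wg n ι H).pK p) ((Wg n ι H).tK p)) ((Wg n ι H).tK p) ((Wg n ι H).tK p)
    ((Wg n ι H).tK p) x y ≤ δ
  d0 : ∀ x y, ch4 (wt w2 (mm ((Wg n ι H).pK p) ((Wg n ι H).tK p))) ((Wg n ι H).tK p) ((Wg n ι H).tK p)
    ((Wg n ι H).tK p) x y ≤ δ
  d1 : ∀ x y, ch4 ((Wg n ι H).tK p) (wt w2 (mm ((Wg n ι H).pK p) ((Wg n ι H).tK p))) ((Wg n ι H).tK p)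
    ((Wg n ι H).tK p) x y ≤ δ

/-- the threshold of the bootstrap -/
def dl0 : ℝ := 1 / 10 ^ 9

/-- the improvement step: `Sml` below the threshold implies `Sml` with `C₀ / √n` -/
def Improve (n₀ : ℕ) (C₀ : ℝ) : Prop := 0 < C₀ ∧ ∀ n, n₀ ≤ n → ∀ (ι : Type) [Fintype ι] [DecidableEq ι] [Nonempty ι]
    (H : SimpleGraph ι), (∀ i, (Finset.univ.filter fun j => H.Adj i j).card ≤ 2) →
    ∀ p : ℝ, 0 ≤ p → p < (Wg n ι H).pc → p ≤ 1 / 2 → Sml n ι H p (ENNReal.ofReal dl0) →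
      2 * n * p ≤ 1 + C₀ / Real.sqrt n ∧ Sml n ι H p (ENNReal.ofReal (C₀ / Real.sqrt n))

end IPC.BS
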