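import Pool.Agent.Lib.MP_25e40f_pr.D.MDef

/-!
# MP_25e40f_pr, stream D, job NMa: the operator norm of complex matrices

The norm on `Matrix ι ι ℂ` is the `L2` operator norm (`open scoped Matrix.Norms.L2Operator`; `Matrix.l2_opNorm_def`, `Matrix.l2_opNorm_mulVec`, `Matrix.l2_opNorm_mul`). `nq v = sum ‖v i‖^2 = ‖toLp 2 v‖^2` (`EuclideanSpace.norm_eq`, `EuclideanSpace.norm_sq_eq`).
`nq_mulVec`: `nq (A *ᵥ v) ≤ ‖A‖^2 * nq v`: square of `Matrix.l2_opNorm_mulVec`.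
`norm_le_of_nq`: if `nq (A *ᵥ v) ≤ c^2 * nq v` for all `v` and `0 ≤ c` then `‖A‖ ≤ c`: `Matrix.l2_opNorm_def` and `ContinuousLinearMap.opNorm_le_bound` (`Real.sqrt`).
`entry_le`: `‖A i j‖ ≤ ‖A‖`: apply `nq_mulVec` with `v = Pi.single j 1`: `nq v = 1`, `(A *ᵥ v) i = A i j`, and `‖(A *ᵥ v) i‖^2 ≤ nq (A *ᵥ v)` (single term of a sum).
`norm_le_rows_cols` (Schur test): for `v`: `‖sum_j A i j v j‖^2 ≤ (sum_j ‖A i j‖ ‖v j‖)^2 ≤ (sum_j ‖A i j‖) (sum_j ‖A i j‖ ‖v j‖^2)` (Cauchy-Schwarz, `Finset.sum_mul_sq_le_sq_mul_sq` with `√‖A i j‖` and `√‖A i j‖ ‖v j‖`, or `inner_mul_le_norm_mul_norm`) `≤ r sum_j ‖A i j‖ ‖v j‖^2`; sum over `i`, exchange the sums: `≤ r r nq v`. Then `norm_le_of_nq`.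
`qf_le`: `qf A v = re (sum_i conj (v i) (A *ᵥ v) i)`, Cauchy-Schwarz: `|..| ≤ sqrt (nq v) sqrt (nq (A *ᵥ v)) ≤ ‖A‖ nq v`.
`qf_add`, `qf_sub`, `qf_one`, `qf_smul`: expand the sums (`Finset.sum_add_distrib`, `Matrix.one_apply`, `Finset.sum_ite_eq`, `Complex.mul_re`; `conj z * z = ‖z‖^2`: `Complex.conj_mul'`, `Complex.normSq_eq_conj_mul_self`).
`norm_smul_one_le`: `norm_smul`, and `‖1‖ ≤ 1` (if `ι` is empty the matrix is `0`, otherwise `norm_one`; or from `norm_le_rows_cols`).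
-/

set_option autoImplicit false
set_option linter.unusedSectionVars false

noncomputable section

open Finset
open scoped Classical Matrix.Norms.L2Operator

namespace IPC.BS

open IPC.Fo

variable {ι : Type} [Fintype ι] [DecidableEq ι]

private theorem NMa_nq (v : ι → ℂ) : nq v = ‖(WithLp.toLp 2 v : EuclideanSpace ℂ ι)‖ ^ 2 := by
  rw [EuclideanSpace.norm_sq_eq]
  rfl

theorem nq_nonneg (v : ι → ℂ) : 0 ≤ nq v :=
  Finset.sum_nonneg fun _ _ => pow_nonneg (norm_nonneg _) 2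

theorem nq_mulVec (A : Matrix ι ι ℂ) (v : ι → ℂ) : nq (A.mulVec v) ≤ ‖A‖ ^ 2 * nq v := by
  rw [NMa_nq, NMa_nq, ← mul_pow]
  exact pow_le_pow_left₀ (norm_nonneg _) (Matrix.l2_opNorm_mulVec A (WithLp.toLp 2 v)) 2

theorem norm_le_of_nq {A : Matrix ι ι ℂ} {c : ℝ} (hc : 0 ≤ c) (h : ∀ v, nq (A.mulVec v) ≤ c ^ 2 * nq v) : ‖A‖ ≤ c := by
  rw [← Matrix.l2_opNorm_toEuclideanCLM]
  refine ContinuousLinearMap.opNorm_le_bound _ hc fun x => ?_
  have h1 := h (WithLp.ofLp x)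
  rw [NMa_nq, NMa_nq, ← mul_pow] at h1
  exact (pow_le_pow_iff_left₀ (norm_nonneg _) (mul_nonneg hc (norm_nonneg _)) two_ne_zero).1 h1

theorem entry_le (A : Matrix ι ι ℂ) (i j : ι) : ‖A i j‖ ≤ ‖A‖ := by
  have h1 := nq_mulVec A (Pi.single j 1)
  have h2 : nq (Pi.single j (1 : ℂ) : ι → ℂ) = 1 := by
    unfold nq
    rw [Finset.sum_eq_single j]
    · rw [Pi.single_eq_same, norm_one, one_pow]
    · intro l _ hl
      rw [Pi.single_eq_of_ne hl, norm_zero, zero_pow two_ne_zero]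
    · intro h
      exact absurd (Finset.mem_univ j) h
  have h3 : ‖A i j‖ ^ 2 ≤ nq (A.mulVec (Pi.single j 1)) := by
    have h4 : A i j = A.mulVec (Pi.single j 1) i := by
      rw [Matrix.mulVec_single_one]
      rfl
    rw [h4]
    exact Finset.single_le_sum (f := fun l => ‖A.mulVec (Pi.single j 1) l‖ ^ 2)
      (fun l _ => pow_nonneg (norm_nonneg _) 2) (Finset.mem_univ i)
  rw [h2, mul_one] at h1
  exact (pow_le_pow_iff_left₀ (norm_nonneg _) (norm_nonneg _) two_ne_zero).1 (h3.trans h1)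

theorem norm_le_rows_cols {A : Matrix ι ι ℂ} {r : ℝ} (hr : 0 ≤ r) (h1 : ∀ i, ∑ j, ‖A i j‖ ≤ r)
    (h2 : ∀ j, ∑ i, ‖A i j‖ ≤ r) : ‖A‖ ≤ r := by
  refine norm_le_of_nq hr fun v => ?_
  have h3 : ∀ i, ‖A.mulVec v i‖ ^ 2 ≤ r * ∑ j, ‖A i j‖ * ‖v j‖ ^ 2 := by
    intro i
    have h4 : ‖A.mulVec v i‖ ≤ ∑ j, ‖A i j‖ * ‖v j‖ := by
      show ‖∑ j, A i j * v j‖ ≤ _
      refine (norm_sum_le _ _).trans (le_of_eq ?_)
      exact Finset.sum_congr rfl fun j _ => norm_mul _ _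
    have h5 : (∑ j, ‖A i j‖ * ‖v j‖) ^ 2 ≤ (∑ j, ‖A i j‖) * ∑ j, ‖A i j‖ * ‖v j‖ ^ 2 :=
      Finset.sum_sq_le_sum_mul_sum_of_sq_le_mul Finset.univ (fun j _ => norm_nonneg _)
        (fun j _ => mul_nonneg (norm_nonneg _) (pow_nonneg (norm_nonneg _) 2))
        (fun j _ => le_of_eq (by ring))
    have h6 : 0 ≤ ∑ j, ‖A i j‖ * ‖v j‖ ^ 2 :=
      Finset.sum_nonneg fun j _ => mul_nonneg (norm_nonneg _) (pow_nonneg (norm_nonneg _) 2)
    calc ‖A.mulVec v i‖ ^ 2 ≤ (∑ j, ‖A i j‖ * ‖v j‖) ^ 2 :=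
          pow_le_pow_left₀ (norm_nonneg _) h4 2
      _ ≤ (∑ j, ‖A i j‖) * ∑ j, ‖A i j‖ * ‖v j‖ ^ 2 := h5
      _ ≤ r * ∑ j, ‖A i j‖ * ‖v j‖ ^ 2 := mul_le_mul_of_nonneg_right (h1 i) h6
  calc nq (A.mulVec v) = ∑ i, ‖A.mulVec v i‖ ^ 2 := rfl
    _ ≤ ∑ i, r * ∑ j, ‖A i j‖ * ‖v j‖ ^ 2 := Finset.sum_le_sum fun i _ => h3 i
    _ = r * ∑ j, (∑ i, ‖A i j‖) * ‖v j‖ ^ 2 := by
        rw [← Finset.mul_sum, Finset.sum_comm]
        refine congrArg _ (Finset.sum_congr rfl fun j _ => ?_)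
        rw [Finset.sum_mul]
    _ ≤ r * ∑ j, r * ‖v j‖ ^ 2 := by
        refine mul_le_mul_of_nonneg_left (Finset.sum_le_sum fun j _ => ?_) hr
        exact mul_le_mul_of_nonneg_right (h2 j) (pow_nonneg (norm_nonneg _) 2)
    _ = r ^ 2 * nq v := by
        rw [← Finset.mul_sum]
        unfold nq
        ring

private theorem NMa_qf (A : Matrix ι ι ℂ) (v : ι → ℂ) :
    qf A v = (∑ i, (starRingEnd ℂ) (v i) * A.mulVec v i).re := by
  unfold qf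
  refine congrArg Complex.re (Finset.sum_congr rfl fun i _ => ?_)
  show _ = (starRingEnd ℂ) (v i) * ∑ j, A i j * v j
  rw [Finset.mul_sum]
  exact Finset.sum_congr rfl fun j _ => mul_assoc _ _ _

theorem qf_le (A : Matrix ι ι ℂ) (v : ι → ℂ) : |qf A v| ≤ ‖A‖ * nq v := by
  rw [NMa_qf]
  refine (Complex.abs_re_le_norm _).trans ?_
  have h1 : ‖∑ i, (starRingEnd ℂ) (v i) * A.mulVec v i‖ ≤ ∑ i, ‖v i‖ * ‖A.mulVec v i‖ := by
    refine (norm_sum_le _ _).trans (le_of_eq ?_)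
    refine Finset.sum_congr rfl fun j _ => ?_
    rw [norm_mul, RCLike.norm_conj]
  refine h1.trans ?_
  have h2 : (∑ i, ‖v i‖ * ‖A.mulVec v i‖) ^ 2 ≤ (‖A‖ * nq v) ^ 2 := by
    calc (∑ i, ‖v i‖ * ‖A.mulVec v i‖) ^ 2
        ≤ (∑ i, ‖v i‖ ^ 2) * ∑ i, ‖A.mulVec v i‖ ^ 2 :=
          Finset.sum_mul_sq_le_sq_mul_sq Finset.univ _ _
      _ = nq v * nq (A.mulVec v) := rfl
      _ ≤ nq v * (‖A‖ ^ 2 * nq v) := mul_le_mul_of_nonneg_left (nq_mulVec A v) (nq_nonneg v)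
      _ = (‖A‖ * nq v) ^ 2 := by ring
  refine (pow_le_pow_iff_left₀ ?_ (mul_nonneg (norm_nonneg _) (nq_nonneg v)) two_ne_zero).1 h2
  exact Finset.sum_nonneg fun i _ => mul_nonneg (norm_nonneg _) (norm_nonneg _)

theorem qf_add (A B : Matrix ι ι ℂ) (v : ι → ℂ) : qf (A + B) v = qf A v + qf B v := by
  unfold qf
  rw [← Complex.add_re, ← Finset.sum_add_distrib]
  refine congrArg Complex.re (Finset.sum_congr rfl fun i _ => ?_)
  rw [← Finset.sum_add_distrib]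
  refine Finset.sum_congr rfl fun j _ => ?_
  rw [Matrix.add_apply]
  ring

theorem qf_sub (A B : Matrix ι ι ℂ) (v : ι → ℂ) : qf (A - B) v = qf A v - qf B v := by
  unfold qf
  rw [← Complex.sub_re, ← Finset.sum_sub_distrib]
  refine congrArg Complex.re (Finset.sum_congr rfl fun i _ => ?_)
  rw [← Finset.sum_sub_distrib]
  refine Finset.sum_congr rfl fun j _ => ?_
  rw [Matrix.sub_apply]
  ring

theorem qf_one (v : ι → ℂ) : qf (1 : Matrix ι ι ℂ) v = nq v := by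
  rw [NMa_qf, Matrix.one_mulVec, Complex.re_sum]
  unfold nq
  refine Finset.sum_congr rfl fun i _ => ?_
  rw [Complex.conj_mul', ← Complex.ofReal_pow, Complex.ofReal_re]

theorem qf_smul (c : ℝ) (A : Matrix ι ι ℂ) (v : ι → ℂ) : qf ((c : ℂ) • A) v = c * qf A v := by
  unfold qf
  rw [← Complex.re_ofReal_mul, Finset.mul_sum]
  refine congrArg Complex.re (Finset.sum_congr rfl fun i _ => ?_)
  rw [Finset.mul_sum]
  refine Finset.sum_congr rfl fun j _ => ?_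
  rw [Matrix.smul_apply, smul_eq_mul]
  ring

theorem norm_one_le : ‖(1 : Matrix ι ι ℂ)‖ ≤ 1 := by
  refine norm_le_of_nq zero_le_one fun v => ?_
  rw [Matrix.one_mulVec, one_pow, one_mul]

theorem norm_smul_one_le (c : ℂ) : ‖c • (1 : Matrix ι ι ℂ)‖ ≤ ‖c‖ := by
  refine (norm_smul_le _ _).trans ?_
  have h := mul_le_mul_of_nonneg_left (norm_one_le (ι := ι)) (norm_nonneg c)
  rwa [mul_one] at h

end IPC.BS
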