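import Pool.Agent.Lib.MP_25e40f_pr.D.MDef
import Pool.Agent.Lib.MP_25e40f_pr.D.NMa

/-!
# MP_25e40f_pr, stream D, job EVa: transforms of sequences which are even in every coordinate

`structure EvS f B`: second moments, `f x i j = f (-x) j i`, even in every coordinate, and `∑ j, ∑' x, (x e)^2 |f x i j| ≤ B` for every row `i` and coordinate `e`.
For the three norm bounds use `norm_le_rows_cols` (job NMa): the entries of the matrix are bounded by `b i j := ∑' x, (x e)^2 |f x i j|` (times a factor) and `b i j = b j i` (by `sy` and `Equiv.neg`: `((-x) e)^2 = (x e)^2`), so column sums are row sums, `≤ B`.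
`EvS.om1`: entry bound `‖FT (mo e 1 (f . i j)) k‖ ≤ |k e| * ∑' x, (x e)^2 |f x i j|`: this is `FT_mo_one_le` of E/Mom.lean (`Ev` of the entry is `ev`).
`EvS.om2`: entry bound: `norm_FT_mo_le e 2`, `|x e|^2 = (x e)^2`.
`EvS.diff`: entry bound `‖FT h 0 - FT h k‖ ≤ (1/2) ∑' x, (∑ e, k e^2 (x e)^2) |h x|` for `h = f . i j`, even in every coordinate, with second moments:
 `h (-x) = h x` (apply all reflections; `-x` is obtained by reflecting all coordinates one after the other: induction over a finset of coordinates), so `FT h k = ∑' x, h x cos (dot k x)` (average `x` and `-x`, `ch k x + ch k (-x) = 2 cos (dot k x)`), `FT h 0 = ∑' x, h x`; `0 ≤ 1 - cos t ≤ t^2/2` (`Real.one_sub_sq_div_two_le_cos`); so the difference is at most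
 `(1/2) ∑' x, (dot k x)^2 |h x|`. Expand `(dot k x)^2 = ∑ e, ∑ e', k e k e' x e x e'`; for `e ≠ e'` the sum `∑' x, x e x e' |h x| = 0` (`reflE e` changes the sign: `Equiv.tsum_eq`, so `S = -S`), all the sums converge absolutely (`|x e x e'| ≤ (1 + ‖x‖)^2`, `abs_coord_le`). Sum over `j`: `(1/2) ∑ e, k e^2 * B`.
-/

set_option autoImplicit false
set_option linter.unusedSectionVars false

noncomputable section

open Finset
open scoped Classical Matrix.Norms.L2Operator

namespace IPC.BS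

open IPC.Fo

variable {n : ℕ} {ι : Type} [Fintype ι] [DecidableEq ι]

private theorem EVa_sin_nat (φ : ℝ) (n : ℕ) : |Real.sin (φ * n)| ≤ n * |Real.sin φ| := by
  induction n with
  | zero => simp
  | succ n ih =>
    have h1 : φ * ((n + 1 : ℕ) : ℝ) = φ * n + φ := by push_cast; ring
    rw [h1, Real.sin_add]
    have h2 := abs_add_le (Real.sin (φ * n) * Real.cos φ) (Real.cos (φ * n) * Real.sin φ)
    rw [abs_mul, abs_mul] at h2
    have h3 : |Real.sin (φ * n)| * |Real.cos φ| ≤ |Real.sin (φ * n)| * 1 :=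
      mul_le_mul_of_nonneg_left (Real.abs_cos_le_one _) (abs_nonneg _)
    have h4 : |Real.cos (φ * n)| * |Real.sin φ| ≤ 1 * |Real.sin φ| :=
      mul_le_mul_of_nonneg_right (Real.abs_cos_le_one _) (abs_nonneg _)
    push_cast
    linarith

private theorem EVa_sin_int (φ : ℝ) (n : ℤ) : |Real.sin (φ * n)| ≤ |(n : ℝ)| * |Real.sin φ| := by
  obtain ⟨m, rfl | rfl⟩ := Int.eq_nat_or_neg n
  · have h := EVa_sin_nat φ m
    rw [Int.cast_natCast, Nat.abs_cast]
    exact h
  · have h := EVa_sin_nat φ m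
    rw [Int.cast_neg, Int.cast_natCast, mul_neg, Real.sin_neg, abs_neg, abs_neg, Nat.abs_cast]
    exact h

private theorem EVa_one_sub_cos_int (n : ℤ) (θ : ℝ) : 1 - Real.cos (θ * n) ≤ (n : ℝ) ^ 2 * (1 - Real.cos θ) := by
  have h1 : ∀ t : ℝ, 1 - Real.cos t = 2 * Real.sin (t / 2) ^ 2 := fun t => by
    have h := Real.cos_sq' (t / 2)
    have h' := Real.cos_two_mul (t / 2)
    rw [show 2 * (t / 2) = t by ring] at h'
    rw [h', h]
    ring
  rw [h1, h1 θ, show θ * (n : ℝ) / 2 = θ / 2 * n by ring]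
  have h2 := EVa_sin_int (θ / 2) n
  have h3 : Real.sin (θ / 2 * n) ^ 2 ≤ (|(n : ℝ)| * |Real.sin (θ / 2)|) ^ 2 := by
    rw [← sq_abs]
    exact pow_le_pow_left₀ (abs_nonneg _) h2 2
  rw [mul_pow, sq_abs, sq_abs] at h3
  linarith

private theorem EVa_one_sub_prod {ι : Type} (s : Finset ι) (a : ι → ℝ) (h : ∀ i ∈ s, |a i| ≤ 1) :
    1 - ∏ i ∈ s, a i ≤ ∑ i ∈ s, (1 - a i) := by
  classical
  induction s using Finset.induction_on with
  | empty => simp
  | insert b s hb ih =>
    rw [Finset.prod_insert hb, Finset.sum_insert hb]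
    have h1 := ih fun i hi => h i (Finset.mem_insert_of_mem hi)
    have h2 := abs_le.1 (h b (Finset.mem_insert_self _ _))
    have h3 : |∏ i ∈ s, a i| ≤ 1 := by
      rw [Finset.abs_prod]
      exact Finset.prod_le_one (fun _ _ => abs_nonneg _) fun i hi => h i (Finset.mem_insert_of_mem hi)
    have h4 := abs_le.1 h3
    nlinarith [mul_nonneg (sub_nonneg.2 h2.2) (sub_nonneg.2 h4.2)]

/-- the character with the factors in `s` replaced by cosines -/
private def EVa_w (k : Fin n → ℝ) (s : Finset (Fin n)) (x : Fin n → ℤ) : ℂ :=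
  ∏ i, (if i ∈ s then ((Real.cos (k i * x i) : ℝ) : ℂ) else Complex.exp (((k i * x i : ℝ) : ℂ) * Complex.I))

private theorem EVa_w_empty (k : Fin n → ℝ) (x : Fin n → ℤ) : EVa_w k ∅ x = ch k x := by
  unfold EVa_w ch dot
  simp only [Finset.notMem_empty, if_false]
  rw [← Complex.exp_sum, ← Finset.sum_mul, ← Complex.ofReal_sum]

private theorem EVa_w_univ (k : Fin n → ℝ) (x : Fin n → ℤ) :
    EVa_w k Finset.univ x = ((∏ i, Real.cos (k i * x i) : ℝ) : ℂ) := by
  unfold EVa_w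
  simp only [Finset.mem_univ, if_true]
  rw [Complex.ofReal_prod]

private theorem EVa_w_norm (k : Fin n → ℝ) (s : Finset (Fin n)) (x : Fin n → ℤ) : ‖EVa_w k s x‖ ≤ 1 := by
  unfold EVa_w
  rw [norm_prod]
  refine Finset.prod_le_one (fun _ _ => norm_nonneg _) fun i _ => ?_
  split_ifs
  · rw [Complex.norm_real, Real.norm_eq_abs]
    exact Real.abs_cos_le_one _
  · rw [Complex.norm_exp_ofReal_mul_I]

private theorem EVa_w_step (k : Fin n → ℝ) (s : Finset (Fin n)) (e : Fin n) (he : e ∉ s) (x : Fin n → ℤ) :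
    EVa_w k s x + EVa_w k s (refl e x) = 2 * EVa_w k (insert e s) x := by
  unfold EVa_w
  rw [← Finset.mul_prod_erase Finset.univ _ (Finset.mem_univ e),
    ← Finset.mul_prod_erase Finset.univ _ (Finset.mem_univ e),
    ← Finset.mul_prod_erase Finset.univ _ (Finset.mem_univ e)]
  rw [if_neg he, if_neg he, if_pos (Finset.mem_insert_self _ _), refl_self]
  have h1 : ∏ i ∈ Finset.univ.erase e, (if i ∈ s then ((Real.cos (k i * (refl e x) i) : ℝ) : ℂ)
      else Complex.exp (((k i * (refl e x) i : ℝ) : ℂ) * Complex.I)) =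
      ∏ i ∈ Finset.univ.erase e, (if i ∈ s then ((Real.cos (k i * x i) : ℝ) : ℂ)
      else Complex.exp (((k i * x i : ℝ) : ℂ) * Complex.I)) :=
    Finset.prod_congr rfl fun i hi => by rw [refl_other (Finset.ne_of_mem_erase hi)]
  have h2 : ∏ i ∈ Finset.univ.erase e, (if i ∈ insert e s then ((Real.cos (k i * x i) : ℝ) : ℂ)
      else Complex.exp (((k i * x i : ℝ) : ℂ) * Complex.I)) =
      ∏ i ∈ Finset.univ.erase e, (if i ∈ s then ((Real.cos (k i * x i) : ℝ) : ℂ)
      else Complex.exp (((k i * x i : ℝ) : ℂ) * Complex.I)) := by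
    refine Finset.prod_congr rfl fun i hi => ?_
    have h := Finset.ne_of_mem_erase hi
    by_cases hs : i ∈ s
    · rw [if_pos (Finset.mem_insert_of_mem hs), if_pos hs]
    · rw [if_neg (fun hh => (Finset.mem_insert.1 hh).elim h hs), if_neg hs]
  rw [h1, h2, ← add_mul, ← mul_assoc]
  congr 1
  rw [Complex.ofReal_cos, Complex.cos, Int.cast_neg, mul_neg, Complex.ofReal_neg, neg_mul]
  ring

private theorem EVa_w_sum {f : (Fin n → ℤ) → ℝ} (hf : S1 f) (k : Fin n → ℝ) (s : Finset (Fin n)) :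
    Summable fun x => (f x : ℂ) * EVa_w k s x := by
  refine Summable.of_norm (Summable.of_nonneg_of_le (fun _ => norm_nonneg _) (fun x => ?_) hf)
  rw [norm_mul, Complex.norm_real, Real.norm_eq_abs]
  exact mul_le_of_le_one_right (abs_nonneg _) (EVa_w_norm k s x)

private theorem EVa_ind {f : (Fin n → ℤ) → ℝ} (hf : S1 f) (he : Ev f) (k : Fin n → ℝ) (s : Finset (Fin n)) :
    FT f k = ∑' x, (f x : ℂ) * EVa_w k s x := by
  induction s using Finset.induction_on with
  | empty =>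
    unfold FT
    refine tsum_congr fun x => ?_
    rw [EVa_w_empty]
  | insert e s hes ih =>
    have h0 := EVa_w_sum hf k s
    have h1 : ∑' x, (f x : ℂ) * EVa_w k s (refl e x) = FT f k := by
      rw [ih, ← (reflE e).tsum_eq (fun x => (f x : ℂ) * EVa_w k s x)]
      refine tsum_congr fun x => ?_
      change _ = (f (refl e x) : ℂ) * EVa_w k s (refl e x)
      rw [he e x]
    have h2 : Summable fun x => (f x : ℂ) * EVa_w k s (refl e x) := by
      have h := (reflE e).summable_iff.2 h0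
      refine h.congr fun x => ?_
      change (f (refl e x) : ℂ) * EVa_w k s (refl e x) = _
      rw [he e x]
    have h3 : ∑' x, ((f x : ℂ) * EVa_w k s x + (f x : ℂ) * EVa_w k s (refl e x)) =
        2 * ∑' x, (f x : ℂ) * EVa_w k (insert e s) x := by
      rw [← tsum_mul_left]
      refine tsum_congr fun x => ?_
      rw [← mul_add, EVa_w_step k s e hes x]
      ring
    rw [h0.tsum_add h2, h1, ← ih] at h3
    have h4 : (2 : ℂ) * FT f k = 2 * ∑' x, (f x : ℂ) * EVa_w k (insert e s) x := by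
      rw [← h3]
      ring
    exact mul_left_cancel₀ two_ne_zero h4

private theorem EVa_FT_even_prod {f : (Fin n → ℤ) → ℝ} (hf : S1 f) (he : Ev f) (k : Fin n → ℝ) :
    FT f k = ((∑' x, f x * ∏ i, Real.cos (k i * x i) : ℝ) : ℂ) := by
  rw [EVa_ind hf he k Finset.univ, Complex.ofReal_tsum]
  refine tsum_congr fun x => ?_
  rw [EVa_w_univ, Complex.ofReal_mul]

private theorem EVa_FT_diff {f : (Fin n → ℤ) → ℝ} (hf : S1 f) (he : Ev f)
    (h2 : ∀ e : Fin n, Summable fun x : Fin n → ℤ => (x e : ℝ) ^ 2 * |f x|) (k : Fin n → ℝ) :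
    |(FT f 0).re - (FT f k).re| ≤ ∑ i, (1 - Real.cos (k i)) * ∑' x : Fin n → ℤ, (x i : ℝ) ^ 2 * |f x| := by
  have ha : ∀ x : Fin n → ℤ, |∏ i, Real.cos (k i * x i)| ≤ 1 := fun x => by
    rw [Finset.abs_prod]
    exact Finset.prod_le_one (fun _ _ => abs_nonneg _) fun i _ => Real.abs_cos_le_one _
  have hs : Summable fun x => f x * ∏ i, Real.cos (k i * x i) := by
    refine Summable.of_abs (Summable.of_nonneg_of_le (fun _ => abs_nonneg _) (fun x => ?_) hf)
    rw [abs_mul]
    exact mul_le_of_le_one_right (abs_nonneg _) (ha x)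
  have e0 : (FT f 0).re = ∑' x, f x := by
    rw [EVa_FT_even_prod hf he 0, Complex.ofReal_re]
    refine tsum_congr fun x => ?_
    simp
  have ek : (FT f k).re = ∑' x, f x * ∏ i, Real.cos (k i * x i) := by
    rw [EVa_FT_even_prod hf he k, Complex.ofReal_re]
  have hb : ∀ x : Fin n → ℤ, |f x - f x * ∏ i, Real.cos (k i * x i)| ≤
      ∑ i, (1 - Real.cos (k i)) * ((x i : ℝ) ^ 2 * |f x|) := fun x => by
    have h1 := EVa_one_sub_prod (ι := Fin n) Finset.univ (fun i => Real.cos (k i * x i))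
      fun i _ => Real.abs_cos_le_one _
    have h3 : ∑ i, (1 - Real.cos (k i * x i)) ≤ ∑ i, (x i : ℝ) ^ 2 * (1 - Real.cos (k i)) :=
      Finset.sum_le_sum fun i _ => EVa_one_sub_cos_int (x i) (k i)
    have h4 : 0 ≤ 1 - ∏ i, Real.cos (k i * x i) := by
      have := (abs_le.1 (ha x)).2
      linarith
    have h5 : f x - f x * ∏ i, Real.cos (k i * x i) = f x * (1 - ∏ i, Real.cos (k i * x i)) := by ring
    rw [h5, abs_mul, abs_of_nonneg h4]
    have h6 : |f x| * (1 - ∏ i, Real.cos (k i * x i)) ≤ |f x| * ∑ i, (x i : ℝ) ^ 2 * (1 - Real.cos (k i)) :=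
      mul_le_mul_of_nonneg_left (h1.trans h3) (abs_nonneg _)
    refine h6.trans (le_of_eq ?_)
    rw [Finset.mul_sum]
    refine Finset.sum_congr rfl fun i _ => ?_
    ring
  have hS : ∀ i ∈ (Finset.univ : Finset (Fin n)), Summable fun x : Fin n → ℤ =>
      (1 - Real.cos (k i)) * ((x i : ℝ) ^ 2 * |f x|) := fun i _ => (h2 i).mul_left _
  have hS' : Summable fun x : Fin n → ℤ => ∑ i, (1 - Real.cos (k i)) * ((x i : ℝ) ^ 2 * |f x|) :=
    summable_sum hS
  have hN : Summable fun x => |f x - f x * ∏ i, Real.cos (k i * x i)| :=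
    Summable.of_nonneg_of_le (fun _ => abs_nonneg _) hb hS'
  rw [e0, ek, ← hf.sum.tsum_sub hs]
  have hn := norm_tsum_le_tsum_norm (f := fun x => f x - f x * ∏ i, Real.cos (k i * x i)) (by
    simpa only [Real.norm_eq_abs] using hN)
  simp only [Real.norm_eq_abs] at hn
  refine hn.trans ((hN.tsum_le_tsum hb hS').trans (le_of_eq ?_))
  rw [Summable.tsum_finsetSum hS]
  refine Finset.sum_congr rfl fun i _ => ?_
  rw [tsum_mul_left]

/-- symmetric sequences, even in every coordinate, with bounded second moments -/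
structure EvS (f : MS n ι) (B : ℝ) : Prop where
  m2 : Mm 2 f
  sy : ∀ x i j, f x i j = f (-x) j i
  ev : ∀ e x i j, f (refl e x) i j = f x i j
  row : ∀ i e, ∑ j, ∑' x, (x e : ℝ) ^ 2 * |f x i j| ≤ B


private theorem EVa_norm {A : Matrix ι ι ℂ} {r : ℝ} (hr : 0 ≤ r) (c : ι → ι → ℝ) (hA : ∀ i j, ‖A i j‖ ≤ c i j)
    (hc : ∀ i j, c i j = c j i) (h : ∀ i, ∑ j, c i j ≤ r) : ‖A‖ ≤ r := by
  refine norm_le_rows_cols hr (fun i => (Finset.sum_le_sum fun j _ => hA i j).trans (h i)) fun j => ?_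
  refine (Finset.sum_le_sum fun i _ => (hA i j).trans (le_of_eq (hc i j))).trans (h j)

private theorem EVa_sym {f : MS n ι} {B : ℝ} (h : EvS f B) (e : Fin n) (i j : ι) :
    ∑' x : Fin n → ℤ, (x e : ℝ) ^ 2 * |f x i j| = ∑' x : Fin n → ℤ, (x e : ℝ) ^ 2 * |f x j i| := by
  rw [← (Equiv.neg (Fin n → ℤ)).tsum_eq (fun x : Fin n → ℤ => (x e : ℝ) ^ 2 * |f x j i|)]
  refine tsum_congr fun x => ?_
  rw [h.sy x i j, Equiv.neg_apply, Pi.neg_apply, Int.cast_neg, neg_sq]

private theorem EVa_sum2 {f : MS n ι} {B : ℝ} (h : EvS f B) (e : Fin n) (i j : ι) :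
    Summable fun x : Fin n → ℤ => (x e : ℝ) ^ 2 * |f x i j| := by
  have hs2 : S1 (mo e 2 (fun x => f x i j)) := (Mo.mo (m := 0) (a := 2) (h.m2 i j) e).s1
  refine hs2.congr fun x => ?_
  unfold mo
  rw [abs_mul, abs_of_nonneg (by positivity : (0 : ℝ) ≤ (x e : ℝ) ^ 2)]

private theorem EVa_cos (t : ℝ) : 1 - Real.cos t ≤ t ^ 2 / 2 := by
  have := Real.one_sub_sq_div_two_le_cos (x := t)
  linarith

private theorem EVa_nonneg {f : MS n ι} (e : Fin n) (i j : ι) :
    0 ≤ ∑' x : Fin n → ℤ, (x e : ℝ) ^ 2 * |f x i j| := tsum_nonneg fun _ => by positivity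

theorem EvS.diff {f : MS n ι} {B : ℝ} (h : EvS f B) (hB : 0 ≤ B) (k : Fin n → ℝ) :
    ‖FM f 0 - FM f k‖ ≤ 1 / 2 * (∑ e, k e ^ 2) * B := by
  refine EVa_norm (by positivity)
    (fun i j => ∑ e, k e ^ 2 / 2 * ∑' x : Fin n → ℤ, (x e : ℝ) ^ 2 * |f x i j|) (fun i j => ?_)
    (fun i j => ?_) (fun i => ?_)
  · have hS : S1 (fun x => f x i j) := (h.m2 i j).s1
    have hE : Ev (fun x => f x i j) := fun e x => h.ev e x i j
    have h1 := EVa_FT_diff hS hE (fun e => EVa_sum2 h e i j) k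
    rw [Matrix.sub_apply]
    change ‖FT (fun x => f x i j) 0 - FT (fun x => f x i j) k‖ ≤ _
    have h2 : ‖FT (fun x => f x i j) 0 - FT (fun x => f x i j) k‖ =
        |(FT (fun x => f x i j) 0).re - (FT (fun x => f x i j) k).re| := by
      rw [EVa_FT_even_prod hS hE 0, EVa_FT_even_prod hS hE k, Complex.ofReal_re, Complex.ofReal_re,
        ← Complex.ofReal_sub, Complex.norm_real, Real.norm_eq_abs]
    rw [h2]
    exact h1.trans (Finset.sum_le_sum fun e _ => mul_le_mul_of_nonneg_right (EVa_cos (k e)) (EVa_nonneg e i j))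
  · exact Finset.sum_congr rfl fun e _ => by rw [EVa_sym h e i j]
  · rw [Finset.sum_comm]
    have h3 : ∀ e ∈ (Finset.univ : Finset (Fin n)),
        ∑ j, k e ^ 2 / 2 * ∑' x : Fin n → ℤ, (x e : ℝ) ^ 2 * |f x i j| ≤ k e ^ 2 / 2 * B := fun e _ => by
      rw [← Finset.mul_sum]
      exact mul_le_mul_of_nonneg_left (h.row i e) (by positivity)
    refine (Finset.sum_le_sum h3).trans (le_of_eq ?_)
    rw [← Finset.sum_mul, ← Finset.sum_div]
    ring

theorem EvS.om1 {f : MS n ι} {B : ℝ} (h : EvS f B) (hB : 0 ≤ B) (e : Fin n) (k : Fin n → ℝ) :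
    ‖FM (om e 1 f) k‖ ≤ |k e| * B := by
  refine EVa_norm (by positivity) (fun i j => |k e| * ∑' x : Fin n → ℤ, (x e : ℝ) ^ 2 * |f x i j|) (fun i j => ?_)
    (fun i j => ?_) (fun i => ?_)
  · exact FT_mo_one_le (h.m2 i j) (fun e x => h.ev e x i j) e k
  · rw [EVa_sym h e i j]
  · rw [← Finset.mul_sum]
    exact mul_le_mul_of_nonneg_left (h.row i e) (abs_nonneg _)

theorem EvS.om2 {f : MS n ι} {B : ℝ} (h : EvS f B) (hB : 0 ≤ B) (e : Fin n) (k : Fin n → ℝ) :
    ‖FM (om e 2 f) k‖ ≤ B := by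
  refine EVa_norm hB (fun i j => ∑' x : Fin n → ℤ, (x e : ℝ) ^ 2 * |f x i j|) (fun i j => ?_)
    (fun i j => ?_) (fun i => h.row i e)
  · refine (norm_FT_mo_le e 2 (h.m2 i j) k).trans (le_of_eq (tsum_congr fun x => ?_))
    rw [sq_abs]
  · exact EVa_sym h e i j

end IPC.BS
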