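import Pool.Agent.Lib.MP_25e40f_pr.D.MDef

/-!
# MP_25e40f_pr, stream D, job MAa: moments and transforms of matrix valued sequences

Definitions in D/MDef.lean. Everything is entrywise from the scalar facts of E/Fou.lean and E/Mom.lean (`Mo`, `S1`, `cv`, `FT`, `Mo.mono`, `Mo.s1`, `Mo_zero`, `Mo.add`, `Mo.cv`, `Mo.mo`, `FT_add`, `FT_cv`, `FT_del`, `FT_sum`, `S1_sum`, `Mo_del`).
`Mm_cm`: `cm f g` entrywise is a finite sum of `cv`; `Mo` of a finite sum: induction with `Mo.add` (write a private lemma `Mo_sum`, as `S1_sum` in E/Fou.lean).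
`Mm_om`: the entry of `om e a f` is `mo e a` of the entry (`rfl` up to unfolding), `Mo.mo`.
`FM_cm`: entry `(i, j)`: `FT (fun x => sum_l cv ..) k = sum_l FT (cv ..) k = sum_l FT .. * FT ..` (`FT_sum`, `FT_cv`), which is `Matrix.mul_apply`.
`FM_dm`: entry: `FT (fun x => if i = j then del x else 0)`, by cases `i = j` (`FT_del`, `FT_zero`), `Matrix.one_apply`.
-/

set_option autoImplicit false
set_option linter.unusedSectionVars false

noncomputable section

open Finset
open scoped Classical Matrix.Norms.L2Operator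

namespace IPC.BS

open IPC.Fo

variable {n : ℕ} {ι : Type} [Fintype ι] [DecidableEq ι]

private theorem MAa_Mo_sum {κ : Type} (m : ℕ) (s : Finset κ) (f : κ → (Fin n → ℤ) → ℝ)
    (hf : ∀ l ∈ s, Mo m (f l)) : Mo m (fun x => ∑ l ∈ s, f l x) := by
  induction s using Finset.induction_on with
  | empty =>
    refine Mo_of_finite m ?_
    have h : (Function.support fun x : Fin n → ℤ => ∑ l ∈ (∅ : Finset κ), f l x) = ∅ := by
      ext x
      simp
    rw [h]
    exact Set.finite_empty
  | insert a s ha ih =>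
    have h1 : (fun x => ∑ l ∈ insert a s, f l x) = fun x => f a x + ∑ l ∈ s, f l x := by
      funext x
      rw [Finset.sum_insert ha]
    rw [h1]
    exact (hf a (Finset.mem_insert_self _ _)).add (ih fun l hl => hf l (Finset.mem_insert_of_mem hl))

theorem Mm.mono {m m' : ℕ} (h : m ≤ m') {f : MS n ι} (hf : Mm m' f) : Mm m f :=
  fun i j => (hf i j).mono h

theorem Mm_add {m : ℕ} {f g : MS n ι} (hf : Mm m f) (hg : Mm m g) : Mm m (fun x i j => f x i j + g x i j) :=
  fun i j => (hf i j).add (hg i j)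

theorem Mm_cm {m : ℕ} {f g : MS n ι} (hf : Mm m f) (hg : Mm m g) : Mm m (cm f g) :=
  fun i j => MAa_Mo_sum m Finset.univ _ fun l _ => (hf i l).cv (hg l j)

theorem Mm_om {m a : ℕ} {f : MS n ι} (hf : Mm (m + a) f) (e : Fin n) : Mm m (om e a f) :=
  fun i j => (hf i j).mo e

theorem Mm_dm (m : ℕ) : Mm m (dm n ι) := by
  intro i j
  unfold dm
  by_cases h : i = j
  · simp only [if_pos h]
    exact Mo_del m
  · simp only [if_neg h]
    refine Mo_of_finite m ?_
    rw [Function.support_fun_zero]
    exact Set.finite_empty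

theorem FM_add {f g : MS n ι} (hf : Mm 0 f) (hg : Mm 0 g) (k : Fin n → ℝ) :
    FM (fun x i j => f x i j + g x i j) k = FM f k + FM g k := by
  ext i j
  rw [Matrix.add_apply]
  exact FT_add (hf i j).s1 (hg i j).s1 k

theorem FM_cm {f g : MS n ι} (hf : Mm 0 f) (hg : Mm 0 g) (k : Fin n → ℝ) :
    FM (cm f g) k = FM f k * FM g k := by
  ext i j
  rw [Matrix.mul_apply]
  show FT (fun x => ∑ l, cv (fun y => f y i l) (fun y => g y l j) x) k =
    ∑ l, FT (fun x => f x i l) k * FT (fun x => g x l j) k
  rw [FT_sum Finset.univ (fun l => cv (fun y => f y i l) (fun y => g y l j))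
    (fun l _ => ((hf i l).cv (hg l j)).s1) k]
  exact Finset.sum_congr rfl fun l _ => FT_cv (hf i l).s1 (hg l j).s1 k

theorem FM_dm (k : Fin n → ℝ) : FM (dm n ι) k = 1 := by
  ext i j
  rw [Matrix.one_apply]
  show FT (fun x => if i = j then del n x else 0) k = _
  by_cases h : i = j
  · simp only [if_pos h]
    exact FT_del k
  · simp only [if_neg h]
    exact FT_zero k

end IPC.BS
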