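import Pool.Agent.Lib.MP_25e40f_pr.D.SYb
import Pool.Agent.Lib.MP_25e40f_pr.IfU
import Pool.Agent.Lib.MP_25e40f_pr.E.MmtC

/-!
# MP_25e40f_pr, stream D, job TMa: moments

`Mm_ts`: `decay_W n hn ι H p hp0 hp hp2` gives `ts x i j ≤ C exp (- c nrm x)` (`x.1 - y.1 = 0 - x`, `nrm (-x) = nrm x`), and `(nrm x : ℝ) = ‖x‖` (sup norm on `Fin n → ℤ`: `Pi.norm_def`, `Int.norm_eq_abs`, or prove `‖x‖ ≤ nrm x` with `pi_norm_le_iff_of_nonneg`, which suffices).
 `t ↦ (1 + t)^(m + n + 1) exp (- c t)` is bounded on `[0, ∞)` by some `B` (`Real.pow_div_factorial_le_exp` or `tendsto_pow_mul_exp_neg_atTop_nhds_zero`; e.g. `(c/2 (1+t))^N / N! ≤ exp (c/2 (1+t))`), so `(1 + ‖x‖)^m |ts x i j| ≤ C B ((1 + ‖x‖)^(n+1))⁻¹`, summable by `Fo.summable_inv n` (E/MmtC.lean).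
`Mm_ps`: finite support (`Mo_of_finite` of E/Mom.lean): `ps x i j ≠ 0` implies `(x, j) ∈ nb (0, i)`, a finite set, and `x ↦ (x, j)` is injective.
`Nn_ts`: `T.tau_nonneg`. `Nn_ps`: cases.
-/

set_option autoImplicit false
set_option linter.unusedSectionVars false

noncomputable section

open Finset
open scoped Classical Matrix.Norms.L2Operator

namespace IPC.BS

open IPC.Fo

variable {n : ℕ} {ι : Type} [Fintype ι] [DecidableEq ι] {H : SimpleGraph ι} {p : ℝ}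

private theorem TMa_norm_le (x : Fin n → ℤ) : ‖x‖ ≤ (nrm x : ℝ) := by
  rw [pi_norm_le_iff_of_nonneg (Nat.cast_nonneg _)]
  intro i
  rw [Int.norm_eq_abs, ← Int.cast_abs, Int.abs_eq_natAbs, Int.cast_natCast]
  have h : (x i).natAbs ≤ nrm x := Finset.le_sup (f := fun i => (x i).natAbs) (Finset.mem_univ i)
  exact_mod_cast h

private theorem TMa_exp (N : ℕ) {c t : ℝ} (hc : 0 < c) (ht : 0 ≤ t) :
    (1 + t) ^ N * Real.exp (-c * t) ≤ (N.factorial : ℝ) / c ^ N * Real.exp c := by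
  have h1 := Real.pow_div_factorial_le_exp (c * (1 + t)) (by positivity) N
  have hf : (0 : ℝ) < (N.factorial : ℝ) := by exact_mod_cast N.factorial_pos
  have hcN : 0 < c ^ N := by positivity
  rw [div_le_iff₀ hf, mul_pow] at h1
  have h2 : Real.exp (c * (1 + t)) = Real.exp c * Real.exp (c * t) := by
    rw [← Real.exp_add]
    congr 1
    ring
  have h3 : Real.exp (c * t) * Real.exp (-c * t) = 1 := by
    rw [← Real.exp_add]
    have : c * t + -c * t = 0 := by ring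
    rw [this, Real.exp_zero]
  have h4 : (1 + t) ^ N ≤ (N.factorial : ℝ) / c ^ N * Real.exp c * Real.exp (c * t) := by
    have h5 : (N.factorial : ℝ) / c ^ N * Real.exp c * Real.exp (c * t) =
        (Real.exp (c * (1 + t)) * (N.factorial : ℝ)) / c ^ N := by
      rw [h2]
      ring
    rw [h5, le_div_iff₀ hcN]
    linarith
  calc (1 + t) ^ N * Real.exp (-c * t) ≤ (N.factorial : ℝ) / c ^ N * Real.exp c * Real.exp (c * t) * Real.exp (-c * t) :=
        mul_le_mul_of_nonneg_right h4 (Real.exp_pos _).le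
    _ = (N.factorial : ℝ) / c ^ N * Real.exp c * (Real.exp (c * t) * Real.exp (-c * t)) := by ring
    _ = (N.factorial : ℝ) / c ^ N * Real.exp c := by rw [h3, mul_one]


theorem Mm_ts (hn : 1 ≤ n) (hp0 : 0 ≤ p) (hp : p < (Wg n ι H).pc) (hp2 : p ≤ 1 / 2) (m : ℕ) :
    Mm m (ts n ι H p) := by
  intro i j
  obtain ⟨C, c, hC, hc, h⟩ := decay_W n hn ι H p hp0 hp hp2
  refine Summable.of_nonneg_of_le (fun x => mul_nonneg (pow_nonneg (by linarith [norm_nonneg x]) _) (abs_nonneg _))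
    (fun x => ?_) ((summable_inv n).mul_left (C * (((m + (n + 1)).factorial : ℝ) / c ^ (m + (n + 1)) * Real.exp c)))
  have hx : 0 ≤ ‖x‖ := norm_nonneg x
  have h0 : 0 ≤ ts n ι H p x i j := T.tau_nonneg (Wg n ι H) hp0 (by linarith) _ _
  have h1 : ts n ι H p x i j ≤ C * Real.exp (-c * nrm ((0 : Fin n → ℤ) - x)) := h (0, i) (x, j)
  have h2 : ‖x‖ ≤ (nrm ((0 : Fin n → ℤ) - x) : ℝ) := by
    have := TMa_norm_le ((0 : Fin n → ℤ) - x)
    rwa [zero_sub, norm_neg, ← zero_sub] at this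
  have h3 : Real.exp (-c * nrm ((0 : Fin n → ℤ) - x)) ≤ Real.exp (-c * ‖x‖) := by
    apply Real.exp_le_exp.mpr
    nlinarith
  have h4 := TMa_exp (m + (n + 1)) hc hx
  have hp1 : (0 : ℝ) < (1 + ‖x‖) ^ (n + 1) := by positivity
  show (1 + ‖x‖) ^ m * |ts n ι H p x i j| ≤ _
  rw [abs_of_nonneg h0, ← div_eq_mul_inv, le_div_iff₀ hp1]
  calc (1 + ‖x‖) ^ m * ts n ι H p x i j * (1 + ‖x‖) ^ (n + 1)
      ≤ (1 + ‖x‖) ^ m * (C * Real.exp (-c * ‖x‖)) * (1 + ‖x‖) ^ (n + 1) :=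
        mul_le_mul_of_nonneg_right (mul_le_mul_of_nonneg_left
          (h1.trans (mul_le_mul_of_nonneg_left h3 hC.le)) (by positivity)) hp1.le
    _ = C * ((1 + ‖x‖) ^ (m + (n + 1)) * Real.exp (-c * ‖x‖)) := by
        rw [pow_add]
        ring
    _ ≤ C * (((m + (n + 1)).factorial : ℝ) / c ^ (m + (n + 1)) * Real.exp c) :=
        mul_le_mul_of_nonneg_left h4 hC.le

theorem Mm_ps (m : ℕ) : Mm m (ps n ι H p) := by
  intro i j
  refine Mo_of_finite m ?_
  have h1 : ((fun x : Fin n → ℤ => (x, j)) ⁻¹' (((Wg n ι H).nb (0, i) : Finset ((Fin n → ℤ) × ι)) :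
      Set ((Fin n → ℤ) × ι))).Finite :=
    Set.Finite.preimage (fun x _ y _ hxy => (Prod.mk.inj hxy).1) (Finset.finite_toSet _)
  refine h1.subset (fun x hx => ?_)
  by_contra hne
  apply hx
  have h2 : (x, j) ∉ (Wg n ι H).nb (0, i) := fun h => hne (Finset.mem_coe.mpr h)
  show (if (x, j) ∈ (Wg n ι H).nb (0, i) then p else 0) = 0
  rw [if_neg h2]

theorem Nn_ts (hp0 : 0 ≤ p) (hp1 : p ≤ 1) : Nn (ts n ι H p) := by
  intro x i j
  exact T.tau_nonneg (Wg n ι H) hp0 hp1 _ _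

theorem Nn_ps (hp0 : 0 ≤ p) : Nn (ps n ι H p) := by
  intro x i j
  show 0 ≤ (if (x, j) ∈ (Wg n ι H).nb (0, i) then p else 0)
  split_ifs
  · exact hp0
  · exact le_refl _

end IPC.BS
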