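import Pool.Agent.Lib.MP_25e40f_pr.D.SYb
import Pool.Agent.Lib.MP_25e40f_pr.D.MAa
import Pool.Agent.Lib.MP_25e40f_pr.D.TMa
import Pool.Agent.Lib.MP_25e40f_pr.B.Tau

/-!
# MP_25e40f_pr, stream D, job EXa: the equation `τ = g (1 + P τ)` for sequences

`ts_eq`: `tau_exp (Wg n ι H) hp0 hp1 hN (2n+2) (degW hdeg) (0, i) (x, j) hfin` (B/Tau.lean): `tau (0,i) (x,j) = ∑' u, gg (0,i) u * ((if u = (x,j) then 1 else 0) + ∑ v ∈ nb u, p * tau v (x,j))`, a summable series over `u = (z, l)`; so it is `∑ l, ∑' z, gs z i l * (..)` (`Summable.tsum_prod'` and `tsum_fintype`, or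
 `Equiv.prodComm`, `Summable.prod_factor`), and `(if (z,l) = (x,j) then 1 else 0) = dm n ι (x - z) l j`, `∑ v ∈ nb (z,l), p * tau v (x,j) = cm ps ts (x - z) l j` (`sum_nb`).
`sum_nb`: `cm ps ts y l j = ∑ m, ∑' w, ps w l m * ts (y - w) m j` (definition of `cv`); each `∑' w` is a finite sum over `w` with `(w, m) ∈ nb (0, l)`; together a sum over `v = (w, m) ∈ nb (0, l)` of `p * ts (y - w) m j`; and `nb (z, l)` is the image of `nb (0, l)` under `trW z` (`nb_trW`), `tau (z + w, m) (x, j) = ts (x - z - w) m j` (`tau_ts`).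
`FM_ts_eq`: `FM_cm`, `FM_add`, `FM_dm` (summability: `gs` by hypothesis, `ts`, `ps` by `Mm_ts`, `Mm_ps`, `Mm_cm`, `Mm_dm`, `Mm_add`).
-/

set_option autoImplicit false
set_option linter.unusedSectionVars false

noncomputable section

open Finset
open scoped Classical Matrix.Norms.L2Operator

namespace IPC.BS

open IPC.Fo

variable {n : ℕ} {ι : Type} [Fintype ι] [DecidableEq ι] {H : SimpleGraph ι} {p : ℝ}

theorem sum_nb (hp0 : 0 ≤ p) (hp1 : p ≤ 1) (z x : Fin n → ℤ) (l j : ι) :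
    ∑ v ∈ (Wg n ι H).nb (z, l), p * (Wg n ι H).tau p v (x, j) = cm (ps n ι H p) (ts n ι H p) (x - z) l j := by
  have h1 : (Wg n ι H).nb (z, l) = ((Wg n ι H).nb ((0 : Fin n → ℤ), l)).image (trW z) := by
    rw [← nb_trW]
    have e : (trW z ((0 : Fin n → ℤ), l)) = (z, l) := by
      show ((0 : Fin n → ℤ) + z, l) = (z, l)
      rw [zero_add]
    rw [e]
  rw [h1, Finset.sum_image (fun a _ b _ h => (trW z).injective h)]
  have h2 : ∀ v ∈ (Wg n ι H).nb ((0 : Fin n → ℤ), l), p * (Wg n ι H).tau p (trW z v) (x, j) =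
      (if (v.1, v.2) ∈ (Wg n ι H).nb ((0 : Fin n → ℤ), l) then p else 0) * ts n ι H p (x - z - v.1) v.2 j := by
    intro v hv
    rw [tau_ts hp0 hp1, if_pos hv]
    have e : ((x, j) : (Fin n → ℤ) × ι).1 - (trW z v).1 = x - z - v.1 := by
      show x - (v.1 + z) = x - z - v.1
      abel
    rw [e]
    rfl
  rw [Finset.sum_congr rfl h2]
  unfold cm cv
  have h3 : ∀ m : ι, ∑' w, ps n ι H p w l m * ts n ι H p (x - z - w) m j =
      ∑ w ∈ ((Wg n ι H).nb ((0 : Fin n → ℤ), l)).image Prod.fst,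
        ps n ι H p w l m * ts n ι H p (x - z - w) m j := by
    intro m
    refine tsum_eq_sum fun w hw => ?_
    have : (w, m) ∉ (Wg n ι H).nb ((0 : Fin n → ℤ), l) := by
      intro h
      exact hw (Finset.mem_image.2 ⟨(w, m), h, rfl⟩)
    unfold ps
    rw [if_neg this, zero_mul]
  rw [Finset.sum_congr rfl (fun m _ => h3 m), Finset.sum_comm, ← Finset.sum_product']
  refine Finset.sum_subset ?_ ?_
  · intro v hv
    exact Finset.mem_product.2 ⟨Finset.mem_image.2 ⟨v, hv, rfl⟩, Finset.mem_univ _⟩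
  · intro v _ hv
    have hv' : (v.1, v.2) ∉ (Wg n ι H).nb ((0 : Fin n → ℤ), l) := hv
    rw [if_neg hv', zero_mul]

theorem ts_eq (hdeg : ∀ i, (Finset.univ.filter fun j => H.Adj i j).card ≤ 2) (hp0 : 0 ≤ p) (hp1 : p ≤ 1)
    (hN : (Wg n ι H).NoPerc p) (hfin : ∀ x, ∑' m, ∑' u, ZZ (Wg n ι H) p m {x} Set.univ u ≠ ⊤) :
    ts n ι H p = cm (gs n ι H p) (fun x i j => dm n ι x i j + cm (ps n ι H p) (ts n ι H p) x i j) := by
  funext x i j
  obtain ⟨hs, he⟩ := tau_exp (Wg n ι H) hp0 hp1 hN (2 * n + 2) (degW hdeg) ((0 : Fin n → ℤ), i) (x, j) (hfin _)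
  have h0 : ts n ι H p x i j = (Wg n ι H).tau p ((0 : Fin n → ℤ), i) (x, j) := rfl
  rw [h0, he]
  have hF : (fun u : (Fin n → ℤ) × ι => gg (Wg n ι H) p ((0 : Fin n → ℤ), i) u *
      ((if u = (x, j) then 1 else 0) + ∑ v ∈ (Wg n ι H).nb u, p * (Wg n ι H).tau p v (x, j))) =
      fun u => gs n ι H p u.1 i u.2 * (dm n ι (x - u.1) u.2 j + cm (ps n ι H p) (ts n ι H p) (x - u.1) u.2 j) := by
    funext u
    obtain ⟨z, l⟩ := u
    rw [sum_nb hp0 hp1 z x l j]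
    have hd : (if ((z, l) : (Fin n → ℤ) × ι) = (x, j) then (1 : ℝ) else 0) = dm n ι (x - z) l j := by
      unfold dm del
      by_cases hl : l = j
      · by_cases hz : z = x
        · rw [if_pos (by rw [hl, hz]), if_pos hl, if_pos (by rw [hz, sub_self])]
        · rw [if_neg (fun h => hz (Prod.ext_iff.1 h).1), if_pos hl,
            if_neg (fun h => hz (sub_eq_zero.1 h).symm)]
      · rw [if_neg (fun h => hl (Prod.ext_iff.1 h).2), if_neg hl]
    rw [hd]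
    rfl
  rw [hF] at hs
  rw [hF, ← (Equiv.prodComm ι (Fin n → ℤ)).tsum_eq]
  have hs' := (Equiv.prodComm ι (Fin n → ℤ)).summable_iff.2 hs
  refine (Summable.tsum_prod hs').trans ?_
  rw [tsum_fintype]
  rfl

theorem FM_ts_eq (hdeg : ∀ i, (Finset.univ.filter fun j => H.Adj i j).card ≤ 2) (hp0 : 0 ≤ p) (hp1 : p ≤ 1)
    (hN : (Wg n ι H).NoPerc p) (hfin : ∀ x, ∑' m, ∑' u, ZZ (Wg n ι H) p m {x} Set.univ u ≠ ⊤)
    (hg : Mm 0 (gs n ι H p)) (ht : Mm 0 (ts n ι H p)) (k : Fin n → ℝ) :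
    FM (ts n ι H p) k = FM (gs n ι H p) k * (1 + FM (ps n ι H p) k * FM (ts n ι H p) k) := by
  have e := ts_eq hdeg hp0 hp1 hN hfin
  have hc : Mm 0 (cm (ps n ι H p) (ts n ι H p)) := Mm_cm (Mm_ps 0) ht
  have h1 : FM (ts n ι H p) k =
      FM (cm (gs n ι H p) (fun x i j => dm n ι x i j + cm (ps n ι H p) (ts n ι H p) x i j)) k :=
    congrArg (fun f => FM f k) e
  rw [FM_cm hg (Mm_add (Mm_dm 0) hc), FM_add (Mm_dm 0) hc, FM_dm, FM_cm (Mm_ps 0) ht] at h1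
  exact h1

end IPC.BS
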