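import Pool.Agent.Lib.MP_25e40f_pr.E.Fou

/-!
# The random walk bound `∫ E(k)⁻¹⁰ ≤ 2³⁰`, uniformly in the dimension `n ≥ 40`

By the inequality of arithmetic and geometric means, `E(k) = (1/n) ∑ (1 - cos kᵢ) ≥ ∏ (1 - cos kᵢ)^(1/n)`, and
`1 - cos t ≥ 2 t² / π²`; the integral of the product is the product of the integrals.
-/

set_option autoImplicit false

noncomputable section

open Finset MeasureTheory

namespace IPC.Fo

/-- `(1/n) ∑ (1 - cos kᵢ)` -/
def En (n : ℕ) (k : Fin n → ℝ) : ℝ := (∑ i, (1 - Real.cos (k i))) / n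

theorem En_nonneg (n : ℕ) (k : Fin n → ℝ) : 0 ≤ En n k :=
  div_nonneg (Finset.sum_nonneg fun i _ => by linarith [Real.cos_le_one (k i)]) (Nat.cast_nonneg n)

theorem En_le_two (n : ℕ) (k : Fin n → ℝ) : En n k ≤ 2 := by
  rcases Nat.eq_zero_or_pos n with h | h
  · subst h; simp [En]
  · have hn : (0 : ℝ) < n := by exact_mod_cast h
    rw [En, div_le_iff₀ hn]
    calc ∑ i, (1 - Real.cos (k i)) ≤ ∑ _i : Fin n, (2 : ℝ) :=
          Finset.sum_le_sum fun i _ => by linarith [Real.neg_one_le_cos (k i)]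
      _ = 2 * n := by simp [mul_comm]

theorem En_continuous (n : ℕ) : Continuous (En n) := by
  unfold En
  fun_prop

/-- arithmetic and geometric mean -/
theorem geom_le_En {n : ℕ} (hn : 0 < n) (k : Fin n → ℝ) :
    ∏ i, (1 - Real.cos (k i)) ^ ((1 : ℝ) / n) ≤ En n k := by
  have hn' : (0 : ℝ) < n := by exact_mod_cast hn
  have h := Real.geom_mean_le_arith_mean_weighted Finset.univ (fun _ : Fin n => (1 : ℝ) / n)
    (fun i => 1 - Real.cos (k i)) (fun _ _ => by positivity) (by simp [hn'.ne'])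
    (fun i _ => by linarith [Real.cos_le_one (k i)])
  refine h.trans (le_of_eq ?_)
  rw [En, Finset.sum_div]
  refine Finset.sum_congr rfl fun i _ => ?_
  ring

theorem nu1_integral_real (f : ℝ → ℝ) :
    ∫ t, f t ∂nu1 = 1 / (2 * Real.pi) * ∫ t in (-Real.pi)..Real.pi, f t := by
  have hpi := Real.pi_pos
  rw [nu1, integral_smul_measure, ENNReal.toReal_ofReal (by positivity), smul_eq_mul,
    intervalIntegral.integral_of_le (by linarith), integral_Icc_eq_integral_Ioc]

theorem nu1_integrable {f : ℝ → ℝ} (hf : IntervalIntegrable f volume (-Real.pi) Real.pi) : Integrable f nu1 := by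
  have hpi := Real.pi_pos
  rw [nu1]
  refine Integrable.smul_measure ?_ ENNReal.ofReal_ne_top
  rw [← IntegrableOn, integrableOn_Icc_iff_integrableOn_Ioc]
  exact (intervalIntegrable_iff_integrableOn_Ioc_of_le (by linarith)).1 hf

theorem absrpow_right {a : ℝ} (ha : a < 1) :
    IntervalIntegrable (fun t => |t| ^ (-a)) volume 0 Real.pi ∧
      ∫ t in (0 : ℝ)..Real.pi, |t| ^ (-a) = Real.pi ^ (1 - a) / (1 - a) := by
  have hpi := Real.pi_pos
  have h1 : IntervalIntegrable (fun t : ℝ => t ^ (-a)) volume 0 Real.pi :=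
    intervalIntegral.intervalIntegrable_rpow' (by linarith)
  have h2 : Set.EqOn (fun t : ℝ => t ^ (-a)) (fun t => |t| ^ (-a)) (Set.uIcc 0 Real.pi) := by
    intro t ht
    rw [Set.uIcc_of_le hpi.le] at ht
    simp only [abs_of_nonneg ht.1]
  refine ⟨h1.congr ?_, ?_⟩
  · intro t ht
    exact h2 (Set.uIoc_subset_uIcc ht)
  · rw [← intervalIntegral.integral_congr h2, integral_rpow (Or.inl (by linarith)), Real.zero_rpow (by linarith),
      sub_zero, show -a + 1 = 1 - a by ring]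

theorem absrpow_left {a : ℝ} (ha : a < 1) :
    IntervalIntegrable (fun t => |t| ^ (-a)) volume (-Real.pi) 0 ∧
      ∫ t in (-Real.pi)..(0 : ℝ), |t| ^ (-a) = Real.pi ^ (1 - a) / (1 - a) := by
  obtain ⟨h1, h2⟩ := absrpow_right ha
  constructor
  · have := (IntervalIntegrable.iff_comp_neg (f := fun t : ℝ => |t| ^ (-a)) (a := 0) (b := Real.pi)).1 h1
    simp only [neg_zero, abs_neg] at this
    exact this.symm
  · have := intervalIntegral.integral_comp_neg (a := 0) (b := Real.pi) (fun t : ℝ => |t| ^ (-a))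
    simp only [neg_zero, abs_neg] at this
    rw [← this, h2]

theorem absrpow_nu1 {a : ℝ} (ha : a < 1) : Integrable (fun t : ℝ => |t| ^ (-a)) nu1 ∧
    ∫ t, |t| ^ (-a) ∂nu1 = Real.pi ^ (-a) / (1 - a) := by
  have hpi := Real.pi_pos
  obtain ⟨h1, h2⟩ := absrpow_left ha
  obtain ⟨h3, h4⟩ := absrpow_right ha
  refine ⟨nu1_integrable (h1.trans h3), ?_⟩
  rw [nu1_integral_real, ← intervalIntegral.integral_add_adjacent_intervals h1 h3, h2, h4,
    show (1 : ℝ) - a = 1 + -a by ring, Real.rpow_add hpi, Real.rpow_one]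
  field_simp
  norm_num

/-- the pointwise bound -/
theorem inv_En_le {n : ℕ} (hn : 0 < n) {k : Fin n → ℝ} (hk : ∀ i, |k i| ≤ Real.pi) (h0 : ∀ i, k i ≠ 0) :
    0 < En n k ∧ (En n k)⁻¹ ^ 10 ≤ ∏ i, ((Real.pi ^ 2 / 2) ^ ((10 : ℝ) / n) * |k i| ^ (-((20 : ℝ) / n))) := by
  have hn' : (0 : ℝ) < n := by exact_mod_cast hn
  have hpi := Real.pi_pos
  have hs : ∀ i, 2 / Real.pi ^ 2 * (k i) ^ 2 ≤ 1 - Real.cos (k i) := fun i => by
    linarith [Real.cos_le_one_sub_mul_cos_sq (hk i)]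
  have hp : ∀ i, 0 < 2 / Real.pi ^ 2 * (k i) ^ 2 := fun i => by
    have := h0 i
    positivity
  have h1 : ∏ i, (2 / Real.pi ^ 2 * (k i) ^ 2) ^ ((1 : ℝ) / n) ≤ En n k :=
    (Finset.prod_le_prod (fun i _ => (Real.rpow_pos_of_pos (hp i) _).le)
      fun i _ => Real.rpow_le_rpow (hp i).le (hs i) (by positivity)).trans (geom_le_En hn k)
  have h2 : 0 < ∏ i, (2 / Real.pi ^ 2 * (k i) ^ 2) ^ ((1 : ℝ) / n) :=
    Finset.prod_pos fun i _ => Real.rpow_pos_of_pos (hp i) _
  refine ⟨h2.trans_le h1, ?_⟩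
  calc (En n k)⁻¹ ^ 10 ≤ (∏ i, (2 / Real.pi ^ 2 * (k i) ^ 2) ^ ((1 : ℝ) / n))⁻¹ ^ 10 :=
        pow_le_pow_left₀ (inv_nonneg.2 (En_nonneg n k)) (inv_anti₀ h2 h1) 10
    _ = _ := by
        rw [← Finset.prod_inv_distrib, ← Finset.prod_pow]
        refine Finset.prod_congr rfl fun i _ => ?_
        have e1 : (2 / Real.pi ^ 2) ^ (-((10 : ℝ) / n)) = (Real.pi ^ 2 / 2) ^ ((10 : ℝ) / n) := by
          rw [Real.rpow_neg (by positivity), ← Real.inv_rpow (by positivity), inv_div]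
        have e2 : (k i ^ 2) ^ (-((10 : ℝ) / n)) = |k i| ^ (-((20 : ℝ) / n)) := by
          rw [← sq_abs, ← Real.rpow_natCast |k i| 2, ← Real.rpow_mul (abs_nonneg _)]
          congr 1
          push_cast
          ring
        rw [← Real.rpow_neg (hp i).le, ← Real.rpow_natCast, ← Real.rpow_mul (hp i).le,
          show -((1 : ℝ) / n) * ((10 : ℕ) : ℝ) = -((10 : ℝ) / n) by push_cast; ring,
          Real.mul_rpow (by positivity) (by positivity), e1, e2]

/-- almost every point of the cube has nonzero coordinates of absolute value at most `π` -/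
theorem ae_mu (n : ℕ) : ∀ᵐ k ∂(mu n), (∀ i, |k i| ≤ Real.pi) ∧ ∀ i, k i ≠ 0 := by
  have h1 : ∀ᵐ t ∂nu1, |t| ≤ Real.pi ∧ t ≠ 0 := by
    refine Filter.Eventually.and ?_ ?_
    · rw [nu1]
      refine Measure.ae_smul_measure ?_ _
      filter_upwards [ae_restrict_mem measurableSet_Icc] with t ht
      exact abs_le.2 ht
    · rw [nu1]
      refine Measure.ae_smul_measure (ae_restrict_of_ae ?_) _
      simp [ae_iff]
  have h2 : ∀ i : Fin n, ∀ᵐ k ∂(mu n), |k i| ≤ Real.pi ∧ k i ≠ 0 := fun i =>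
    (measurePreserving_eval (fun _ : Fin n => nu1) i).quasiMeasurePreserving.ae h1
  have h3 : ∀ᵐ k ∂(mu n), ∀ i : Fin n, |k i| ≤ Real.pi ∧ k i ≠ 0 := ae_all_iff.2 h2
  filter_upwards [h3] with k hk
  exact ⟨fun i => (hk i).1, fun i => (hk i).2⟩

theorem ae_En_pos {n : ℕ} (hn : 0 < n) : ∀ᵐ k ∂(mu n), 0 < En n k := by
  filter_upwards [ae_mu n] with k hk
  exact (inv_En_le hn hk.1 hk.2).1

/-- the product integral -/
theorem prod_bound {n : ℕ} (hn : 40 ≤ n) :
    Integrable (fun k : Fin n → ℝ => ∏ i, ((Real.pi ^ 2 / 2) ^ ((10 : ℝ) / n) * |k i| ^ (-((20 : ℝ) / n)))) (mu n) ∧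
      ∫ k, ∏ i, ((Real.pi ^ 2 / 2) ^ ((10 : ℝ) / n) * |k i| ^ (-((20 : ℝ) / n))) ∂(mu n) ≤ 2 ^ 30 := by
  have hpi := Real.pi_pos
  have hn40 : (40 : ℝ) ≤ n := by exact_mod_cast hn
  have hn' : (0 : ℝ) < n := by linarith
  have ha : (20 : ℝ) / n ≤ 1 / 2 := by rw [div_le_div_iff₀ hn' (by norm_num)]; linarith
  obtain ⟨h1, h2⟩ := absrpow_nu1 (a := (20 : ℝ) / n) (by linarith)
  have h3 : Integrable (fun t : ℝ => (Real.pi ^ 2 / 2) ^ ((10 : ℝ) / n) * |t| ^ (-((20 : ℝ) / n))) nu1 :=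
    h1.const_mul _
  constructor
  · exact Integrable.fintype_prod (μ := fun _ : Fin n => nu1) (fun _ => h3)
  · have h4 := integral_fintype_prod_eq_pow (ι := Fin n) (𝕜 := ℝ) (μ := nu1)
      (fun t : ℝ => (Real.pi ^ 2 / 2) ^ ((10 : ℝ) / n) * |t| ^ (-((20 : ℝ) / n)))
    rw [mu, h4, Fintype.card_fin, integral_const_mul, h2]
    have e1 : (Real.pi ^ 2 / 2) ^ ((10 : ℝ) / n) * (Real.pi ^ (-((20 : ℝ) / n)) / (1 - 20 / n)) =
        (1 / 2) ^ ((10 : ℝ) / n) / (1 - 20 / n) := by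
      rw [Real.div_rpow (by positivity) (by norm_num), ← Real.rpow_natCast Real.pi 2, ← Real.rpow_mul hpi.le,
        Real.div_rpow (by norm_num) (by norm_num), Real.one_rpow]
      have : Real.pi ^ (((2 : ℕ) : ℝ) * (10 / n)) * Real.pi ^ (-((20 : ℝ) / n)) = 1 := by
        rw [← Real.rpow_add hpi, show ((2 : ℕ) : ℝ) * (10 / n) + -((20 : ℝ) / n) = 0 by push_cast; ring,
          Real.rpow_zero]
      calc _ = Real.pi ^ (((2 : ℕ) : ℝ) * (10 / n)) * Real.pi ^ (-((20 : ℝ) / n)) *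
            (1 / 2 ^ ((10 : ℝ) / n) / (1 - 20 / n)) := by ring
        _ = _ := by rw [this, one_mul]
    rw [e1, div_pow, ← Real.rpow_natCast ((1 / 2) ^ ((10 : ℝ) / n)) n, ← Real.rpow_mul (by norm_num),
      div_mul_cancel₀ _ hn'.ne']
    have e2 : (4 : ℝ) ^ (-((20 : ℝ) / n)) ≤ 1 - 20 / n := by
      have h6 := Real.geom_mean_le_arith_mean2_weighted (w₁ := 1 - 2 * ((20 : ℝ) / n)) (w₂ := 2 * ((20 : ℝ) / n))
        (p₁ := 1) (p₂ := 1 / 2) (by linarith) (by positivity) (by norm_num) (by norm_num) (by ring)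
      rw [Real.one_rpow, one_mul] at h6
      have h7 : (4 : ℝ) ^ (-((20 : ℝ) / n)) = (1 / 2) ^ (2 * ((20 : ℝ) / n)) := by
        rw [Real.rpow_neg (by norm_num), Real.rpow_mul (by norm_num), ← Real.inv_rpow (by norm_num)]
        norm_num
      rw [h7]
      linarith
    have e3 : (4 : ℝ) ^ (-(20 : ℝ)) ≤ (1 - 20 / n) ^ n := by
      calc (4 : ℝ) ^ (-(20 : ℝ)) = ((4 : ℝ) ^ (-((20 : ℝ) / n))) ^ n := by
            rw [← Real.rpow_natCast, ← Real.rpow_mul (by norm_num), neg_mul, div_mul_cancel₀ _ hn'.ne']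
        _ ≤ _ := pow_le_pow_left₀ (by positivity) e2 n
    have e4 : (4 : ℝ) ^ (-(20 : ℝ)) = 1 / 4 ^ 20 := by
      rw [Real.rpow_neg (by norm_num), one_div]
      norm_num
    have e5 : (0 : ℝ) < (1 - 20 / n) ^ n := by
      have : (0 : ℝ) < 1 - 20 / n := by linarith
      positivity
    rw [div_le_iff₀ e5]
    rw [e4] at e3
    have e6 : ((1 : ℝ) / 2) ^ (10 : ℝ) = 1 / 2 ^ 10 := by
      rw [Real.div_rpow (by norm_num) (by norm_num), Real.one_rpow]
      norm_num
    rw [e6]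
    calc (1 : ℝ) / 2 ^ 10 = 2 ^ 30 * (1 / 4 ^ 20) := by norm_num
      _ ≤ _ := mul_le_mul_of_nonneg_left e3 (by norm_num)

/-- **the random walk bound** -/
theorem int_inv_En {n : ℕ} (hn : 40 ≤ n) : Integrable (fun k => (En n k)⁻¹ ^ 10) (mu n) ∧
    ∫ k, (En n k)⁻¹ ^ 10 ∂(mu n) ≤ 2 ^ 30 := by
  obtain ⟨h1, h2⟩ := prod_bound hn
  have h3 : ∀ᵐ k ∂(mu n), (En n k)⁻¹ ^ 10 ≤
      ∏ i, ((Real.pi ^ 2 / 2) ^ ((10 : ℝ) / n) * |k i| ^ (-((20 : ℝ) / n))) := by
    filter_upwards [ae_mu n] with k hk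
    exact (inv_En_le (by omega) hk.1 hk.2).2
  have h4 : Integrable (fun k => (En n k)⁻¹ ^ 10) (mu n) := by
    refine h1.mono' ?_ ?_
    · exact ((En_continuous n).measurable.inv.pow_const 10).aestronglyMeasurable
    · filter_upwards [h3] with k hk
      rw [Real.norm_of_nonneg (pow_nonneg (inv_nonneg.2 (En_nonneg n k)) 10)]
      exact hk
  exact ⟨h4, (integral_mono_ae h4 h1 h3).trans h2⟩

theorem cos_integrable {n : ℕ} (y : Fin n → ℤ) : Integrable (fun k => Real.cos (dot k y)) (mu n) := by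
  refine Integrable.of_bound (C := 1) ?_ (Filter.Eventually.of_forall fun k => ?_)
  · refine Continuous.aestronglyMeasurable ?_
    unfold dot
    fun_prop
  · rw [Real.norm_eq_abs]
    exact Real.abs_cos_le_one _

theorem int_cos {n : ℕ} (y : Fin n → ℤ) : ∫ k, Real.cos (dot k y) ∂(mu n) = if y = 0 then 1 else 0 := by
  have h := mu_ch y
  have h1 : ∀ k : Fin n → ℝ, Real.cos (dot k y) = RCLike.re (ch k y) := fun k => by
    rw [ch, RCLike.re_eq_complex_re, Complex.exp_ofReal_mul_I_re]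
  have h2 : Integrable (fun k => ch k y) (mu n) := by
    refine Integrable.of_bound (C := 1) (ch_continuous y).aestronglyMeasurable
      (Filter.Eventually.of_forall fun k => (norm_ch k y).le)
  simp_rw [h1]
  rw [integral_re h2, h]
  split_ifs <;> simp

/-- the second moment of `∑ cos kᵢ` -/
theorem int_cos_sq (n : ℕ) : Integrable (fun k : Fin n → ℝ => (∑ i, Real.cos (k i)) ^ 2) (mu n) ∧
    ∫ k, (∑ i, Real.cos (k i)) ^ 2 ∂(mu n) = n / 2 := by
  have h1 : ∀ (k : Fin n → ℝ) (i : Fin n), dot k (Pi.single i 1) = k i := fun k i => by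
    rw [dot, Finset.sum_eq_single i]
    · simp
    · intro j _ hj
      simp [Pi.single_eq_of_ne hj]
    · simp
  have h2 : ∀ k : Fin n → ℝ, (∑ i, Real.cos (k i)) ^ 2 = ∑ i, ∑ j,
      (Real.cos (dot k (Pi.single i 1 + Pi.single j 1)) + Real.cos (dot k (Pi.single i 1 - Pi.single j 1))) / 2 := by
    intro k
    rw [sq, Finset.sum_mul_sum]
    refine Finset.sum_congr rfl fun i _ => Finset.sum_congr rfl fun j _ => ?_
    rw [dot_add, dot_sub, h1, h1, Real.cos_add, Real.cos_sub]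
    ring
  have h3 : ∀ i j : Fin n, Integrable (fun k : Fin n → ℝ => (Real.cos (dot k (Pi.single i 1 + Pi.single j 1)) +
      Real.cos (dot k (Pi.single i 1 - Pi.single j 1))) / 2) (mu n) := fun i j =>
    ((cos_integrable _).add (cos_integrable _)).div_const 2
  simp_rw [h2]
  refine ⟨integrable_finsetSum _ fun i _ => integrable_finsetSum _ fun j _ => h3 i j, ?_⟩
  rw [integral_finsetSum _ fun i _ => integrable_finsetSum _ fun j _ => h3 i j]
  have h4 : ∀ i : Fin n, ∫ k, ∑ j, (Real.cos (dot k (Pi.single i 1 + Pi.single j 1)) +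
      Real.cos (dot k (Pi.single i 1 - Pi.single j 1))) / 2 ∂(mu n) = 1 / 2 := by
    intro i
    rw [integral_finsetSum _ fun j _ => h3 i j]
    have h5 : ∀ j : Fin n, ∫ k, (Real.cos (dot k (Pi.single i 1 + Pi.single j 1)) +
        Real.cos (dot k (Pi.single i 1 - Pi.single j 1))) / 2 ∂(mu n) = if i = j then 1 / 2 else 0 := by
      intro j
      rw [integral_div, integral_add (cos_integrable _) (cos_integrable _), int_cos, int_cos]
      have h6 : (Pi.single i 1 + Pi.single j 1 : Fin n → ℤ) ≠ 0 := by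
        intro h
        have h7 := congrFun h i
        by_cases hij : i = j
        · subst hij
          simp at h7
        · simp [Pi.single_eq_of_ne hij] at h7
      rw [if_neg h6]
      by_cases hij : i = j
      · subst hij
        simp
      · rw [if_neg hij, if_neg]
        · simp
        · intro h
          have h7 := congrFun h i
          simp [Pi.single_eq_of_ne hij] at h7
    rw [Finset.sum_congr rfl fun j _ => h5 j]
    simp
  rw [Finset.sum_congr rfl fun i _ => h4 i]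
  simp
  ring

end IPC.Fo
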