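import Pool.Agent.Lib.MP_25e40f_pr.D.MAa

/-!
# MP_25e40f_pr, stream D, job MAb: Leibniz rules, positivity

`om_cm1`, `om_cm2`: entrywise: `mo e a (cv f g) = sum_{b <= a} (a choose b) cv (mo e b f) (mo e (a-b) g)` (`mo_cv` of E/Mom.lean) for `a = 1, 2`, then sum over `l`; the transform by `FT_sum`, `FT_cv` (all entries `S1` by `Mo.mo`, `Mo.s1`) and
 `mo_zero`. It is convenient to prove first the pointwise identities
   `om e 1 (cm f g) = fun x i j => cm (om e 1 f) g x i j + cm f (om e 1 g) x i j` and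
   `om e 2 (cm f g) = fun x i j => cm (om e 2 f) g x i j + 2 * cm (om e 1 f) (om e 1 g) x i j + cm f (om e 2 g) x i j`
 and then to apply `FM_add`, `FM_cm` (the factor `2`: write `2 * h = h + h`).
`FM_om_add`: `om e a (f + g) = om e a f + om e a g` pointwise (`mul_add`), `FM_add`.
`FM_om_dm`: `mo_del` of E/Mom.lean (`a > 0`), `FT_zero`.
`FM_sq`: the entry of `sq f` is the sum over `e` of the entries of `om e 2 f`; `FT_sum`.
`Nn_cm`: `tsum_nonneg`, `Finset.sum_nonneg`. `Nn_sq`: product of nonnegative reals. `Mm_sq`: `Mo` of a finite sum of `mo e 2` (as in job MAa).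
-/

set_option autoImplicit false
set_option linter.unusedSectionVars false

noncomputable section

open Finset
open scoped Classical Matrix.Norms.L2Operator

namespace IPC.BS

open IPC.Fo

variable {n : ℕ} {ι : Type} [Fintype ι] [DecidableEq ι]

private theorem MAb_pw1 (e : Fin n) {f g : MS n ι} (hf : Mm 1 f) (hg : Mm 1 g) :
    om e 1 (cm f g) = fun x i j => cm (om e 1 f) g x i j + cm f (om e 1 g) x i j := by
  funext x i j
  change (x e : ℝ) ^ 1 * ∑ l, cv (fun y => f y i l) (fun y => g y l j) x =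
    ∑ l, cv (mo e 1 (fun y => f y i l)) (fun y => g y l j) x +
      ∑ l, cv (fun y => f y i l) (mo e 1 (fun y => g y l j)) x
  rw [Finset.mul_sum, ← Finset.sum_add_distrib]
  refine Finset.sum_congr rfl fun l _ => ?_
  have h := congrFun (mo_cv e 1 (hf i l) (hg l j)) x
  rw [Finset.sum_range_succ, Finset.sum_range_one] at h
  simp only [Nat.choose_zero_right, Nat.choose_self, Nat.cast_one, one_mul, Nat.sub_zero, Nat.sub_self,
    mo_zero] at h
  rw [add_comm]
  exact h

private theorem MAb_pw2 (e : Fin n) {f g : MS n ι} (hf : Mm 2 f) (hg : Mm 2 g) :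
    om e 2 (cm f g) = fun x i j => (cm (om e 2 f) g x i j +
      (cm (om e 1 f) (om e 1 g) x i j + cm (om e 1 f) (om e 1 g) x i j)) + cm f (om e 2 g) x i j := by
  funext x i j
  change (x e : ℝ) ^ 2 * ∑ l, cv (fun y => f y i l) (fun y => g y l j) x =
    (∑ l, cv (mo e 2 (fun y => f y i l)) (fun y => g y l j) x +
      (∑ l, cv (mo e 1 (fun y => f y i l)) (mo e 1 (fun y => g y l j)) x +
      ∑ l, cv (mo e 1 (fun y => f y i l)) (mo e 1 (fun y => g y l j)) x)) +
      ∑ l, cv (fun y => f y i l) (mo e 2 (fun y => g y l j)) x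
  rw [Finset.mul_sum, ← Finset.sum_add_distrib, ← Finset.sum_add_distrib, ← Finset.sum_add_distrib]
  refine Finset.sum_congr rfl fun l _ => ?_
  have h := congrFun (mo_cv e 2 (hf i l) (hg l j)) x
  rw [Finset.sum_range_succ, Finset.sum_range_succ, Finset.sum_range_one] at h
  have hc : ((Nat.choose 2 1 : ℕ) : ℝ) = 2 := by norm_num
  have h21 : 2 - 1 = 1 := rfl
  simp only [Nat.choose_zero_right, Nat.choose_self, Nat.cast_one, one_mul, Nat.sub_zero, Nat.sub_self,
    mo_zero, hc, h21] at h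
  have h' : (x e : ℝ) ^ 2 * cv (fun y => f y i l) (fun y => g y l j) x =
      cv (fun y => f y i l) (mo e 2 (fun y => g y l j)) x +
      2 * cv (mo e 1 (fun y => f y i l)) (mo e 1 (fun y => g y l j)) x +
      cv (mo e 2 (fun y => f y i l)) (fun y => g y l j) x := h
  rw [h']
  ring

theorem om_cm1 (e : Fin n) {f g : MS n ι} (hf : Mm 1 f) (hg : Mm 1 g) (k : Fin n → ℝ) :
    FM (om e 1 (cm f g)) k = FM (om e 1 f) k * FM g k + FM f k * FM (om e 1 g) k := by
  have hf0 : Mm 0 f := hf.mono (by omega)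
  have hg0 : Mm 0 g := hg.mono (by omega)
  have hf1 : Mm 0 (om e 1 f) := Mm_om (m := 0) (a := 1) hf e
  have hg1 : Mm 0 (om e 1 g) := Mm_om (m := 0) (a := 1) hg e
  rw [MAb_pw1 e hf hg, FM_add (Mm_cm hf1 hg0) (Mm_cm hf0 hg1), FM_cm hf1 hg0, FM_cm hf0 hg1]

theorem om_cm2 (e : Fin n) {f g : MS n ι} (hf : Mm 2 f) (hg : Mm 2 g) (k : Fin n → ℝ) :
    FM (om e 2 (cm f g)) k = FM (om e 2 f) k * FM g k + (2 : ℂ) • (FM (om e 1 f) k * FM (om e 1 g) k) +
      FM f k * FM (om e 2 g) k := by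
  have hf0 : Mm 0 f := hf.mono (by omega)
  have hg0 : Mm 0 g := hg.mono (by omega)
  have hf1 : Mm 0 (om e 1 f) := Mm_om (m := 0) (a := 1) (hf.mono (by omega)) e
  have hg1 : Mm 0 (om e 1 g) := Mm_om (m := 0) (a := 1) (hg.mono (by omega)) e
  have hf2 : Mm 0 (om e 2 f) := Mm_om (m := 0) (a := 2) hf e
  have hg2 : Mm 0 (om e 2 g) := Mm_om (m := 0) (a := 2) hg e
  have ha := Mm_cm hf1 hg1
  rw [MAb_pw2 e hf hg, FM_add (Mm_add (Mm_cm hf2 hg0) (Mm_add ha ha)) (Mm_cm hf0 hg2),
    FM_add (Mm_cm hf2 hg0) (Mm_add ha ha), FM_add ha ha, FM_cm hf2 hg0, FM_cm hf1 hg1, FM_cm hf0 hg2, two_smul]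

theorem FM_om_add (e : Fin n) (a : ℕ) {f g : MS n ι} (hf : Mm a f) (hg : Mm a g) (k : Fin n → ℝ) :
    FM (om e a (fun x i j => f x i j + g x i j)) k = FM (om e a f) k + FM (om e a g) k := by
  have hf1 : Mm 0 (om e a f) := Mm_om (m := 0) (a := a) (by rwa [Nat.zero_add]) e
  have hg1 : Mm 0 (om e a g) := Mm_om (m := 0) (a := a) (by rwa [Nat.zero_add]) e
  rw [← FM_add hf1 hg1]
  have h : om e a (fun x i j => f x i j + g x i j) = fun x i j => om e a f x i j + om e a g x i j := by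
    funext x i j
    exact mul_add _ _ _
  rw [h]

theorem FM_om_dm (e : Fin n) {a : ℕ} (ha : 0 < a) (k : Fin n → ℝ) : FM (om e a (dm n ι)) k = 0 := by
  ext i j
  change FT (fun x => om e a (dm n ι) x i j) k = 0
  have h : (fun x => om e a (dm n ι) x i j) = fun _ => 0 := by
    by_cases hij : i = j
    · have h1 : (fun x => om e a (dm n ι) x i j) = mo e a (del n) := by
        funext x
        change (x e : ℝ) ^ a * (if i = j then del n x else 0) = (x e : ℝ) ^ a * del n x
        rw [if_pos hij]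
      rw [h1, mo_del e ha]
    · funext x
      change (x e : ℝ) ^ a * (if i = j then del n x else 0) = 0
      rw [if_neg hij, mul_zero]
  rw [h, FT_zero]

private theorem MAb_Mo_sum {m : ℕ} {κ : Type} (s : Finset κ) (f : κ → (Fin n → ℤ) → ℝ)
    (hf : ∀ e ∈ s, Mo m (f e)) : Mo m (fun x => ∑ e ∈ s, f e x) := by
  classical
  induction s using Finset.induction_on with
  | empty =>
    unfold Mo
    simp only [Finset.sum_empty, abs_zero, mul_zero]
    exact summable_zero
  | insert b s hb ih =>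
    simp only [Finset.sum_insert hb]
    exact (hf b (Finset.mem_insert_self _ _)).add (ih fun i hi => hf i (Finset.mem_insert_of_mem hi))

private theorem MAb_sq_entry (f : MS n ι) (i j : ι) :
    (fun x => sq f x i j) = fun x => ∑ e, mo e 2 (fun y => f y i j) x := by
  funext x
  change (∑ e, (x e : ℝ) ^ 2) * f x i j = ∑ e, (x e : ℝ) ^ 2 * f x i j
  rw [Finset.sum_mul]

theorem Mm_sq {m : ℕ} {f : MS n ι} (hf : Mm (m + 2) f) : Mm m (sq f) := by
  intro i j
  rw [MAb_sq_entry]
  exact MAb_Mo_sum _ _ fun e _ => Mo.mo (hf i j) e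

theorem FM_sq {f : MS n ι} (hf : Mm 2 f) (k : Fin n → ℝ) : FM (sq f) k = ∑ e, FM (om e 2 f) k := by
  ext i j
  rw [Matrix.sum_apply]
  change FT (fun x => sq f x i j) k = ∑ e, FT (mo e 2 (fun x => f x i j)) k
  rw [MAb_sq_entry, FT_sum]
  intro e _
  exact (Mo.mo (m := 0) (a := 2) (hf i j) e).s1

theorem Nn_cm {f g : MS n ι} (hf : Nn f) (hg : Nn g) : Nn (cm f g) := by
  intro x i j
  unfold cm cv
  exact Finset.sum_nonneg fun l _ => tsum_nonneg fun y => mul_nonneg (hf y i l) (hg (x - y) l j)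

theorem Nn_sq {f : MS n ι} (hf : Nn f) : Nn (sq f) := fun x i j =>
  mul_nonneg (Finset.sum_nonneg fun _ _ => sq_nonneg _) (hf x i j)

end IPC.BS
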