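import Pool.Agent.Lib.MP_25e40f_pr.D.SYb
import Pool.Agent.Lib.MP_25e40f_pr.D.MAb

/-!
# MP_25e40f_pr, stream D, job KRa: kernels and sequences

`kr f x y = ofReal (f (y.1 - x.1) x.2 y.2)`, `w2 x y = ofReal |x - y|²`, `tK`, `pK` (Defs2.lean), `mm` (C/Kalg.lean).
`tK_kr`: `tau_ts`. `pK_kr`: `ps_nb` (`ofReal` of an `if`).
`mm_kr`: `mm (kr f) (kr g) x y = ∑' z, ofReal (f (z.1 - x.1) x.2 z.2) * ofReal (g (y.1 - z.1) z.2 y.2)`; sum over the product `(Fin n → ℤ) × ι`: `ENNReal.tsum_prod'`, `tsum_fintype`, translate the first variable by `x.1` (`Equiv.addRight`), `ENNReal.ofReal_mul`; every inner sum `∑' z, ofReal (f z i l * g (u - z) l j) = ofReal (cv ..)` by `ENNReal.ofReal_tsum_of_nonneg` (summable: `cv_summable_inner`, `Mo.s1`)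
 and the sum over `l` by `ENNReal.ofReal_sum_of_nonneg`.
`wt_kr`: `w2 x y * ofReal (f ..) = ofReal (.. * ..)` (`ENNReal.ofReal_mul`), squares: `x - y` and `y - x`.
`kr_le`, `le_of_kr`: trivial (`ENNReal.ofReal_le_ofReal`; for `le_of_kr` take `x = (0, i)`, `y = (x, j)` and `ENNReal.ofReal_le_ofReal_iff`).
-/

set_option autoImplicit false
set_option linter.unusedSectionVars false

noncomputable section

open Finset
open scoped Classical Matrix.Norms.L2Operator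

namespace IPC.BS

open IPC.Fo

variable {n : ℕ} {ι : Type} [Fintype ι] [DecidableEq ι] {H : SimpleGraph ι} {p : ℝ}

theorem tK_kr (hp0 : 0 ≤ p) (hp1 : p ≤ 1) : (Wg n ι H).tK p = kr (ts n ι H p) := by
  funext x y
  show ENNReal.ofReal ((Wg n ι H).tau p x y) = ENNReal.ofReal (ts n ι H p (y.1 - x.1) x.2 y.2)
  rw [tau_ts hp0 hp1]

theorem pK_kr : (Wg n ι H).pK p = kr (ps n ι H p) := by
  funext x y
  show (if y ∈ (Wg n ι H).nb x then ENNReal.ofReal p else 0) = ENNReal.ofReal (ps n ι H p (y.1 - x.1) x.2 y.2)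
  rw [← ps_nb]
  by_cases h : y ∈ (Wg n ι H).nb x
  · rw [if_pos h, if_pos h]
  · rw [if_neg h, if_neg h, ENNReal.ofReal_zero]

private theorem KRa_in {f g : MS n ι} (hf : Mm 0 f) (hg : Mm 0 g) (nf : Nn f) (ng : Nn g)
    (x y : (Fin n → ℤ) × ι) (l : ι) :
    (∑' w : Fin n → ℤ, kr f x (w, l) * kr g (w, l) y) =
      ENNReal.ofReal (cv (fun z => f z x.2 l) (fun z => g z l y.2) (y.1 - x.1)) := by
  have h1 : ∀ w : Fin n → ℤ, kr f x (w + x.1, l) * kr g (w + x.1, l) y =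
      ENNReal.ofReal (f w x.2 l * g (y.1 - x.1 - w) l y.2) := by
    intro w
    unfold kr
    have e1 : w + x.1 - x.1 = w := add_sub_cancel_right w x.1
    have e2 : y.1 - (w + x.1) = y.1 - x.1 - w := by rw [add_comm w, sub_sub]
    rw [ENNReal.ofReal_mul (nf w x.2 l)]
    show ENNReal.ofReal (f (w + x.1 - x.1) x.2 l) * ENNReal.ofReal (g (y.1 - (w + x.1)) l y.2) = _
    rw [e1, e2]
  have h2 : (∑' w : Fin n → ℤ, kr f x (w, l) * kr g (w, l) y) =
      ∑' w : Fin n → ℤ, kr f x (w + x.1, l) * kr g (w + x.1, l) y :=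
    ((Equiv.addRight x.1).tsum_eq fun w : Fin n → ℤ => kr f x (w, l) * kr g (w, l) y).symm
  rw [h2, tsum_congr h1]
  unfold cv
  refine (ENNReal.ofReal_tsum_of_nonneg (fun w => mul_nonneg (nf w x.2 l) (ng _ l y.2)) ?_).symm
  exact Summable.of_abs (cv_summable_inner (hf x.2 l).s1 (hg l y.2).s1 (y.1 - x.1))

theorem mm_kr {f g : MS n ι} (hf : Mm 0 f) (hg : Mm 0 g) (nf : Nn f) (ng : Nn g) :
    mm (kr f) (kr g) = kr (cm f g) := by
  funext x y
  have h1 : mm (kr f) (kr g) x y = ∑ l, ∑' w : Fin n → ℤ, kr f x (w, l) * kr g (w, l) y := by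
    unfold mm
    rw [ENNReal.tsum_prod', ENNReal.tsum_comm, tsum_fintype]
  rw [h1, Finset.sum_congr rfl fun l _ => KRa_in hf hg nf ng x y l]
  show _ = ENNReal.ofReal (∑ l, cv (fun z => f z x.2 l) (fun z => g z l y.2) (y.1 - x.1))
  refine (ENNReal.ofReal_sum_of_nonneg fun l _ => ?_).symm
  exact tsum_nonneg fun w => mul_nonneg (nf w x.2 l) (ng _ l y.2)

theorem wt_kr {f : MS n ι} : wt w2 (kr f) = kr (sq f) := by
  funext x y
  unfold wt w2 kr sq
  rw [← ENNReal.ofReal_mul (Finset.sum_nonneg fun i _ => sq_nonneg _)]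
  have e : ∀ i, (((x.1 i - y.1 i : ℤ) : ℝ)) ^ 2 = (((y.1 - x.1) i : ℤ) : ℝ) ^ 2 := by
    intro i
    rw [Pi.sub_apply]
    push_cast
    ring
  rw [Finset.sum_congr rfl fun i _ => e i]

theorem kr_le {f : MS n ι} {D : ℝ} (h : ∀ x i j, f x i j ≤ D) (x y : (Fin n → ℤ) × ι) :
    kr f x y ≤ ENNReal.ofReal D :=
  ENNReal.ofReal_le_ofReal (h _ _ _)

end IPC.BS
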