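import Pool.Agent.Lib.MP_25e40f_pr.D.SBc
import Pool.Agent.Lib.MP_25e40f_pr.D.KRa

/-!
# MP_25e40f_pr, stream D, job FIa: the improvement step

`sup_le_of`: for `f` with `Mm 0 f` and `‖FM f k‖ ≤ 10⁹ Bn p k` for all `k` with `Cb k`, `0 < En k`: `|f x i j| ≤ ∫ ‖FT (f . i j) k‖ ∂(mu n)` (`abs_le_FT`) `≤ ∫ 10⁹ Bn p k` (`integral_mono_ae`: `FT_integrable.norm`, `Bn_integrable`; almost every `k` is in the cube and nonzero: `ae_cube`, `ae_ne_zero` of E/ItgA.lean, `En_pos`; `‖FT (f . i j) k‖ = ‖FM f k i j‖ ≤ ‖FM f k‖`: `entry_le`)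
 `≤ 10⁹ (3 + I10)/√n` (`Bn_avg`, `p ≤ 1/n` by `p_le`).
`chain_kr`: `tK_kr`, `pK_kr`, `mm_kr`, `wt_kr`: the three chains of `Sml` are `kr f0`, `kr f1`, `kr f2` (`ch4 a b c d = mm a (mm b (mm c d))` by definition; moments and positivity: `Mm_cm`, `Nn_cm`, `Mm_sq`, `Nn_sq`).
`improve`: `n₀ = 40`, `C₀ = 200 * 10⁹ * (3 + I10)`. Let `B = 10⁹ (3 + I10)/√n`. `Sml` with `ofReal B` by `sup_le_of`, `kr_le`, and `B ≤ C₀/√n`. For the bound of `p`: `q := min dl0 B` satisfies `Qs n ι H p q` (`ENNReal.ofReal` of a min, cases), `0 ≤ q ≤ 1/2000`, so `p_bound`: `2 n p ≤ 1/(1 - 97 q) ≤ 1 + 200 q ≤ 1 + C₀/√n`.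
-/

set_option autoImplicit false
set_option linter.unusedSectionVars false

noncomputable section

open Finset
open scoped Classical Matrix.Norms.L2Operator

namespace IPC.BS

open IPC.Fo

variable {n : ℕ} {ι : Type} [Fintype ι] [DecidableEq ι] {H : SimpleGraph ι} {p : ℝ}

theorem sup_le_of [Nonempty ι] (S : Std n ι H p) (hS : Sml n ι H p (ENNReal.ofReal dl0)) {f : MS n ι} (hf : Mm 0 f)
    (h : ∀ k : Fin n → ℝ, Cb k → 0 < En k → ‖FM f k‖ ≤ 10 ^ 9 * Bn p k) (x : Fin n → ℤ) (i j : ι) :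
    f x i j ≤ 10 ^ 9 * ((3 + I10) / Real.sqrt n) := by
  have hn1 : 1 ≤ n := le_trans (by norm_num) S.hn
  have hS1 : S1 (fun x => f x i j) := Mo.s1 (hf i j)
  have h1 := abs_le_FT hS1 x
  have h2 : ∫ k, ‖FT (fun x => f x i j) k‖ ∂(mu n) ≤ ∫ k, 10 ^ 9 * Bn p k ∂(mu n) := by
    refine MeasureTheory.integral_mono_ae (FT_integrable hS1).norm
      ((Bn_integrable S.hn p).const_mul _) ?_
    filter_upwards [ae_cube (d := n), ae_ne_zero (d := n) hn1] with k hk hk0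
    have hE : 0 < En k := En_pos hn1 hk hk0
    have h3 : ‖FT (fun x => f x i j) k‖ ≤ ‖FM f k‖ := entry_le (FM f k) i j
    exact h3.trans (h k hk hE)
  rw [MeasureTheory.integral_const_mul] at h2
  have h3 := Bn_avg S.hn S.hp0 (p_le S hS).1
  calc f x i j ≤ |f x i j| := le_abs_self _
    _ ≤ 10 ^ 9 * ∫ k, Bn p k ∂(mu n) := h1.trans h2
    _ ≤ 10 ^ 9 * ((3 + I10) / Real.sqrt n) := mul_le_mul_of_nonneg_left h3 (by norm_num)

theorem chain_kr (S : Std n ι H p) :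
    ch4 (mm ((Wg n ι H).pK p) ((Wg n ι H).tK p)) ((Wg n ι H).tK p) ((Wg n ι H).tK p) ((Wg n ι H).tK p) =
        kr (f0 n ι H p) ∧
      ch4 (wt w2 (mm ((Wg n ι H).pK p) ((Wg n ι H).tK p))) ((Wg n ι H).tK p) ((Wg n ι H).tK p)
        ((Wg n ι H).tK p) = kr (f1 n ι H p) ∧
      ch4 ((Wg n ι H).tK p) (wt w2 (mm ((Wg n ι H).pK p) ((Wg n ι H).tK p))) ((Wg n ι H).tK p)
        ((Wg n ι H).tK p) = kr (f2 n ι H p) := by
  have hp1 : p ≤ 1 := S.hp2.trans (by norm_num)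
  have hn1 : 1 ≤ n := le_trans (by norm_num) S.hn
  have mt : ∀ m, Mm m (ts n ι H p) := Mm_ts hn1 S.hp0 S.hp S.hp2
  have mp : ∀ m, Mm m (ps n ι H p) := Mm_ps
  have nt : Nn (ts n ι H p) := Nn_ts S.hp0 hp1
  have np : Nn (ps n ι H p) := Nn_ps S.hp0
  have mpt : ∀ m, Mm m (cm (ps n ι H p) (ts n ι H p)) := fun m => Mm_cm (mp m) (mt m)
  have npt : Nn (cm (ps n ι H p) (ts n ι H p)) := Nn_cm np nt
  have mtt : Mm 0 (cm (ts n ι H p) (ts n ι H p)) := Mm_cm (mt 0) (mt 0)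
  have ntt : Nn (cm (ts n ι H p) (ts n ι H p)) := Nn_cm nt nt
  have msq : Mm 0 (sq (cm (ps n ι H p) (ts n ι H p))) := Mm_sq (mpt 2)
  have nsq : Nn (sq (cm (ps n ι H p) (ts n ι H p))) := Nn_sq npt
  have e1 : mm ((Wg n ι H).pK p) ((Wg n ι H).tK p) = kr (cm (ps n ι H p) (ts n ι H p)) := by
    rw [pK_kr, tK_kr S.hp0 hp1, mm_kr (mp 0) (mt 0) np nt]
  rw [e1, wt_kr, tK_kr S.hp0 hp1]
  unfold ch4 f0 f1 f2
  rw [mm_kr (mt 0) (mt 0) nt nt, mm_kr (mt 0) mtt nt ntt,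
    mm_kr (mpt 0) (Mm_cm (mt 0) mtt) npt (Nn_cm nt ntt),
    mm_kr msq (Mm_cm (mt 0) mtt) nsq (Nn_cm nt ntt), mm_kr msq mtt nsq ntt,
    mm_kr (mt 0) (Mm_cm msq mtt) nt (Nn_cm nsq ntt)]
  exact ⟨rfl, rfl, rfl⟩

theorem improve : ∃ (n₀ : ℕ) (C₀ : ℝ), Improve n₀ C₀ := by
  have hI : 0 < I10 := by
    unfold I10
    positivity
  refine ⟨40, 200 * 10 ^ 9 * (3 + I10), by positivity, ?_⟩
  intro n hn ι _ _ _ H hdeg p hp0 hp hp2 hS
  have S : Std n ι H p := ⟨hn, hdeg, hp0, hp, hp2⟩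
  have hn1 : 1 ≤ n := le_trans (by norm_num) hn
  have hp1 : p ≤ 1 := hp2.trans (by norm_num)
  have hsq : 0 < Real.sqrt n := Real.sqrt_pos.2 (by exact_mod_cast hn1)
  have mt : ∀ m, Mm m (ts n ι H p) := Mm_ts hn1 hp0 hp hp2
  have mp : ∀ m, Mm m (ps n ι H p) := Mm_ps
  have mpt : ∀ m, Mm m (cm (ps n ι H p) (ts n ι H p)) := fun m => Mm_cm (mp m) (mt m)
  have mtt : Mm 0 (cm (ts n ι H p) (ts n ι H p)) := Mm_cm (mt 0) (mt 0)
  have msq : Mm 0 (sq (cm (ps n ι H p) (ts n ι H p))) := Mm_sq (mpt 2)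
  have m0 : Mm 0 (f0 n ι H p) := Mm_cm (mpt 0) (Mm_cm (mt 0) mtt)
  have m1 : Mm 0 (f1 n ι H p) := Mm_cm msq (Mm_cm (mt 0) mtt)
  have m2 : Mm 0 (f2 n ι H p) := Mm_cm (mt 0) (Mm_cm msq mtt)
  obtain ⟨e0, e1, e2⟩ := chain_kr S
  have s0 := sup_le_of S hS m0 fun k hk hE => f0_le S hS hk hE
  have s1 := sup_le_of S hS m1 fun k hk hE => f1_le S hS hk hE
  have s2 := sup_le_of S hS m2 fun k hk hE => f2_le S hS hk hE
  obtain ⟨B, hB⟩ : ∃ B : ℝ, B = 10 ^ 9 * ((3 + I10) / Real.sqrt n) := ⟨_, rfl⟩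
  rw [← hB] at s0 s1 s2
  have hB0 : 0 ≤ B := by
    rw [hB]
    positivity
  have hC : 200 * 10 ^ 9 * (3 + I10) / Real.sqrt n = 200 * B := by
    rw [hB]
    ring
  rw [hC]
  have hBC : ENNReal.ofReal B ≤ ENNReal.ofReal (200 * B) := ENNReal.ofReal_le_ofReal (by linarith)
  refine ⟨?_, ⟨fun x y => ?_, fun x y => ?_, fun x y => ?_⟩⟩
  · have hd : (0 : ℝ) < dl0 := by
      unfold dl0
      norm_num
    have hd2 : dl0 ≤ 1 / 10 ^ 9 := le_of_eq rfl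
    have hq0 : 0 ≤ min dl0 B := le_min hd.le hB0
    have hq1 : min dl0 B ≤ 1 / 10 ^ 9 := (min_le_left _ _).trans hd2
    have hQ : Qs n ι H p (min dl0 B) := by
      intro x y
      rcases min_choice dl0 B with h | h
      · rw [h]
        exact hS.q x y
      · rw [h, e0]
        exact kr_le s0 x y
    have h1 := p_bound S hq0 (hq1.trans (by norm_num)) hQ
    have hqB : min dl0 B ≤ B := min_le_right _ _
    generalize min dl0 B = q at hq0 hq1 h1 hqB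
    have hpos : 0 < 1 - 97 * q := by linarith
    have h2 : 1 / (1 - 97 * q) ≤ 1 + 200 * q := by
      rw [div_le_iff₀ hpos]
      nlinarith
    linarith
  · rw [e0]
    exact (kr_le s0 x y).trans hBC
  · rw [e1]
    exact (kr_le s1 x y).trans hBC
  · rw [e2]
    exact (kr_le s2 x y).trans hBC

end IPC.BS
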