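import Pool.Agent.Lib.MP_25e40f_pr.D.Zza
import Pool.Agent.Lib.MP_25e40f_pr.C.EFin
import Pool.Agent.Lib.MP_25e40f_pr.C.Kbd

/-!
# MP_25e40f_pr, stream D, job GBa: sums of the coefficients `g`

`K := ker_graph G h0 hp hQ : Ker (G.tK p) (G.pK p) q` (C/EFin.lean). Let `Z n u = ZZ G p n {x} univ u`.
`zz_row`: `∑' n, ∑' u, Z (n+1) u ≤ 96 q`: `ZZ_point_le G h0 hp (fun _ => 1) n x` and `K.KS_one hq' n x x : 2^n * KS .. (fun _ => 1) n x x ≤ 48 q`, so `KS .. ≤ 48 q * (1/2)^n` (`ENNReal`: multiply by `(2^n)⁻¹`), and `∑' n, (1/2)^n = 2` (`ENNReal.tsum_geometric_two` or `ENNReal.tsum_geometric`).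
`zz_zero`: `∑' u, (if u = x then 0 else Z 0 u) ≤ q`: `ZZ_point_zero_le`, `K.zero_one x`.
`zz_fin`: `∑' n, ∑' u, Z n u ≤ (∑' u, Z 0 u) + ..` (`tsum_eq_zero_add'` or `ENNReal.tsum_eq_zero_add`), `Z 0 x = 1` (`ZZ_self`), so the sum is at most `1 + q + 96 q < ⊤` (`q ≤ 1/2000`).
`gg_row`: pointwise `ofReal |gg x u - (if u = x then 1 else 0)| ≤ (if u = x then 0 else Z 0 u) + ∑' n, Z (n+1) u`: all `Z n u` are finite (`zz_fin`, `ENNReal.ne_top_of_tsum_ne_top`), `gg x u = ∑' n, (-1)^n (Z n u).toReal` (definition `gF`), split off `n = 0` (`Summable.tsum_eq_zero_add`), at `u = x` the term `n = 0` is `1` (`ZZ_self`);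
 `|∑' ..| ≤ ∑' (Z (n+1) u).toReal`, `ENNReal.ofReal_tsum_of_nonneg`, `ENNReal.ofReal_toReal` (see `Tau_point` in B/Tau.lean for the same computation). Then `ENNReal.tsum_le_tsum`, `ENNReal.tsum_add`, `ENNReal.tsum_comm`: `≤ q + 96 q = 97 q`.
`gg_wt`: `gF_weight G p {x} (w x)` (B/Tau.lean): `≤ ∑' n, ∑' u, w x u * Z n u`; order zero: `ZZ_point_zero_le`, `zero_f K w0 d0 x x : ∑' u, w x u * (ta x u * ta x u) ≤ D` (C/Kbd.lean); the others: `ZZ_point_le G h0 hp (w x) n x`, `K.KS_D2 .. : 2^n * KS .. ≤ (2*2*(16+4*2)*(2+2)+2) * (CP*D) = 386 (CP D)`, geometric sum: `≤ 772 CP D`;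
 total `D + 772 CP D ≤ 773 CP D` as `1 ≤ CP`.
-/

set_option autoImplicit false
set_option linter.unusedSectionVars false

noncomputable section

open Finset
open scoped Classical Matrix.Norms.L2Operator

namespace IPC.BS



variable {V : Type} [DecidableEq V]

private theorem GBa_geom {s : ℕ → ENNReal} {B : ENNReal} (h : ∀ n, 2 ^ n * s n ≤ B) :
    ∑' n, s n ≤ 2 * B := by
  have h1 : ∀ n, s n ≤ B * (2⁻¹ : ENNReal) ^ n := by
    intro n
    have h2 : (2⁻¹ : ENNReal) ^ n * (2 ^ n * s n) = s n := by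
      rw [← mul_assoc, ← mul_pow, ENNReal.inv_mul_cancel (by norm_num) (by norm_num), one_pow,
        one_mul]
    rw [← h2, mul_comm B]
    exact mul_le_mul' le_rfl (h n)
  calc ∑' n, s n ≤ ∑' n, B * (2⁻¹ : ENNReal) ^ n := ENNReal.tsum_le_tsum h1
    _ = B * 2 := by
        rw [ENNReal.tsum_mul_left, ENNReal.tsum_geometric, ENNReal.one_sub_inv_two, inv_inv]
    _ = 2 * B := mul_comm _ _

private theorem GBa_thousand {q : ENNReal} (hq : 2000 * q ≤ 1) {c : ENNReal} (hc : c ≤ 2000) :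
    c * q ≤ 1 := (mul_le_mul' hc le_rfl).trans hq

/-- one coefficient of `g - 1` -/
private theorem GBa_point (G : PG V) {p : ℝ} {x : V} (u : V) (h1 : ZZ G p 0 {x} Set.univ x = 1)
    (h : ∑' n, ZZ G p n {x} Set.univ u ≠ ⊤) :
    ENNReal.ofReal |gg G p x u - (if u = x then 1 else 0)| ≤
      (if u = x then 0 else ZZ G p 0 {x} Set.univ u) + ∑' n : ℕ, ZZ G p (n + 1) {x} Set.univ u := by
  have hs : Summable fun n => (ZZ G p n {x} Set.univ u).toReal := ENNReal.summable_toReal h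
  have hn : ∀ n, ‖(-1 : ℝ) ^ n * (ZZ G p n {x} Set.univ u).toReal‖ =
      (ZZ G p n {x} Set.univ u).toReal := by
    intro n
    rw [norm_mul, norm_pow, norm_neg, norm_one, one_pow, one_mul,
      Real.norm_of_nonneg ENNReal.toReal_nonneg]
  have hs1 : Summable fun n => (-1 : ℝ) ^ n * (ZZ G p n {x} Set.univ u).toReal := by
    refine Summable.of_norm ?_
    simp_rw [hn]
    exact hs
  have hs2 : Summable fun n : ℕ => (ZZ G p (n + 1) {x} Set.univ u).toReal :=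
    (summable_nat_add_iff 1).2 hs
  have hnt : ∀ n, ZZ G p n {x} Set.univ u ≠ ⊤ := fun n => ENNReal.ne_top_of_tsum_ne_top h n
  have hg : gg G p x u = (ZZ G p 0 {x} Set.univ u).toReal +
      ∑' n : ℕ, (-1 : ℝ) ^ (n + 1) * (ZZ G p (n + 1) {x} Set.univ u).toReal := by
    unfold gg gF
    rw [hs1.tsum_eq_zero_add, pow_zero, one_mul]
  have hT : |∑' n : ℕ, (-1 : ℝ) ^ (n + 1) * (ZZ G p (n + 1) {x} Set.univ u).toReal| ≤
      ∑' n : ℕ, (ZZ G p (n + 1) {x} Set.univ u).toReal := by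
    rw [← Real.norm_eq_abs]
    refine (norm_tsum_le_tsum_norm ?_).trans (le_of_eq ?_)
    · simp_rw [hn]
      exact hs2
    · simp_rw [hn]
  have hE : ENNReal.ofReal (∑' n : ℕ, (ZZ G p (n + 1) {x} Set.univ u).toReal) =
      ∑' n : ℕ, ZZ G p (n + 1) {x} Set.univ u := by
    rw [ENNReal.ofReal_tsum_of_nonneg (fun n => ENNReal.toReal_nonneg) hs2]
    exact tsum_congr fun n => ENNReal.ofReal_toReal (hnt _)
  rw [hg]
  by_cases hu : u = x
  · subst hu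
    rw [if_pos rfl, if_pos rfl, h1, ENNReal.toReal_one, add_sub_cancel_left, zero_add, ← hE]
    exact ENNReal.ofReal_le_ofReal hT
  · rw [if_neg hu, if_neg hu, sub_zero, ← hE, ← ENNReal.ofReal_toReal (hnt 0),
      ← ENNReal.ofReal_add ENNReal.toReal_nonneg (tsum_nonneg fun n => ENNReal.toReal_nonneg),
      ENNReal.toReal_ofReal ENNReal.toReal_nonneg]
    refine ENNReal.ofReal_le_ofReal ((abs_add_le _ _).trans ?_)
    rw [abs_of_nonneg ENNReal.toReal_nonneg]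
    exact add_le_add le_rfl hT

theorem zz_row (G : PG V) {p : ℝ} (h0 : 0 ≤ p) (hp : p ≤ 1 / 2) {q : ENNReal} (hq : 2000 * q ≤ 1)
    (hQ : ∀ x y, ch4 (mm (G.pK p) (G.tK p)) (G.tK p) (G.tK p) (G.tK p) x y ≤ q) (x : V) :
    ∑' n : ℕ, ∑' u, ZZ G p (n + 1) {x} Set.univ u ≤ 96 * q := by
  have K := ker_graph G h0 hp hQ
  have hq' : 1000 * q ≤ 1 := GBa_thousand hq (by norm_num)
  have h1 : ∑' n : ℕ, KS (G.tK p) (G.pK p) (fun _ => 1) n x x ≤ 2 * (48 * q) :=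
    GBa_geom fun n => K.KS_one hq' n x x
  calc ∑' n : ℕ, ∑' u, ZZ G p (n + 1) {x} Set.univ u
      ≤ ∑' n : ℕ, KS (G.tK p) (G.pK p) (fun _ => 1) n x x := by
        refine ENNReal.tsum_le_tsum fun n => ?_
        refine le_trans (le_of_eq ?_) (ZZ_point_le G h0 hp (fun _ => 1) n x)
        exact tsum_congr fun u => (one_mul _).symm
    _ ≤ 2 * (48 * q) := h1
    _ = 96 * q := by ring

theorem zz_zero (G : PG V) {p : ℝ} (h0 : 0 ≤ p) (hp : p ≤ 1 / 2) {q : ENNReal} (hq : 2000 * q ≤ 1)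
    (hQ : ∀ x y, ch4 (mm (G.pK p) (G.tK p)) (G.tK p) (G.tK p) (G.tK p) x y ≤ q) (x : V) :
    ∑' u, (if u = x then 0 else ZZ G p 0 {x} Set.univ u) ≤ q := by
  have K := ker_graph G h0 hp hQ
  refine le_trans (ENNReal.tsum_le_tsum fun u => ?_) (K.zero_one x)
  by_cases hu : u = x
  · rw [if_pos hu]
    exact zero_le
  · rw [if_neg hu, if_neg hu]
    exact ZZ_point_zero_le G h0 hp x u

theorem zz_fin (G : PG V) {p : ℝ} (h0 : 0 ≤ p) (hp : p ≤ 1 / 2) (hN : G.NoPerc p) {q : ENNReal} (hq : 2000 * q ≤ 1)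
    (hQ : ∀ x y, ch4 (mm (G.pK p) (G.tK p)) (G.tK p) (G.tK p) (G.tK p) x y ≤ q) (x : V) :
    ∑' n : ℕ, ∑' u, ZZ G p n {x} Set.univ u ≤ 2 := by
  have h0' : ∑' u, ZZ G p 0 {x} Set.univ u =
      1 + ∑' u, (if u = x then 0 else ZZ G p 0 {x} Set.univ u) := by
    rw [ENNReal.tsum_eq_add_tsum_ite x, ZZ_self G h0 (hp.trans (by norm_num)) hN x]
    refine congrArg (fun t => 1 + t) (tsum_congr fun u => ?_)
    by_cases hu : u = x
    · rw [if_pos hu, if_pos hu]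
    · rw [if_neg hu, if_neg hu]
  rw [tsum_eq_zero_add' ENNReal.summable, h0']
  have h1 := zz_zero G h0 hp hq hQ x
  have h2 := zz_row G h0 hp hq hQ x
  have h3 : 97 * q ≤ 1 := GBa_thousand hq (by norm_num)
  calc 1 + ∑' u, (if u = x then 0 else ZZ G p 0 {x} Set.univ u) +
        ∑' n : ℕ, ∑' u, ZZ G p (n + 1) {x} Set.univ u ≤ 1 + q + 96 * q :=
        add_le_add (add_le_add le_rfl h1) h2
    _ = 1 + 97 * q := by ring
    _ ≤ 1 + 1 := add_le_add le_rfl h3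
    _ = 2 := by norm_num

theorem gg_row (G : PG V) {p : ℝ} (h0 : 0 ≤ p) (hp : p ≤ 1 / 2) (hN : G.NoPerc p) {q : ENNReal} (hq : 2000 * q ≤ 1)
    (hQ : ∀ x y, ch4 (mm (G.pK p) (G.tK p)) (G.tK p) (G.tK p) (G.tK p) x y ≤ q) (x : V) :
    ∑' u, ENNReal.ofReal |gg G p x u - (if u = x then 1 else 0)| ≤ 97 * q := by
  have hfin := zz_fin G h0 hp hN hq hQ x
  have hne : ∀ u, ∑' n, ZZ G p n {x} Set.univ u ≠ ⊤ := by
    intro u
    refine ne_top_of_le_ne_top (by norm_num) (le_trans (ENNReal.tsum_le_tsum fun n => ?_) hfin)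
    exact ENNReal.le_tsum u
  have h1 := zz_zero G h0 hp hq hQ x
  have h2 := zz_row G h0 hp hq hQ x
  calc ∑' u, ENNReal.ofReal |gg G p x u - (if u = x then 1 else 0)|
      ≤ ∑' u, ((if u = x then 0 else ZZ G p 0 {x} Set.univ u) +
          ∑' n : ℕ, ZZ G p (n + 1) {x} Set.univ u) :=
        ENNReal.tsum_le_tsum fun u =>
          GBa_point G u (ZZ_self G h0 (hp.trans (by norm_num)) hN x) (hne u)
    _ = (∑' u, if u = x then 0 else ZZ G p 0 {x} Set.univ u) +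
          ∑' n : ℕ, ∑' u, ZZ G p (n + 1) {x} Set.univ u := by
        rw [ENNReal.tsum_add, ENNReal.tsum_comm]
    _ ≤ q + 96 * q := add_le_add h1 h2
    _ = 97 * q := by ring

theorem gg_wt (G : PG V) {p : ℝ} (h0 : 0 ≤ p) (hp : p ≤ 1 / 2) {q : ENNReal} (hq : 2000 * q ≤ 1)
    (hQ : ∀ x y, ch4 (mm (G.pK p) (G.tK p)) (G.tK p) (G.tK p) (G.tK p) x y ≤ q)
    {w : V → V → ENNReal} (hw : Wgt w 2 2) (w0 : ∀ x, w x x = 0) {CP D : ENNReal} (hCP : 1 ≤ CP)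
    (hrow : ∀ x, ∑' y, G.pK p x y ≤ CP)
    (d0 : ∀ x y, ch4 (wt w (mm (G.pK p) (G.tK p))) (G.tK p) (G.tK p) (G.tK p) x y ≤ D)
    (d1 : ∀ x y, ch4 (G.tK p) (wt w (mm (G.pK p) (G.tK p))) (G.tK p) (G.tK p) x y ≤ D) (x : V) :
    ∑' u, w x u * ENNReal.ofReal |gg G p x u| ≤ 773 * (CP * D) := by
  have K := ker_graph G h0 hp hQ
  have hq' : 1000 * q ≤ 1 := GBa_thousand hq (by norm_num)
  have hq2 : 1000 * (2 * q) ≤ 1 := by
    rw [← mul_assoc]
    exact GBa_thousand hq (by norm_num)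
  have h1 : ∑' u, w x u * ZZ G p 0 {x} Set.univ u ≤ D := by
    refine le_trans (ENNReal.tsum_le_tsum fun u => ?_) (K.zero_f w0 d0 x x)
    exact mul_le_mul' le_rfl (ZZ_point_zero_le G h0 hp x u)
  have h2 : ∑' n : ℕ, KS (G.tK p) (G.pK p) (fun X => w x X) n x x ≤
      2 * ((2 * 2 * (16 + 4 * 2) * (2 + 2) + 2) * (CP * D)) :=
    GBa_geom fun n => K.KS_D2 hq' hw hq2 hrow hCP w0 d0 d1 n x x
  have h3 : D ≤ CP * D := by
    calc D = 1 * D := (one_mul D).symm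
      _ ≤ CP * D := mul_le_mul' hCP le_rfl
  refine (gF_weight G p {x} (w x)).trans ?_
  rw [tsum_eq_zero_add' ENNReal.summable]
  calc ∑' u, w x u * ZZ G p 0 {x} Set.univ u + ∑' n : ℕ, ∑' u, w x u * ZZ G p (n + 1) {x} Set.univ u
      ≤ D + ∑' n : ℕ, KS (G.tK p) (G.pK p) (fun X => w x X) n x x :=
        add_le_add h1 (ENNReal.tsum_le_tsum fun n => ZZ_point_le G h0 hp (w x) n x)
    _ ≤ CP * D + 2 * ((2 * 2 * (16 + 4 * 2) * (2 + 2) + 2) * (CP * D)) := add_le_add h3 h2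
    _ = 773 * (CP * D) := by ring

end IPC.BS
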