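import Pool.Agent.Lib.MP_25e40f_pr.D.SYa
import Pool.Agent.Lib.MP_25e40f_pr.T.Iso
import Pool.Agent.Lib.MP_25e40f_pr.T.Tau
import Pool.Agent.Lib.MP_25e40f_pr.B.Syb

/-!
# MP_25e40f_pr, stream D, job SYb: symmetries of the two point function, of `ps` and of `gs`

`tau_ts`: `tau p x y = tau p (trW (-x.1) x) (trW (-x.1) y)` by `T.tau_iso` (E.g. `T.tau_iso G G h0 h1 φ hnb x y : G'.tau p (φ x) (φ y) = G.tau p x y`, with `hnb : b ∈ nb a ↔ φ b ∈ nb (φ a)` from `nb_trW`, `Finset.mem_image`, injectivity), and `trW (-x.1) x = (0, x.2)`, `trW (-x.1) y = (y.1 - x.1, y.2)`.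
`ps_nb`: the same with `nb_trW` (or `nb_iff` and `nbZ_add`).
`ts_symm`: `T.tau_symm`, then `tau_ts`: `tau (0,i) (x,j) = tau (x,j) (0,i) = ts (0 - x) j i`. `ps_symm`: `(Wg n ι H).symm` and `ps_nb`.
`gs_refl`: `gg_auto (Wg n ι H) p (rfW e) (nb_rfW e) (0, i) (x, j)`, `refl e 0 = 0`. `gs_perm`: the same with `pmW σ`.
-/

set_option autoImplicit false
set_option linter.unusedSectionVars false

noncomputable section

open Finset
open scoped Classical Matrix.Norms.L2Operator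

namespace IPC.BS

open IPC.Fo

variable {n : ℕ} {ι : Type} [Fintype ι] [DecidableEq ι] {H : SimpleGraph ι} {p : ℝ}

private theorem SYb_iff (φ : (Fin n → ℤ) × ι ≃ (Fin n → ℤ) × ι)
    (hφ : ∀ x, (Wg n ι H).nb (φ x) = ((Wg n ι H).nb x).image φ) (a b : (Fin n → ℤ) × ι) :
    b ∈ (Wg n ι H).nb a ↔ φ b ∈ (Wg n ι H).nb (φ a) := by
  rw [hφ, Finset.mem_image]
  constructor
  · intro h
    exact ⟨b, h, rfl⟩
  · rintro ⟨c, hc, hcb⟩
    rw [← φ.injective hcb]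
    exact hc

private theorem SYb_tr_left (x : (Fin n → ℤ) × ι) : trW (-x.1) x = (0, x.2) := by
  show (x.1 + -x.1, x.2) = (0, x.2)
  rw [add_neg_cancel]

private theorem SYb_tr_right (x y : (Fin n → ℤ) × ι) : trW (-x.1) y = (y.1 - x.1, y.2) := by
  show (y.1 + -x.1, y.2) = (y.1 - x.1, y.2)
  rw [sub_eq_add_neg]

theorem tau_ts (hp0 : 0 ≤ p) (hp1 : p ≤ 1) (x y : (Fin n → ℤ) × ι) :
    (Wg n ι H).tau p x y = ts n ι H p (y.1 - x.1) x.2 y.2 := by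
  have h1 := T.tau_iso (Wg n ι H) (Wg n ι H) hp0 hp1 (trW (-x.1))
    (SYb_iff (trW (-x.1)) (nb_trW (-x.1))) x y
  rw [SYb_tr_left, SYb_tr_right] at h1
  exact h1.symm

theorem ps_nb (x y : (Fin n → ℤ) × ι) :
    (if y ∈ (Wg n ι H).nb x then p else 0) = ps n ι H p (y.1 - x.1) x.2 y.2 := by
  have h1 := SYb_iff (trW (-x.1)) (nb_trW (H := H) (-x.1)) x y
  rw [SYb_tr_left, SYb_tr_right] at h1
  unfold ps
  by_cases h2 : y ∈ (Wg n ι H).nb x
  · rw [if_pos h2, if_pos (h1.1 h2)]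
  · rw [if_neg h2, if_neg fun h => h2 (h1.2 h)]

theorem ts_symm (hp0 : 0 ≤ p) (hp1 : p ≤ 1) (x : Fin n → ℤ) (i j : ι) :
    ts n ι H p x i j = ts n ι H p (-x) j i := by
  have h1 := tau_ts (H := H) hp0 hp1 (x, j) ((0 : Fin n → ℤ), i)
  have h2 : ts n ι H p x i j = (Wg n ι H).tau p (x, j) ((0 : Fin n → ℤ), i) :=
    T.tau_symm (Wg n ι H) p _ _
  rw [h2, h1]
  show ts n ι H p (0 - x) j i = _
  rw [zero_sub]

theorem ps_symm (x : Fin n → ℤ) (i j : ι) : ps n ι H p x i j = ps n ι H p (-x) j i := by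
  have h1 := ps_nb (H := H) (p := p) (x, j) ((0 : Fin n → ℤ), i)
  have h2 : ps n ι H p x i j =
      if ((0 : Fin n → ℤ), i) ∈ (Wg n ι H).nb (x, j) then p else 0 := by
    unfold ps
    have h3 : (x, j) ∈ (Wg n ι H).nb ((0 : Fin n → ℤ), i) ↔
        ((0 : Fin n → ℤ), i) ∈ (Wg n ι H).nb (x, j) := T.nb_comm (Wg n ι H)
    by_cases h4 : (x, j) ∈ (Wg n ι H).nb ((0 : Fin n → ℤ), i)
    · rw [if_pos h4, if_pos (h3.1 h4)]
    · rw [if_neg h4, if_neg fun h => h4 (h3.2 h)]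
  rw [h2, h1]
  show ps n ι H p (0 - x) j i = _
  rw [zero_sub]

private theorem SYb_refl_zero (e : Fin n) : refl e (0 : Fin n → ℤ) = 0 := by
  funext i
  unfold Fo.refl
  by_cases h : i = e
  · subst h
    simp
  · simp [Function.update_of_ne h]

theorem gs_refl (e : Fin n) (x : Fin n → ℤ) (i j : ι) : gs n ι H p (refl e x) i j = gs n ι H p x i j := by
  have h1 := gg_auto (Wg n ι H) p (rfW e) (nb_rfW e) ((0 : Fin n → ℤ), i) (x, j)
  have h2 : rfW e ((0 : Fin n → ℤ), i) = ((0 : Fin n → ℤ), i) := by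
    show (refl e (0 : Fin n → ℤ), i) = _
    rw [SYb_refl_zero]
  rw [h2] at h1
  exact h1

theorem gs_perm (σ : Equiv.Perm (Fin n)) (x : Fin n → ℤ) (i j : ι) :
    gs n ι H p (fun l => x (σ l)) i j = gs n ι H p x i j :=
  gg_auto (Wg n ι H) p (pmW σ) (nb_pmW σ) ((0 : Fin n → ℤ), i) (x, j)

end IPC.BS
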