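import Pool.Agent.Lib.MP_25e40f_pr.D.GBa
import Pool.Agent.Lib.MP_25e40f_pr.D.SYb

/-!
# MP_25e40f_pr, stream D, job GBb: row sums of `gs` (real form)

`gs n ι H p x i j = gg (Wg n ι H) p (0, i) (x, j)`, `dm n ι x i j = if i = j then del n x else 0` (so `dm x i j = if (x, j) = (0, i) then 1 else 0`).
`real_row`: `∑' u : (Fin n → ℤ) × ι, F u = ∑ j, ∑' x, F (x, j)` in `ENNReal` (`ENNReal.tsum_prod'`, `ENNReal.tsum_comm`, `tsum_fintype`), every `∑' x, ofReal |f x i j|` is finite, so the sequence is summable (`ENNReal.summable_toReal`, `ENNReal.toReal_ofReal`; or `ENNReal.ofReal_tsum_of_nonneg` afterwards), and the real sum is the `toReal` of the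
 `ENNReal` sum; `ENNReal.ofReal_le_ofReal_iff` at the end. The weighted form `real_wrow` is the case `f x i j := w x * f x i j` with `|w x * f| = w x |f|`.
`w2_row`: `w2 (0, i) (x, j) = ofReal (∑ e, (x e)^2)` (`(0 - x e)^2`), `ENNReal.ofReal_mul`.
`w2_wgt`: `Wgt w2 2 2`: symmetric; `|x - z|² ≤ 2 |y - z|² + 2 |x - y|²` (coordinatewise `(a + b)^2 ≤ 2 a^2 + 2 b^2`, `Finset.sum_le_sum`, `ENNReal.ofReal_add`, `ENNReal.ofReal_mul`); `1 ≤ 2`. `w2_self`: zero.
`gs_row`: `gg_row` with `x = (0, i)`, `q := ofReal q` (`2000 * ofReal q ≤ 1` from `q ≤ 1/2000`), `real_row` for `gs - dm`; `97 * ofReal q = ofReal (97 * q)`.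
`gs_mom0`: `|gs| ≤ |gs - dm| + |dm|`, `Mo_zero`.
`gs_sq`: `gg_wt` with `w = w2`, `CP = 3` (`hrow`: `pK_row` of C/EFin.lean with `degW`: `∑' y, pK ≤ ofReal ((2n+2) p) ≤ 3`), `D := ofReal D`: `773 * (3 * ofReal D) = ofReal (2319 * D)`.
-/

set_option autoImplicit false
set_option linter.unusedSectionVars false

noncomputable section

open Finset
open scoped Classical Matrix.Norms.L2Operator

namespace IPC.BS

open IPC.Fo

variable {n : ℕ} {ι : Type} [Fintype ι] [DecidableEq ι] {H : SimpleGraph ι} {p : ℝ}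

theorem real_row {f : MS n ι} {B : ℝ} (hB : 0 ≤ B) (i : ι)
    (h : ∑' u : (Fin n → ℤ) × ι, ENNReal.ofReal |f u.1 i u.2| ≤ ENNReal.ofReal B) :
    (∀ j, Summable fun x => |f x i j|) ∧ ∑ j, ∑' x, |f x i j| ≤ B := by
  have hE : ∑' u : (Fin n → ℤ) × ι, ENNReal.ofReal |f u.1 i u.2| = ∑ j, ∑' x, ENNReal.ofReal |f x i j| := by
    rw [ENNReal.tsum_prod (f := fun x j => ENNReal.ofReal |f x i j|), ENNReal.tsum_comm, tsum_fintype]
  rw [hE] at h
  have hfin : ∀ j, ∑' x, ENNReal.ofReal |f x i j| ≠ ⊤ := by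
    intro j
    have h1 : ∑' x, ENNReal.ofReal |f x i j| ≤ ∑ j, ∑' x, ENNReal.ofReal |f x i j| :=
      Finset.single_le_sum (f := fun j => ∑' x, ENNReal.ofReal |f x i j|) (fun _ _ => bot_le) (Finset.mem_univ j)
    exact ne_top_of_le_ne_top ENNReal.ofReal_ne_top (h1.trans h)
  have hsum : ∀ j, Summable fun x => |f x i j| := by
    intro j
    have h1 := ENNReal.summable_toReal (hfin j)
    simpa only [ENNReal.toReal_ofReal (abs_nonneg _)] using h1
  refine ⟨hsum, ?_⟩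
  rw [← ENNReal.ofReal_le_ofReal_iff hB]
  refine le_trans (le_of_eq ?_) h
  rw [ENNReal.ofReal_sum_of_nonneg (fun j _ => tsum_nonneg (fun x => abs_nonneg _))]
  exact Finset.sum_congr rfl (fun j _ => ENNReal.ofReal_tsum_of_nonneg (fun x => abs_nonneg _) (hsum j))

theorem w2_wgt : Wgt (w2 : (Fin n → ℤ) × ι → (Fin n → ℤ) × ι → ENNReal) 2 2 := by
  refine ⟨fun x y => ?_, fun x y z => ?_, by norm_num⟩
  · unfold w2
    congr 1
    refine Finset.sum_congr rfl (fun e _ => ?_)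
    push_cast
    ring
  · unfold w2
    have e2 : (2 : ENNReal) = ENNReal.ofReal 2 := by norm_num
    rw [e2, ← ENNReal.ofReal_mul (by norm_num), ← ENNReal.ofReal_mul (by norm_num),
      ← ENNReal.ofReal_add (mul_nonneg (by norm_num) (Finset.sum_nonneg (fun e _ => sq_nonneg _)))
        (mul_nonneg (by norm_num) (Finset.sum_nonneg (fun e _ => sq_nonneg _)))]
    refine ENNReal.ofReal_le_ofReal ?_
    rw [Finset.mul_sum, Finset.mul_sum, ← Finset.sum_add_distrib]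
    refine Finset.sum_le_sum (fun e _ => ?_)
    push_cast
    nlinarith [sq_nonneg (((x.1 e : ℤ) : ℝ) - 2 * (y.1 e : ℝ) + (z.1 e : ℝ))]

theorem w2_self (x : (Fin n → ℤ) × ι) : w2 x x = 0 := by
  unfold w2
  simp

private theorem GBb_q {q : ℝ} (hq : q ≤ 1 / 2000) : 2000 * ENNReal.ofReal q ≤ 1 := by
  have e2 : (2000 : ENNReal) = ENNReal.ofReal 2000 := by norm_num
  rw [e2, ← ENNReal.ofReal_mul (by norm_num), ← ENNReal.ofReal_one]
  exact ENNReal.ofReal_le_ofReal (by linarith)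

private theorem GBb_row (hp0 : 0 ≤ p) (hp2 : p ≤ 1 / 2) (hN : (Wg n ι H).NoPerc p) {q : ℝ} (hq0 : 0 ≤ q)
    (hq : q ≤ 1 / 2000) (hQ : ∀ x y, ch4 (mm ((Wg n ι H).pK p) ((Wg n ι H).tK p)) ((Wg n ι H).tK p)
      ((Wg n ι H).tK p) ((Wg n ι H).tK p) x y ≤ ENNReal.ofReal q) (i : ι) :
    (∀ j, Summable fun x => |gs n ι H p x i j - dm n ι x i j|) ∧
    ∑ j, ∑' x, |gs n ι H p x i j - dm n ι x i j| ≤ 97 * q := by
  have h := gg_row (Wg n ι H) hp0 hp2 hN (GBb_q hq) hQ ((0 : Fin n → ℤ), i)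
  refine real_row (f := fun x i j => gs n ι H p x i j - dm n ι x i j) (by positivity) i ?_
  have e2 : ENNReal.ofReal (97 * q) = 97 * ENNReal.ofReal q := by
    rw [ENNReal.ofReal_mul (by norm_num)]
    norm_num
  rw [e2]
  refine le_trans (le_of_eq ?_) h
  refine tsum_congr (fun u => ?_)
  congr 2
  obtain ⟨x, j⟩ := u
  simp only [gs, dm, del, Prod.mk.injEq]
  congr 1
  by_cases hx : x = 0
  · by_cases hj : i = j
    · simp [hx, hj]
    · have hj' : ¬ j = i := fun h => hj h.symm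
      simp [hj, hj']
  · simp [hx]

theorem gs_row (hp0 : 0 ≤ p) (hp2 : p ≤ 1 / 2) (hN : (Wg n ι H).NoPerc p) {q : ℝ} (hq0 : 0 ≤ q)
    (hq : q ≤ 1 / 2000) (hQ : ∀ x y, ch4 (mm ((Wg n ι H).pK p) ((Wg n ι H).tK p)) ((Wg n ι H).tK p)
      ((Wg n ι H).tK p) ((Wg n ι H).tK p) x y ≤ ENNReal.ofReal q) (i : ι) :
    ∑ j, ∑' x, |gs n ι H p x i j - dm n ι x i j| ≤ 97 * q := by
  exact (GBb_row hp0 hp2 hN hq0 hq hQ i).2

theorem gs_mom0 (hp0 : 0 ≤ p) (hp2 : p ≤ 1 / 2) (hN : (Wg n ι H).NoPerc p) {q : ℝ} (hq0 : 0 ≤ q)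
    (hq : q ≤ 1 / 2000) (hQ : ∀ x y, ch4 (mm ((Wg n ι H).pK p) ((Wg n ι H).tK p)) ((Wg n ι H).tK p)
      ((Wg n ι H).tK p) ((Wg n ι H).tK p) x y ≤ ENNReal.ofReal q) : Mm 0 (gs n ι H p) := by
  intro i j
  have h1 := (GBb_row hp0 hp2 hN hq0 hq hQ i).1 j
  have h2 : Summable fun x => |dm n ι x i j| := by
    unfold dm
    by_cases hj : i = j
    · simp only [hj, if_true]
      exact (Mo_del 0).s1
    · simp only [hj, if_false, abs_zero]
      exact summable_zero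
  refine Mo_zero ?_
  refine Summable.of_nonneg_of_le (fun x => abs_nonneg _) (fun x => ?_) (h1.add h2)
  have h3 := abs_add_le (gs n ι H p x i j - dm n ι x i j) (dm n ι x i j)
  rwa [sub_add_cancel] at h3

theorem gs_sq (hdeg : ∀ i, (Finset.univ.filter fun j => H.Adj i j).card ≤ 2) (hp0 : 0 ≤ p) (hp2 : p ≤ 1 / 2)
    (hp3 : (2 * n + 2) * p ≤ 3) {q : ℝ} (hq0 : 0 ≤ q) (hq : q ≤ 1 / 2000) (hS : Sml n ι H p (ENNReal.ofReal q))
    (i : ι) : (∀ j, Summable fun x => (∑ e, (x e : ℝ) ^ 2) * |gs n ι H p x i j|) ∧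
      ∑ j, ∑' x, (∑ e, (x e : ℝ) ^ 2) * |gs n ι H p x i j| ≤ 2319 * q := by
  have hrow : ∀ x, ∑' y, (Wg n ι H).pK p x y ≤ 3 := by
    intro x
    refine (pK_row (Wg n ι H) hp0 (degW hdeg) x).trans ?_
    have e3 : (3 : ENNReal) = ENNReal.ofReal 3 := by norm_num
    rw [e3]
    refine ENNReal.ofReal_le_ofReal ?_
    push_cast
    exact hp3
  have h := gg_wt (Wg n ι H) hp0 hp2 (GBb_q hq) hS.q w2_wgt w2_self (CP := 3) (D := ENNReal.ofReal q) (by norm_num)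
    hrow hS.d0 hS.d1 ((0 : Fin n → ℤ), i)
  have hnn : ∀ x : Fin n → ℤ, 0 ≤ ∑ e, (x e : ℝ) ^ 2 := fun x => Finset.sum_nonneg (fun e _ => sq_nonneg _)
  have key := real_row (f := fun x i j => (∑ e, (x e : ℝ) ^ 2) * gs n ι H p x i j) (B := 2319 * q) (by positivity) i ?_
  · simpa only [abs_mul, abs_of_nonneg (hnn _)] using key
  · have e2 : ENNReal.ofReal (2319 * q) = 773 * (3 * ENNReal.ofReal q) := by
      rw [← mul_assoc, ENNReal.ofReal_mul (by norm_num)]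
      norm_num
    rw [e2]
    refine le_trans (le_of_eq ?_) h
    refine tsum_congr (fun u => ?_)
    obtain ⟨x, j⟩ := u
    simp only [w2, gs]
    rw [abs_mul, abs_of_nonneg (hnn x), ENNReal.ofReal_mul (hnn x)]
    congr 2
    refine Finset.sum_congr rfl (fun e _ => ?_)
    simp

end IPC.BS
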