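import Pool.Agent.Lib.MP_25e40f_pr.D.GBb
import Pool.Agent.Lib.MP_25e40f_pr.D.SYb

/-!
# MP_25e40f_pr, stream D, job GBc: second moments of `gs`, coordinate by coordinate

`gs_mom2`: `Mo 2` of the entries: `(1 + ‖x‖)^2 ≤ 2 + 2 ‖x‖^2 ≤ 2 + 2 ∑ e, (x e)^2` (sup norm: if `n = 0` then `‖x‖ = 0`; in general `‖x‖^2 ≤ ∑ e, (x e)^2`: `pi_norm_le_iff_of_nonneg` with the bound `sqrt (∑ ..)`, `Int.norm_eq_abs`), so it follows from `gs_mom0` and the summability in `gs_sq` (`Summable.of_nonneg_of_le`).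
`gs_coord`: all the sums `s e := ∑ j, ∑' x, (x e)^2 |gs x i j|` are equal: for `e, e'` take `σ = Equiv.swap e e'`, `gs_perm σ`, and reindex the sum over `x` by the bijection `x ↦ x ∘ σ` (`Equiv.tsum_eq` with `⟨fun x l => x (σ l), fun x l => x (σ.symm l), ..⟩`), `(x ∘ σ) e = x e'`. Their sum over `e` is `∑ j, ∑' x, (∑ e, (x e)^2) |gs x i j| ≤ 2319 q`
 (`Summable.tsum_finsetSum`, each summand summable by comparison), so `n * s e ≤ 2319 q`.
-/

set_option autoImplicit false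
set_option linter.unusedSectionVars false

noncomputable section

open Finset
open scoped Classical Matrix.Norms.L2Operator

namespace IPC.BS

open IPC.Fo

variable {n : ℕ} {ι : Type} [Fintype ι] [DecidableEq ι] {H : SimpleGraph ι} {p : ℝ}

private theorem GBc_norm (x : Fin n → ℤ) : ‖x‖ ^ 2 ≤ ∑ e, (x e : ℝ) ^ 2 := by
  have h0 : 0 ≤ ∑ e, (x e : ℝ) ^ 2 := Finset.sum_nonneg fun e _ => sq_nonneg _
  have h1 : ‖x‖ ≤ Real.sqrt (∑ e, (x e : ℝ) ^ 2) := by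
    refine (pi_norm_le_iff_of_nonneg (Real.sqrt_nonneg _)).2 fun e => ?_
    rw [Int.norm_eq_abs]
    refine Real.abs_le_sqrt ?_
    exact Finset.single_le_sum (f := fun e => (x e : ℝ) ^ 2) (fun e _ => sq_nonneg _) (Finset.mem_univ e)
  have h2 := pow_le_pow_left₀ (norm_nonneg x) h1 2
  rwa [Real.sq_sqrt h0] at h2

/-- permutation of the coordinates -/
private def GBc_pe (σ : Equiv.Perm (Fin n)) : (Fin n → ℤ) ≃ (Fin n → ℤ) where
  toFun x := fun l => x (σ l)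
  invFun x := fun l => x (σ.symm l)
  left_inv x := by
    funext l
    simp
  right_inv x := by
    funext l
    simp

theorem gs_mom2 (hdeg : ∀ i, (Finset.univ.filter fun j => H.Adj i j).card ≤ 2) (hp0 : 0 ≤ p) (hp2 : p ≤ 1 / 2)
    (hN : (Wg n ι H).NoPerc p) (hp3 : (2 * n + 2) * p ≤ 3) {q : ℝ} (hq0 : 0 ≤ q) (hq : q ≤ 1 / 2000)
    (hS : Sml n ι H p (ENNReal.ofReal q)) : Mm 2 (gs n ι H p) := by
  intro i j
  have h0 : Summable fun x => |gs n ι H p x i j| := ((gs_mom0 hp0 hp2 hN hq0 hq hS.q) i j).s1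
  have h1 := (gs_sq hdeg hp0 hp2 hp3 hq0 hq hS i).1 j
  refine Summable.of_nonneg_of_le (fun x => by positivity) (fun x => ?_) ((h0.mul_left 2).add (h1.mul_left 2))
  have h2 := GBc_norm x
  have h3 : (1 + ‖x‖) ^ 2 ≤ 2 + 2 * ∑ e, (x e : ℝ) ^ 2 := by nlinarith [sq_nonneg (1 - ‖x‖)]
  calc (1 + ‖x‖) ^ 2 * |gs n ι H p x i j| ≤ (2 + 2 * ∑ e, (x e : ℝ) ^ 2) * |gs n ι H p x i j| :=
        mul_le_mul_of_nonneg_right h3 (abs_nonneg _)
    _ = 2 * |gs n ι H p x i j| + 2 * ((∑ e, (x e : ℝ) ^ 2) * |gs n ι H p x i j|) := by ring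

set_option linter.unusedVariables false in
theorem gs_coord (hdeg : ∀ i, (Finset.univ.filter fun j => H.Adj i j).card ≤ 2) (hn : 1 ≤ n) (hp0 : 0 ≤ p)
    (hp2 : p ≤ 1 / 2) (hN : (Wg n ι H).NoPerc p) (hp3 : (2 * n + 2) * p ≤ 3) {q : ℝ} (hq0 : 0 ≤ q)
    (hq : q ≤ 1 / 2000) (hS : Sml n ι H p (ENNReal.ofReal q)) (i : ι) (e : Fin n) :
    ∑ j, ∑' x, (x e : ℝ) ^ 2 * |gs n ι H p x i j| ≤ 2319 * q / n := by
  obtain ⟨h1, h2⟩ := gs_sq hdeg hp0 hp2 hp3 hq0 hq hS i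
  have hsum : ∀ (e' : Fin n) (j : ι), Summable fun x : Fin n → ℤ => (x e' : ℝ) ^ 2 * |gs n ι H p x i j| := by
    intro e' j
    refine Summable.of_nonneg_of_le (fun x => by positivity) (fun x => ?_) (h1 j)
    refine mul_le_mul_of_nonneg_right ?_ (abs_nonneg _)
    exact Finset.single_le_sum (f := fun e => (x e : ℝ) ^ 2) (fun e _ => sq_nonneg _) (Finset.mem_univ e')
  have heq : ∀ e' : Fin n, ∑ j, ∑' x, (x e' : ℝ) ^ 2 * |gs n ι H p x i j| =
      ∑ j, ∑' x, (x e : ℝ) ^ 2 * |gs n ι H p x i j| := by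
    intro e'
    refine Finset.sum_congr rfl fun j _ => ?_
    rw [← (GBc_pe (Equiv.swap e e')).tsum_eq (fun x => (x e : ℝ) ^ 2 * |gs n ι H p x i j|)]
    refine tsum_congr fun x => ?_
    show (x e' : ℝ) ^ 2 * |gs n ι H p x i j| =
      (x (Equiv.swap e e' e) : ℝ) ^ 2 * |gs n ι H p (fun l => x (Equiv.swap e e' l)) i j|
    rw [Equiv.swap_apply_left, gs_perm]
  have htot : ∑ e' : Fin n, ∑ j, ∑' x, (x e' : ℝ) ^ 2 * |gs n ι H p x i j| =
      ∑ j, ∑' x, (∑ e, (x e : ℝ) ^ 2) * |gs n ι H p x i j| := by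
    rw [Finset.sum_comm]
    refine Finset.sum_congr rfl fun j _ => ?_
    rw [← Summable.tsum_finsetSum (fun e' _ => hsum e' j)]
    refine tsum_congr fun x => ?_
    rw [Finset.sum_mul]
  rw [Finset.sum_congr rfl (fun e' _ => heq e'), Finset.sum_const, Finset.card_univ, Fintype.card_fin,
    nsmul_eq_mul] at htot
  have hn' : (0 : ℝ) < n := by exact_mod_cast hn
  rw [le_div_iff₀ hn', mul_comm, htot]
  exact h2

end IPC.BS
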