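import Pool.Agent.Lib.MP_25e40f_pr.D.MDef
import Pool.Agent.Lib.MP_25e40f_pr.D.NMa

/-!
# MP_25e40f_pr, stream D, job HEa: Hermitian transforms and norms of transforms of symmetric sequences

`FM_entry`: `‖FM f k i j‖ ≤ ∑' x, |f x i j|` (`norm_FT_le`).
`FM_herm`: entry: `conj (∑' x, f x j i ch k x) = ∑' x, f x j i ch k (-x)` (`ch_neg`, `Complex.conj_tsum`) `= ∑' x, f (-x) j i ch k x` (`Equiv.neg`) `= ∑' x, f x i j ch k x`.
`symm_of_herm`: let `g x = f (-x) j i`. `FT g k = conj (FT (f . j i) k)` (as above) `= conj (FM f k j i) = FM f k i j` (Hermitian), so `FT_injective` gives `f . i j = g` (`S1 g`: `Equiv.neg`, `Summable`).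
`row_norm`: `norm_le_rows_cols` (job NMa) with `FM_entry`; the column sums are row sums: `∑' x, |f x i j| = ∑' x, |f x j i|` by the symmetry and `Equiv.neg`.
`FM_sub_dm`: entrywise `FT_sub` (E/Fou.lean) and `FT_del`.
-/

set_option autoImplicit false
set_option linter.unusedSectionVars false

noncomputable section

open Finset
open scoped Classical Matrix.Norms.L2Operator

namespace IPC.BS

open IPC.Fo

variable {n : ℕ} {ι : Type} [Fintype ι] [DecidableEq ι]

private theorem HEa_conj (f : (Fin n → ℤ) → ℝ) (k : Fin n → ℝ) :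
    (starRingEnd ℂ) (FT f k) = FT (fun x => f (-x)) k := by
  unfold FT
  rw [Complex.conj_tsum, ← (Equiv.neg (Fin n → ℤ)).tsum_eq]
  refine tsum_congr fun x => ?_
  rw [Equiv.neg_apply, map_mul, Complex.conj_ofReal, ch_neg, Complex.conj_conj]

private theorem HEa_entry {f : MS n ι} (hf : Mm 0 f) (k : Fin n → ℝ) (i j : ι) :
    ‖FM f k i j‖ ≤ ∑' x, |f x i j| := norm_FT_le (hf i j).s1 k

theorem FM_herm {f : MS n ι} (h : ∀ x i j, f x i j = f (-x) j i) (k : Fin n → ℝ) : (FM f k).IsHermitian := by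
  refine Matrix.IsHermitian.ext fun i j => ?_
  show (starRingEnd ℂ) (FT (fun x => f x j i) k) = FT (fun x => f x i j) k
  rw [HEa_conj]
  have e : (fun x => f (-x) j i) = fun x => f x i j := by
    funext x
    exact (h x i j).symm
  rw [e]

theorem symm_of_herm {f : MS n ι} (hf : Mm 0 f) (h : ∀ k, (FM f k).IsHermitian) (x : Fin n → ℤ) (i j : ι) :
    f x i j = f (-x) j i := by
  have hS : S1 (fun x => f (-x) j i) := (Equiv.neg (Fin n → ℤ)).summable_iff.2 (hf j i).s1
  have hk : ∀ k, FT (fun x => f x i j) k = FT (fun x => f (-x) j i) k := by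
    intro k
    have h1 := (h k).apply i j
    have h2 : (starRingEnd ℂ) (FT (fun x => f x j i) k) = FT (fun x => f x i j) k := h1
    rw [← h2, HEa_conj]
  exact congrFun (FT_injective (hf i j).s1 hS hk) x

theorem row_norm {f : MS n ι} (hf : Mm 0 f) (sy : ∀ x i j, f x i j = f (-x) j i) {r : ℝ} (hr : 0 ≤ r)
    (h : ∀ i, ∑ j, ∑' x, |f x i j| ≤ r) (k : Fin n → ℝ) : ‖FM f k‖ ≤ r := by
  refine norm_le_rows_cols hr (fun i => ?_) (fun j => ?_)
  · exact (Finset.sum_le_sum fun j _ => HEa_entry hf k i j).trans (h i)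
  · refine (Finset.sum_le_sum fun i _ => HEa_entry hf k i j).trans (le_trans (le_of_eq ?_) (h j))
    refine Finset.sum_congr rfl fun i _ => ?_
    rw [← (Equiv.neg (Fin n → ℤ)).tsum_eq (fun x => |f x j i|)]
    refine tsum_congr fun x => ?_
    rw [Equiv.neg_apply, sy x i j]

theorem FM_sub_dm {f : MS n ι} (hf : Mm 0 f) (k : Fin n → ℝ) :
    FM (fun x i j => f x i j - dm n ι x i j) k = FM f k - 1 := by
  ext i j
  rw [Matrix.sub_apply]
  show FT (fun x => f x i j - dm n ι x i j) k = FT (fun x => f x i j) k - (1 : Matrix ι ι ℂ) i j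
  by_cases hij : i = j
  · have e : (fun x => f x i j - dm n ι x i j) = fun x => f x i j - del n x := by
      funext x
      simp only [dm, if_pos hij]
    rw [e, FT_sub (hf i j).s1 S1_del, FT_del, hij, Matrix.one_apply_eq]
  · have e : (fun x => f x i j - dm n ι x i j) = fun x => f x i j := by
      funext x
      simp only [dm, if_neg hij, sub_zero]
    rw [e, Matrix.one_apply_ne hij, sub_zero]

end IPC.BS
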