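import Pool.Agent.Lib.MP_25e40f_pr.D.NMb

/-!
# MP_25e40f_pr, stream D, job HPa: algebra of the equation `T = G (1 + P T)`

`structure HP T G P` (D/MDef.lean): `T`, `P` Hermitian, `c nq v ≤ qf T v` with `c > 0`, `T = G * (1 + P * T)`.
`isUnit_T`: if `T *ᵥ v = 0` then `qf T v = 0` so `nq v = 0`, `v = 0`: injective, so a unit (`Matrix.isUnit_iff...`: `Matrix.mulVec_injective_iff_isUnit`, or `Matrix.isUnit_iff_isUnit_det` and `Matrix.exists_mulVec_eq_zero_iff`).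
`isUnit_G`: `T = G * X`, `T` is a unit, so `det T = det G * det X ≠ 0`, `det G ≠ 0` (`Matrix.isUnit_iff_isUnit_det`).
`inv_eq`: `G⁻¹ * T = 1 + P * T` (multiply the equation by `G⁻¹` from the left); multiply by `T⁻¹` from the right: `G⁻¹ = T⁻¹ + P`.
`hG`: `(G⁻¹)ᴴ = G⁻¹` because `T⁻¹`, `P` are Hermitian (`Matrix.IsHermitian.inv`, `.add`), and `G = (G⁻¹)⁻¹` (`Matrix.nonsing_inv_nonsing_inv`), `Matrix.IsHermitian.inv`.
`qf_inv_nonneg`: with `w = T⁻¹ *ᵥ v`, `v = T *ᵥ w`: `qf T⁻¹ v = re (sum conj (v i) w i) = re (sum conj ((T *ᵥ w) i) w i) = qf T w ≥ 0` (`T` Hermitian or just the conjugate: the real part of `sum_i conj ((T w) i) w i` is the real part of its conjugate `sum_i (T w) i conj (w i) = ` the form of `T` at `w`).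
`der1`: from `e1` and `1 + P T = G⁻¹ T`: `T1 - G P T1 = G1 G⁻¹ T + G P1 T`; and `1 - G P = G T⁻¹` (from `G⁻¹ = T⁻¹ + P` multiplied by `G`); so `G T⁻¹ T1 = G1 G⁻¹ T + G P1 T`, multiply by `T G⁻¹` from the left.
`der2`: `P1 T + P T1 = G⁻¹ (T1 - G1 G⁻¹ T)` from `e1` (as `T1 = G1 (1 + P T) + G (P1 T + P T1)` and `1 + P T = G⁻¹ T`). From `e2`: `T2 - G P T2 = G2 G⁻¹ T + 2 G1 G⁻¹ (T1 - G1 G⁻¹ T) + G (P2 T + 2 P1 T1)`, and `(1 - G P) = G T⁻¹`; multiply by `T G⁻¹` from the left.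
 (Use `Matrix.mul_assoc`, `Matrix.nonsing_inv_mul`, `Matrix.mul_nonsing_inv`, `noncomm_ring`; or `hT.unit` to work in a ring with units.)
`test`: `qf_inv_nonneg` and `inv_eq` with `v = Pi.single i 1`: `0 ≤ qf T⁻¹ v = qf (G⁻¹ - P) v = re (G⁻¹ i i) - re (P i i)` and `re (G⁻¹ i i) ≤ ‖G⁻¹ i i‖ ≤ ‖G⁻¹‖` (`entry_le`).
-/

set_option autoImplicit false
set_option linter.unusedSectionVars false

noncomputable section

open Finset
open scoped Classical Matrix.Norms.L2Operator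

namespace IPC.BS

open IPC.Fo

variable {ι : Type} [Fintype ι] [DecidableEq ι] {T G P : Matrix ι ι ℂ}

private theorem HPa_qf (A : Matrix ι ι ℂ) (v : ι → ℂ) :
    qf A v = (∑ i, (starRingEnd ℂ) (v i) * A.mulVec v i).re := by
  unfold qf
  refine congrArg Complex.re (Finset.sum_congr rfl fun i _ => ?_)
  show _ = (starRingEnd ℂ) (v i) * ∑ j, A i j * v j
  rw [Finset.mul_sum]
  exact Finset.sum_congr rfl fun j _ => mul_assoc _ _ _

private theorem HPa_nq_zero {v : ι → ℂ} (h : nq v ≤ 0) : v = 0 := by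
  funext i
  have h1 : ‖v i‖ ^ 2 ≤ nq v :=
    Finset.single_le_sum (f := fun l => ‖v l‖ ^ 2)
      (fun l _ => pow_nonneg (norm_nonneg _) 2) (Finset.mem_univ i)
  have h2 : ‖v i‖ ^ 2 = 0 := le_antisymm (h1.trans h) (pow_nonneg (norm_nonneg _) 2)
  exact norm_eq_zero.1 (pow_eq_zero_iff two_ne_zero |>.1 h2)

theorem HP.isUnit_T (h : HP T G P) : IsUnit T := by
  rw [← Matrix.mulVec_injective_iff_isUnit]
  obtain ⟨c, hc, hq⟩ := h.pos
  intro v w hvw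
  have h1 : T.mulVec (v - w) = 0 := by
    rw [Matrix.mulVec_sub]
    exact sub_eq_zero.2 hvw
  have h2 : qf T (v - w) = 0 := by
    rw [HPa_qf, h1]
    simp
  have h3 := hq (v - w)
  rw [h2] at h3
  have h4 : nq (v - w) ≤ 0 := by
    by_contra hcon
    push Not at hcon
    have := mul_pos hc hcon
    linarith
  exact sub_eq_zero.1 (HPa_nq_zero h4)

theorem HP.isUnit_G (h : HP T G P) : IsUnit G := by
  have h1 := h.isUnit_T
  rw [h.eq, Matrix.isUnit_iff_isUnit_det, Matrix.det_mul] at h1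
  rw [Matrix.isUnit_iff_isUnit_det]
  exact isUnit_of_mul_isUnit_left h1

private theorem HPa_detT (h : HP T G P) : IsUnit T.det :=
  (Matrix.isUnit_iff_isUnit_det T).1 h.isUnit_T

private theorem HPa_detG (h : HP T G P) : IsUnit G.det :=
  (Matrix.isUnit_iff_isUnit_det G).1 h.isUnit_G

private theorem HPa_GT (h : HP T G P) : 1 + P * T = G⁻¹ * T := by
  have h1 : G⁻¹ * T = G⁻¹ * (G * (1 + P * T)) := by rw [← h.eq]
  rw [h1, ← mul_assoc, Matrix.nonsing_inv_mul G (HPa_detG h), one_mul]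

theorem HP.inv_eq (h : HP T G P) : G⁻¹ = T⁻¹ + P := by
  have h1 : G⁻¹ = G⁻¹ * T * T⁻¹ := by
    rw [mul_assoc, Matrix.mul_nonsing_inv T (HPa_detT h), mul_one]
  rw [h1, ← HPa_GT h, add_mul, one_mul, mul_assoc, Matrix.mul_nonsing_inv T (HPa_detT h), mul_one]

theorem HP.hG (h : HP T G P) : G.IsHermitian := by
  have h1 : (G⁻¹).IsHermitian := by
    rw [h.inv_eq]
    exact h.hT.inv.add h.hP
  have h2 := h1.inv
  rwa [Matrix.nonsing_inv_nonsing_inv G (HPa_detG h)] at h2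

theorem HP.qf_inv_nonneg (h : HP T G P) (v : ι → ℂ) : 0 ≤ qf T⁻¹ v := by
  obtain ⟨c, hc, hq⟩ := h.pos
  have h1 : T.mulVec (T⁻¹.mulVec v) = v := by
    rw [Matrix.mulVec_mulVec, Matrix.mul_nonsing_inv T (HPa_detT h), Matrix.one_mulVec]
  have h2 : qf T⁻¹ v = qf T (T⁻¹.mulVec v) := by
    rw [HPa_qf, HPa_qf, h1, ← Complex.conj_re (∑ i, (starRingEnd ℂ) (v i) * T⁻¹.mulVec v i),
      map_sum]
    refine congrArg Complex.re (Finset.sum_congr rfl fun i _ => ?_)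
    rw [map_mul, Complex.conj_conj, mul_comm]
  rw [h2]
  exact (mul_nonneg hc.le (nq_nonneg _)).trans (hq _)

theorem HP.test (h : HP T G P) (i : ι) : (P i i).re ≤ ‖G⁻¹‖ := by
  have h1 := h.qf_inv_nonneg (Pi.single i 1)
  have h2 : qf T⁻¹ (Pi.single i 1) = (T⁻¹ i i).re := by
    rw [HPa_qf, Finset.sum_eq_single i]
    · rw [Pi.single_eq_same, map_one, one_mul, Matrix.mulVec_single_one]
      rfl
    · intro j _ hj
      rw [Pi.single_eq_of_ne hj, map_zero, zero_mul]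
    · intro hi
      exact absurd (Finset.mem_univ i) hi
  rw [h2] at h1
  have h3 : G⁻¹ i i = T⁻¹ i i + P i i := by
    rw [h.inv_eq, Matrix.add_apply]
  have h4 : (G⁻¹ i i).re = (T⁻¹ i i).re + (P i i).re := by rw [h3, Complex.add_re]
  have h5 : (G⁻¹ i i).re ≤ ‖G⁻¹ i i‖ := Complex.re_le_norm _
  have h6 := entry_le G⁻¹ i i
  linarith

private theorem HPa_key (h : HP T G P) : T * G⁻¹ * (1 - G * P) = 1 := by
  have h1 : T * G⁻¹ * (1 - G * P) = T * G⁻¹ - T * ((G⁻¹ * G) * P) := by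
    noncomm_ring
  have h2 : T * G⁻¹ = 1 + T * P := by
    rw [h.inv_eq, mul_add, Matrix.mul_nonsing_inv T (HPa_detT h)]
  rw [h1, Matrix.nonsing_inv_mul G (HPa_detG h), one_mul, h2, add_sub_cancel_right]

private theorem HPa_solve (h : HP T G P) {X Y : Matrix ι ι ℂ} (hX : (1 - G * P) * X = Y) :
    X = T * G⁻¹ * Y := by
  rw [← hX, ← mul_assoc, HPa_key h, one_mul]

theorem HP.der1 (h : HP T G P) {T1 G1 P1 : Matrix ι ι ℂ}
    (e1 : T1 = G1 * (1 + P * T) + G * (P1 * T + P * T1)) : T1 = T * (G⁻¹ * G1 * G⁻¹ + P1) * T := by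
  have h1 : (1 - G * P) * T1 = G1 * (G⁻¹ * T) + G * (P1 * T) := by
    calc (1 - G * P) * T1 = T1 - G * (P * T1) := by noncomm_ring
      _ = G1 * (1 + P * T) + G * (P1 * T + P * T1) - G * (P * T1) := by rw [← e1]
      _ = G1 * (1 + P * T) + G * (P1 * T) := by noncomm_ring
      _ = _ := by rw [HPa_GT h]
  have h2 := HPa_solve h h1
  have h3 : T * G⁻¹ * (G1 * (G⁻¹ * T) + G * (P1 * T)) =
      T * (G⁻¹ * G1 * G⁻¹ + (G⁻¹ * G) * P1) * T := by noncomm_ring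
  rw [h3, Matrix.nonsing_inv_mul G (HPa_detG h), one_mul] at h2
  exact h2

theorem HP.der2 (h : HP T G P) {T1 G1 P1 T2 G2 P2 : Matrix ι ι ℂ}
    (e1 : T1 = G1 * (1 + P * T) + G * (P1 * T + P * T1))
    (e2 : T2 = G2 * (1 + P * T) + (2 : ℂ) • (G1 * (P1 * T + P * T1)) +
      G * (P2 * T + (2 : ℂ) • (P1 * T1) + P * T2)) :
    T2 = T * G⁻¹ * G2 * G⁻¹ * T + (2 : ℂ) • (T * G⁻¹ * G1 * G⁻¹ * (T1 - G1 * G⁻¹ * T)) + T * P2 * T +
      (2 : ℂ) • (T * P1 * T1) := by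
  have hg := Matrix.nonsing_inv_mul G (HPa_detG h)
  have hq : P1 * T + P * T1 = G⁻¹ * (T1 - G1 * G⁻¹ * T) := by
    have h1 : G⁻¹ * (T1 - G1 * G⁻¹ * T) = G⁻¹ * (T1 - G1 * (G⁻¹ * T)) := by noncomm_ring
    have h2 : T1 - G1 * (G⁻¹ * T) = G * (P1 * T + P * T1) := by
      rw [← HPa_GT h]
      exact sub_eq_of_eq_add' e1
    rw [h1, h2, ← mul_assoc, hg, one_mul]
  have h1 : (1 - G * P) * T2 = G2 * (G⁻¹ * T) + (G1 * (P1 * T + P * T1) + G1 * (P1 * T + P * T1)) +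
      G * (P2 * T + (P1 * T1 + P1 * T1)) := by
    rw [two_smul, two_smul] at e2
    calc (1 - G * P) * T2 = T2 - G * (P * T2) := by noncomm_ring
      _ = G2 * (1 + P * T) + (G1 * (P1 * T + P * T1) + G1 * (P1 * T + P * T1)) +
          G * (P2 * T + (P1 * T1 + P1 * T1) + P * T2) - G * (P * T2) := by rw [← e2]
      _ = G2 * (1 + P * T) + (G1 * (P1 * T + P * T1) + G1 * (P1 * T + P * T1)) +
          G * (P2 * T + (P1 * T1 + P1 * T1)) := by noncomm_ring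
      _ = _ := by rw [HPa_GT h]
  rw [hq] at h1
  have h2 := HPa_solve h h1
  rw [two_smul, two_smul]
  have h3 : T * G⁻¹ * (G2 * (G⁻¹ * T) + (G1 * (G⁻¹ * (T1 - G1 * G⁻¹ * T)) +
      G1 * (G⁻¹ * (T1 - G1 * G⁻¹ * T))) + G * (P2 * T + (P1 * T1 + P1 * T1))) =
      T * G⁻¹ * G2 * G⁻¹ * T + (T * G⁻¹ * G1 * G⁻¹ * (T1 - G1 * G⁻¹ * T) +
        T * G⁻¹ * G1 * G⁻¹ * (T1 - G1 * G⁻¹ * T)) +
      T * ((G⁻¹ * G) * (P2 * T + (P1 * T1 + P1 * T1))) := by
    generalize T1 - G1 * G⁻¹ * T = Z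
    noncomm_ring
  rw [h3, hg, one_mul] at h2
  refine h2.trans ?_
  noncomm_ring

end IPC.BS
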