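import Pool.Agent.Lib.MP_25e40f_pr.D.HPa

/-!
# MP_25e40f_pr, stream D, job HPb: the bound of `‖T‖`

`bigp`: for `v`: `qf T⁻¹ v = qf (G⁻¹ - P) v` (`h.inv_eq`) `= qf (G⁻¹ - G0⁻¹) v + qf T0⁻¹ v + qf (P0 - P) v` (because `G0⁻¹ = T0⁻¹ + P0`) `≥ - ‖G⁻¹ - G0⁻¹‖ nq v + 0 + c E nq v`. By `near_one` with `r = 1/10`: `‖G⁻¹‖, ‖G0⁻¹‖ ≤ 10/9`, so by `inv_diff` `‖G⁻¹ - G0⁻¹‖ ≤ (100/81) e E ≤ 2 e E ≤ E/5`.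
 So `qf T⁻¹ v ≥ (1/2 - 1/5) E nq v = (3/10) E nq v`, `norm_le_of_inv`: `‖T‖ ≤ 10/(3E) ≤ 10/E`.
`smallp`: `qf T⁻¹ v = qf (G⁻¹ - 1) v + nq v - qf P v ≥ (1 - 1/9 - 3/5) nq v ≥ (1/4) nq v ≥ (E/8) nq v` (`near_one`: `‖G⁻¹ - 1‖ ≤ 1/9`), `‖T‖ ≤ 8/E ≤ 10/E`.
`d1_le`: from `der1`: `‖T1‖ ≤ ‖T‖ (‖G⁻¹‖ ‖G1‖ ‖G⁻¹‖ + ‖P1‖) ‖T‖ ≤ t (4 a1 + b1) t` (`norm_mul_le`, `norm_add_le`).
`d2_le`: from `der2`: `‖T2‖ ≤ t 2 a2 2 t + 2 t 2 a1 2 (t1 + a1 2 t) + t b2 t + 2 t b1 t1`.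
-/

set_option autoImplicit false
set_option linter.unusedSectionVars false

noncomputable section

open Finset
open scoped Classical Matrix.Norms.L2Operator

namespace IPC.BS

open IPC.Fo

variable {ι : Type} [Fintype ι] [DecidableEq ι] {T G P : Matrix ι ι ℂ}

private theorem HPb_mul {A B : Matrix ι ι ℂ} {a b : ℝ} (hA : ‖A‖ ≤ a) (hB : ‖B‖ ≤ b) :
    ‖A * B‖ ≤ a * b :=
  (norm_mul_le _ _).trans (mul_le_mul hA hB (norm_nonneg _) ((norm_nonneg _).trans hA))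

private theorem HPb_add {A B : Matrix ι ι ℂ} {a b : ℝ} (hA : ‖A‖ ≤ a) (hB : ‖B‖ ≤ b) :
    ‖A + B‖ ≤ a + b := (norm_add_le _ _).trans (add_le_add hA hB)

private theorem HPb_sub {A B : Matrix ι ι ℂ} {a b : ℝ} (hA : ‖A‖ ≤ a) (hB : ‖B‖ ≤ b) :
    ‖A - B‖ ≤ a + b := (norm_sub_le _ _).trans (add_le_add hA hB)

private theorem HPb_two {A : Matrix ι ι ℂ} {a : ℝ} (hA : ‖A‖ ≤ a) : ‖(2 : ℂ) • A‖ ≤ 2 * a := by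
  refine (norm_smul_le _ _).trans ?_
  rw [show ‖(2 : ℂ)‖ = 2 by norm_num]
  exact mul_le_mul_of_nonneg_left hA (by norm_num)

private theorem HPb_near (h : HP T G P) (hG : ‖G - 1‖ ≤ 1 / 10) :
    ‖G⁻¹‖ ≤ 10 / 9 ∧ ‖G⁻¹ - 1‖ ≤ 1 / 9 := by
  obtain ⟨h1, h2⟩ := near_one h.isUnit_G hG (by norm_num)
  norm_num at h1 h2 ⊢
  exact ⟨h1, h2⟩

theorem HP.bigp (h : HP T G P) {T0 G0 P0 : Matrix ι ι ℂ} (h0 : HP T0 G0 P0) {c e E : ℝ} (hE : 0 < E)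
    (hG : ‖G - 1‖ ≤ 1 / 10) (hG0 : ‖G0 - 1‖ ≤ 1 / 10) (hd : ‖G0 - G‖ ≤ e * E)
    (hP : P0 - P = ((c * E : ℝ) : ℂ) • (1 : Matrix ι ι ℂ)) (hc : 1 / 2 ≤ c) (he : e ≤ 1 / 10) :
    ‖T‖ ≤ 10 / E := by
  have n1 := (HPb_near h hG).1
  have n0 := (HPb_near h0 hG0).1
  have hd' : ‖G0 - G‖ ≤ E / 10 := by
    refine hd.trans ?_
    nlinarith
  have hdiff : ‖G⁻¹ - G0⁻¹‖ ≤ E / 5 := by
    refine (inv_diff h.isUnit_G h0.isUnit_G).trans ?_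
    have h1 : ‖G⁻¹‖ * ‖G0 - G‖ ≤ 10 / 9 * (E / 10) :=
      mul_le_mul n1 hd' (norm_nonneg _) (by norm_num)
    have h2 : ‖G⁻¹‖ * ‖G0 - G‖ * ‖G0⁻¹‖ ≤ 10 / 9 * (E / 10) * (10 / 9) :=
      mul_le_mul h1 n0 (norm_nonneg _) (by positivity)
    linarith
  have hq : ∀ v, 3 / 10 * E * nq v ≤ qf T⁻¹ v := by
    intro v
    have hn := nq_nonneg v
    have e1 : T⁻¹ = (G⁻¹ - G0⁻¹) + T0⁻¹ + (P0 - P) := by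
      rw [h.inv_eq, h0.inv_eq]
      abel
    rw [e1, qf_add, qf_add, hP, qf_smul, qf_one]
    have h1 := neg_le_of_abs_le (qf_le (G⁻¹ - G0⁻¹) v)
    have h2 := h0.qf_inv_nonneg v
    have h3 : ‖G⁻¹ - G0⁻¹‖ * nq v ≤ E / 5 * nq v := mul_le_mul_of_nonneg_right hdiff hn
    have h4 : 1 / 2 * (E * nq v) ≤ c * (E * nq v) :=
      mul_le_mul_of_nonneg_right hc (mul_nonneg hE.le hn)
    linarith
  have h3 := norm_le_of_inv h.isUnit_T (by positivity : 0 < 3 / 10 * E) hq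
  refine h3.trans ?_
  rw [div_le_div_iff₀ (by positivity) hE]
  linarith

theorem HP.smallp (h : HP T G P) {E : ℝ} (hE : 0 < E) (hE2 : E ≤ 2) (hG : ‖G - 1‖ ≤ 1 / 10)
    (hP : ‖P‖ ≤ 3 / 5) : ‖T‖ ≤ 10 / E := by
  have n1 := (HPb_near h hG).2
  have hq : ∀ v, 1 / 8 * E * nq v ≤ qf T⁻¹ v := by
    intro v
    have hn := nq_nonneg v
    have e1 : T⁻¹ = (G⁻¹ - 1) + 1 - P := by
      rw [h.inv_eq]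
      abel
    rw [e1, qf_sub, qf_add, qf_one]
    have h1 := neg_le_of_abs_le (qf_le (G⁻¹ - 1) v)
    have h2 := le_of_abs_le (qf_le P v)
    have h3 : ‖G⁻¹ - 1‖ * nq v ≤ 1 / 9 * nq v := mul_le_mul_of_nonneg_right n1 hn
    have h4 : ‖P‖ * nq v ≤ 3 / 5 * nq v := mul_le_mul_of_nonneg_right hP hn
    have h5 : E * nq v ≤ 2 * nq v := mul_le_mul_of_nonneg_right hE2 hn
    linarith
  have h3 := norm_le_of_inv h.isUnit_T (by positivity : 0 < 1 / 8 * E) hq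
  refine h3.trans ?_
  rw [div_le_div_iff₀ (by positivity) hE]
  linarith

theorem HP.d1_le (h : HP T G P) (hG : ‖G⁻¹‖ ≤ 2) {T1 G1 P1 : Matrix ι ι ℂ}
    (e1 : T1 = G1 * (1 + P * T) + G * (P1 * T + P * T1)) {a1 b1 t : ℝ} (ht : ‖T‖ ≤ t) (h1 : ‖G1‖ ≤ a1)
    (h2 : ‖P1‖ ≤ b1) : ‖T1‖ ≤ t ^ 2 * (4 * a1 + b1) := by
  rw [h.der1 e1]
  refine (HPb_mul (HPb_mul ht (HPb_add (HPb_mul (HPb_mul hG h1) hG) h2)) ht).trans (le_of_eq ?_)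
  ring

theorem HP.d2_le (h : HP T G P) (hG : ‖G⁻¹‖ ≤ 2) {T1 G1 P1 T2 G2 P2 : Matrix ι ι ℂ}
    (e1 : T1 = G1 * (1 + P * T) + G * (P1 * T + P * T1))
    (e2 : T2 = G2 * (1 + P * T) + (2 : ℂ) • (G1 * (P1 * T + P * T1)) +
      G * (P2 * T + (2 : ℂ) • (P1 * T1) + P * T2)) {a1 b1 a2 b2 t t1 : ℝ} (ht : ‖T‖ ≤ t) (h1 : ‖G1‖ ≤ a1)
    (h2 : ‖P1‖ ≤ b1) (h3 : ‖G2‖ ≤ a2) (h4 : ‖P2‖ ≤ b2) (h5 : ‖T1‖ ≤ t1) :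
    ‖T2‖ ≤ 4 * a2 * t ^ 2 + 8 * t * a1 * (t1 + 2 * a1 * t) + t ^ 2 * b2 + 2 * t * b1 * t1 := by
  rw [h.der2 e1 e2]
  have k1 := HPb_mul (HPb_mul (HPb_mul (HPb_mul ht hG) h3) hG) ht
  have k2 := HPb_two (HPb_mul (HPb_mul (HPb_mul (HPb_mul ht hG) h1) hG)
    (HPb_sub h5 (HPb_mul (HPb_mul h1 hG) ht)))
  have k3 := HPb_mul (HPb_mul ht h4) ht
  have k4 := HPb_two (HPb_mul (HPb_mul ht h2) h5)
  refine (HPb_add (HPb_add (HPb_add k1 k2) k3) k4).trans (le_of_eq ?_)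
  ring

end IPC.BS
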