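import Pool.Agent.Lib.MP_25e40f_pr.D.SYa
import Pool.Agent.Lib.MP_25e40f_pr.D.NMa

/-!
# MP_25e40f_pr, stream D, job PKa: the transform of `ps`

`nb_iff` (job SYa): `(x, j) ∈ nb (0, i)` iff (`x ∈ nbZ n 0` and `j = i`) or (`x = 0` and `H.Adj i j`). `mem_nbZ`: the points of `nbZ n 0` are `± e_l := update 0 l (± 1)`, which are pairwise different: so for any `F`, `∑' x, (if x ∈ nbZ n 0 then p else 0) * F x = p ∑ l, (F (e_l) + F (-e_l))` (`nbZ_sum`; `tsum_eq_sum` over the finset `nbZ n 0`, which is the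
 image of an injective map on `Fin n × Bool`: `Finset.sum_image`, `Fintype.sum_prod_type`, `Fintype.sum_bool`).
`FM_ps_entry`: `FM ps k i j = (if i = j then Ck p k else 0) + (if H.Adj i j then p else 0)`: `ch k (e_l) + ch k (-e_l) = 2 cos (k l)` (`dot k e_l = k l`), `ch k 0 = 1`, and `0 ∉ nbZ n 0` (`nbZ_irr`).
`norm_FM_ps`: `norm_le_rows_cols` with row sums `≤ |Ck p k| + p * card (neighbours of i in H) ≤ |Ck p k| + 2 p` (the columns: `H.symm`).
`FM_ps_om1`: the entries of `om e 1 ps`: `x e * ps`: only `x = ± e_e` contribute, `i = j`: `FT = p (ch k e_e - ch k (-e_e)) = 2 i p sin (k e)`, so the matrix is `(2 i p sin (k e)) • 1`, norm `≤ 2 p |sin (k e)| ≤ 2 p |k e|` (`norm_smul_one_le`, `Real.abs_sin_le_abs` or `Real.abs_sin_le`...).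
`FM_ps_om2`: in the same way `(2 p cos (k e)) • 1`.
-/

set_option autoImplicit false
set_option linter.unusedSectionVars false

noncomputable section

open Finset
open scoped Classical Matrix.Norms.L2Operator

namespace IPC.BS

open IPC.Fo

variable {n : ℕ} {ι : Type} [Fintype ι] [DecidableEq ι] {H : SimpleGraph ι} {p : ℝ}

theorem nbZ_sum (p : ℝ) (F : (Fin n → ℤ) → ℂ) : ∑' x, (((if x ∈ nbZ n 0 then p else 0 : ℝ) : ℂ)) * F x =
    p * ∑ l : Fin n, (F (Function.update 0 l 1) + F (Function.update 0 l (-1))) := by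
  rw [tsum_eq_sum (s := nbZ n 0)]
  · have h1 : ∀ x ∈ nbZ n 0, (((if x ∈ nbZ n 0 then p else 0 : ℝ) : ℂ)) * F x = p * F x := by
      intro x hx
      rw [if_pos hx]
    rw [Finset.sum_congr rfl h1, ← Finset.mul_sum]
    congr 1
    unfold nbZ
    rw [Finset.sum_image, Fintype.sum_prod_type]
    · refine Finset.sum_congr rfl fun l _ => ?_
      rw [Fintype.sum_bool]
      simp
    · rintro ⟨i, b⟩ - ⟨j, c⟩ - h
      beta_reduce at h
      have hs : ∀ b : Bool, ((0 : Fin n → ℤ) i + if b = true then (1 : ℤ) else -1) ≠ 0 := by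
        intro b
        cases b <;> simp
      have h2 := congrFun h i
      rw [Function.update_self] at h2
      have hij : i = j := by
        by_contra hne
        rw [Function.update_of_ne hne] at h2
        exact hs b h2
      subst hij
      rw [Function.update_self] at h2
      cases b <;> cases c <;> simp at h2 ⊢
  · intro x hx
    rw [if_neg hx, Complex.ofReal_zero, zero_mul]

private theorem PKa_ps (x : Fin n → ℤ) (i j : ι) : ps n ι H p x i j =
    (if i = j then (if x ∈ nbZ n 0 then p else 0) else 0) +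
      (if x = 0 then (if H.Adj i j then p else 0) else 0) := by
  unfold ps
  have h1 := nb_iff (H := H) ((0 : Fin n → ℤ), i) (x, j)
  have h2 : ((x, j) : (Fin n → ℤ) × ι) ∈ (Wg n ι H).nb (0, i) ↔
      (x ∈ nbZ n 0 ∧ i = j) ∨ (x = 0 ∧ H.Adj i j) := by
    rw [h1]
    exact or_congr (and_congr_right fun _ => eq_comm) Iff.rfl
  by_cases h0 : x = 0
  · have h3 : x ∉ nbZ n 0 := by
      rw [h0]
      exact nbZ_irr n 0
    have h4 : ((x, j) : (Fin n → ℤ) × ι) ∈ (Wg n ι H).nb (0, i) ↔ H.Adj i j := by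
      rw [h2]
      constructor
      · rintro (h | h)
        · exact absurd h.1 h3
        · exact h.2
      · exact fun h => Or.inr ⟨h0, h⟩
    rw [if_neg h3, if_pos h0, ite_self, zero_add]
    exact if_congr h4 rfl rfl
  · have h4 : ((x, j) : (Fin n → ℤ) × ι) ∈ (Wg n ι H).nb (0, i) ↔ x ∈ nbZ n 0 ∧ i = j := by
      rw [h2]
      constructor
      · rintro (h | h)
        · exact h
        · exact absurd h.1 h0
      · exact fun h => Or.inl h
    rw [if_neg h0, add_zero]
    by_cases hij : i = j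
    · rw [if_pos hij]
      refine if_congr (h4.trans ?_) rfl rfl
      exact ⟨fun h => h.1, fun h => ⟨h, hij⟩⟩
    · rw [if_neg hij, if_neg]
      rw [h4]
      exact fun h => hij h.2

private theorem PKa_FT (w : (Fin n → ℤ) → ℝ) (k : Fin n → ℝ) (i j : ι) :
    FT (fun x => w x * ps n ι H p x i j) k =
      (if i = j then (p : ℂ) * ∑ l : Fin n, ((w (Function.update 0 l 1) : ℂ) * ch k (Function.update 0 l 1) +
        (w (Function.update 0 l (-1)) : ℂ) * ch k (Function.update 0 l (-1))) else 0) +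
      (if H.Adj i j then (p : ℂ) * (w 0 : ℂ) else 0) := by
  have h1 : ∀ x, ((w x * ps n ι H p x i j : ℝ) : ℂ) * ch k x =
      (if i = j then (1 : ℂ) else 0) * ((((if x ∈ nbZ n 0 then p else 0 : ℝ) : ℂ)) * ((w x : ℂ) * ch k x)) +
        (if x = 0 then (if H.Adj i j then (p : ℂ) * (w 0 : ℂ) else 0) else 0) := by
    intro x
    rw [PKa_ps]
    by_cases h0 : x = 0
    · have h3 : x ∉ nbZ n 0 := by
        rw [h0]
        exact nbZ_irr n 0
      rw [if_neg h3, if_pos h0, if_pos h0, ite_self, zero_add, Complex.ofReal_zero, zero_mul, mul_zero,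
        zero_add, h0, ch_zero, mul_one]
      by_cases hA : H.Adj i j
      · rw [if_pos hA, if_pos hA]
        push_cast
        ring
      · rw [if_neg hA, if_neg hA, mul_zero, Complex.ofReal_zero]
    · rw [if_neg h0, if_neg h0, add_zero, add_zero]
      by_cases hij : i = j
      · rw [if_pos hij, if_pos hij, one_mul]
        push_cast
        ring
      · rw [if_neg hij, if_neg hij, mul_zero, Complex.ofReal_zero, zero_mul, zero_mul]
  have hs1 : Summable fun x => (if i = j then (1 : ℂ) else 0) *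
      ((((if x ∈ nbZ n 0 then p else 0 : ℝ) : ℂ)) * ((w x : ℂ) * ch k x)) := by
    refine summable_of_ne_finset_zero (s := nbZ n 0) fun x hx => ?_
    rw [if_neg hx, Complex.ofReal_zero, zero_mul, mul_zero]
  have hs2 : Summable fun x : Fin n → ℤ =>
      (if x = 0 then (if H.Adj i j then (p : ℂ) * (w 0 : ℂ) else 0) else 0) := by
    refine summable_of_ne_finset_zero (s := {0}) fun x hx => ?_
    rw [if_neg]
    rintro rfl
    exact hx (Finset.mem_singleton_self _)
  unfold FT
  rw [tsum_congr h1, hs1.tsum_add hs2, tsum_mul_left, nbZ_sum, tsum_ite_eq]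
  congr 1
  by_cases hij : i = j
  · rw [if_pos hij, if_pos hij, one_mul]
  · rw [if_neg hij, if_neg hij, zero_mul]

private theorem PKa_dot (k : Fin n → ℝ) (l : Fin n) (s : ℤ) : dot k (Function.update 0 l s) = k l * s := by
  unfold dot
  rw [Finset.sum_eq_single l]
  · rw [Function.update_self]
  · intro m _ hm
    rw [Function.update_of_ne hm, Pi.zero_apply, Int.cast_zero, mul_zero]
  · exact fun h => absurd (Finset.mem_univ l) h

private theorem PKa_cos (k : Fin n → ℝ) (l : Fin n) :
    ch k (Function.update 0 l 1) + ch k (Function.update 0 l (-1)) = ((2 * Real.cos (k l) : ℝ) : ℂ) := by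
  unfold ch
  rw [PKa_dot, PKa_dot]
  push_cast
  rw [Complex.two_cos, mul_one]
  congr 2
  ring

private theorem PKa_sin (k : Fin n → ℝ) (l : Fin n) :
    ch k (Function.update 0 l 1) - ch k (Function.update 0 l (-1)) =
      ((2 * Real.sin (k l) : ℝ) : ℂ) * Complex.I := by
  unfold ch
  rw [PKa_dot, PKa_dot]
  push_cast
  rw [Complex.two_sin, mul_one]
  have h1 : (k l : ℂ) * -1 * Complex.I = -(k l : ℂ) * Complex.I := by ring
  rw [h1]
  linear_combination (Complex.exp ((k l : ℂ) * Complex.I) - Complex.exp (-(k l : ℂ) * Complex.I)) *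
    Complex.I_mul_I

theorem FM_ps_entry (k : Fin n → ℝ) (i j : ι) : FM (ps n ι H p) k i j =
    (if i = j then ((Ck p k : ℝ) : ℂ) else 0) + (if H.Adj i j then ((p : ℝ) : ℂ) else 0) := by
  have h1 := PKa_FT (H := H) (p := p) (fun _ => 1) k i j
  have h2 : (fun x => (fun _ => (1 : ℝ)) x * ps n ι H p x i j) = fun x => ps n ι H p x i j := by
    funext x
    exact one_mul _
  rw [h2] at h1
  show FT (fun x => ps n ι H p x i j) k = _
  rw [h1]
  simp only [Complex.ofReal_one, one_mul, mul_one]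
  congr 1
  refine if_congr Iff.rfl ?_ rfl
  simp only [PKa_cos]
  rw [← Complex.ofReal_sum, ← Complex.ofReal_mul]
  congr 1
  unfold Ck
  rw [← Finset.mul_sum]
  ring

theorem norm_FM_ps (hdeg : ∀ i, (Finset.univ.filter fun j => H.Adj i j).card ≤ 2) (hp0 : 0 ≤ p) (k : Fin n → ℝ) :
    ‖FM (ps n ι H p) k‖ ≤ |Ck p k| + 2 * p := by
  have hE : ∀ i j, ‖FM (ps n ι H p) k i j‖ ≤ (if i = j then |Ck p k| else 0) + (if H.Adj i j then p else 0) := by
    intro i j
    rw [FM_ps_entry]
    refine (norm_add_le _ _).trans (add_le_add (le_of_eq ?_) (le_of_eq ?_))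
    · split_ifs
      · rw [Complex.norm_real, Real.norm_eq_abs]
      · exact norm_zero
    · split_ifs
      · rw [Complex.norm_real, Real.norm_eq_abs, abs_of_nonneg hp0]
      · exact norm_zero
  have hsum : ∀ i, ∑ j, (if H.Adj i j then p else 0) ≤ 2 * p := by
    intro i
    rw [← Finset.sum_filter, Finset.sum_const, nsmul_eq_mul]
    refine mul_le_mul_of_nonneg_right ?_ hp0
    exact_mod_cast hdeg i
  have hc : ∀ i j, (if H.Adj i j then p else 0) = (if H.Adj j i then p else 0) := fun i j =>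
    if_congr (H.adj_comm i j) rfl rfl
  refine norm_le_rows_cols (by positivity) (fun i => ?_) (fun j => ?_)
  · refine (Finset.sum_le_sum fun j _ => hE i j).trans ?_
    rw [Finset.sum_add_distrib, Finset.sum_ite_eq, if_pos (Finset.mem_univ i)]
    exact add_le_add le_rfl (hsum i)
  · refine (Finset.sum_le_sum fun i _ => hE i j).trans ?_
    rw [Finset.sum_add_distrib, Finset.sum_ite_eq', if_pos (Finset.mem_univ j)]
    refine add_le_add le_rfl ?_
    rw [Finset.sum_congr rfl fun i _ => hc i j]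
    exact hsum j

theorem FM_ps_diff (k : Fin n → ℝ) : FM (ps n ι H p) 0 - FM (ps n ι H p) k =
    ((Ck p (0 : Fin n → ℝ) - Ck p k : ℝ) : ℂ) • (1 : Matrix ι ι ℂ) := by
  ext i j
  rw [Matrix.sub_apply, FM_ps_entry, FM_ps_entry, Matrix.smul_apply, Matrix.one_apply, smul_eq_mul]
  by_cases hij : i = j
  · rw [if_pos hij, if_pos hij, if_pos hij]
    push_cast
    ring
  · rw [if_neg hij, if_neg hij, if_neg hij]
    ring

private theorem PKa_w (e : Fin n) (a : ℕ) (l : Fin n) (s : ℤ) (ha : a ≠ 0) :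
    ((Function.update (0 : Fin n → ℤ) l s e : ℤ) : ℝ) ^ a = if l = e then (s : ℝ) ^ a else 0 := by
  by_cases h : l = e
  · rw [if_pos h, ← h, Function.update_self]
  · rw [if_neg h, Function.update_of_ne (Ne.symm h), Pi.zero_apply, Int.cast_zero, zero_pow ha]

private theorem PKa_om (e : Fin n) {a : ℕ} (ha : a ≠ 0) (k : Fin n → ℝ) : FM (om e a (ps n ι H p)) k =
    ((p : ℂ) * (ch k (Function.update 0 e 1) + (-1) ^ a * ch k (Function.update 0 e (-1)))) •
      (1 : Matrix ι ι ℂ) := by
  ext i j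
  rw [Matrix.smul_apply, Matrix.one_apply, smul_eq_mul]
  have h1 := PKa_FT (H := H) (p := p) (fun x => (x e : ℝ) ^ a) k i j
  have h2 : FM (om e a (ps n ι H p)) k i j = FT (fun x => (fun x => (x e : ℝ) ^ a) x * ps n ι H p x i j) k := rfl
  rw [h2, h1]
  simp only [PKa_w e a _ _ ha]
  rw [Pi.zero_apply, Int.cast_zero, zero_pow ha, Complex.ofReal_zero, mul_zero, ite_self, add_zero]
  by_cases hij : i = j
  · rw [if_pos hij, if_pos hij, mul_one]
    congr 1
    rw [Finset.sum_eq_single e]
    · rw [if_pos rfl, if_pos rfl]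
      push_cast
      rw [one_pow, one_mul]
    · intro l _ hl
      rw [if_neg hl, if_neg hl, Complex.ofReal_zero, zero_mul, zero_mul, add_zero]
    · exact fun h => absurd (Finset.mem_univ e) h
  · rw [if_neg hij, if_neg hij, mul_zero]

theorem FM_ps_om1 (hp0 : 0 ≤ p) (e : Fin n) (k : Fin n → ℝ) : ‖FM (om e 1 (ps n ι H p)) k‖ ≤ 2 * p * |k e| := by
  rw [PKa_om e one_ne_zero k]
  have h1 : ch k (Function.update 0 e 1) + (-1) ^ 1 * ch k (Function.update 0 e (-1)) =
      ((2 * Real.sin (k e) : ℝ) : ℂ) * Complex.I := by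
    rw [← PKa_sin]
    ring
  rw [h1]
  refine (norm_smul_one_le _).trans ?_
  rw [norm_mul, norm_mul, Complex.norm_I, mul_one, Complex.norm_real, Complex.norm_real, Real.norm_eq_abs,
    Real.norm_eq_abs, abs_of_nonneg hp0, abs_mul, abs_two]
  have h2 : |Real.sin (k e)| ≤ |k e| := Real.abs_sin_le_abs
  nlinarith [mul_le_mul_of_nonneg_left h2 hp0]

theorem FM_ps_om2 (e : Fin n) (k : Fin n → ℝ) : FM (om e 2 (ps n ι H p)) k =
    ((2 * p * Real.cos (k e) : ℝ) : ℂ) • (1 : Matrix ι ι ℂ) := by
  rw [PKa_om e two_ne_zero k]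
  have h1 : ch k (Function.update 0 e 1) + (-1) ^ 2 * ch k (Function.update 0 e (-1)) =
      ((2 * Real.cos (k e) : ℝ) : ℂ) := by
    rw [← PKa_cos]
    ring
  rw [h1]
  congr 1
  push_cast
  ring

end IPC.BS
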