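import Pool.Agent.Lib.MP_25e40f_pr.D.POa
import Pool.Agent.Lib.MP_25e40f_pr.D.TMa
import Pool.Agent.Lib.MP_25e40f_pr.D.SYb
import Pool.Agent.Lib.MP_25e40f_pr.D.NMa

/-!
# MP_25e40f_pr, stream D, job POb: positivity of the transform

Let `B R = Fintype.piFinset (fun _ => Icc (-R) R)` (box with `(2R+1)^n` points) and `D = B R ×ˢ univ`, `f (x, i) = ch k x * v i` (`ch` of E/Fou.lean, `‖ch k x‖ = 1`). `tau_pos_fin` with `Δ = 2n+2` (`degW`), `tau_ts`:
 `(1-p)^(2n+2) (2R+1)^n nq v ≤ ∑_{x,y ∈ B R} φ (y - x)`, `φ z = (∑_i ∑_j conj (v i) v j ch k z ts z i j).re` (`star (ch k x) * ch k y = ch k (y - x)`: `ch_neg`, `ch_add`).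
`box_avg` (general): for `φ : (Fin n → ℤ) → ℝ` summable (absolutely): `(∑_{x,y ∈ B R} φ (y - x)) / (2R+1)^n → ∑' z, φ z` as `R → ∞`. Proof: `∑_{x,y ∈ B R} φ (y - x) = ∑' z, N_R z * φ z` with `N_R z = #{x ∈ B R : x + z ∈ B R}` (reindex `y = x + z`; finite sums: `Finset.sum_comm`, `Finset.sum_fiberwise`, or write `∑_{y ∈ B R} φ (y - x) = ∑' z, (if x + z ∈ B R then φ z else 0)`
 (`tsum_eq_sum`, translation `Equiv.addLeft`) and exchange the finite sum over `x` with `∑'`). `N_R z / (2R+1)^n ≤ 1`, and it tends to `1` for fixed `z`: `N_R z ≥ #B (R - m) = (2(R-m)+1)^n` for `R ≥ m`, `m = max |z_i|` (if `x ∈ B (R-m)` then `x + z ∈ B R`). Dominated convergence for sums: `tendsto_tsum_of_dominated_convergence` with the bound `|φ z|`.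
`ts_pos`: divide by `(2R+1)^n` and let `R → ∞` (`ge_of_tendsto'`); `∑' z, φ z = qf (FM (ts ..) k) v`: `FT` of the entries, `Complex.re_tsum` (`Complex.reCLM`), finite sums and `tsum` exchanged (`Summable.tsum_finsetSum`), summability from `Mm_ts .. 0` (`Mo.s1`, `S1.ft`).
-/

set_option autoImplicit false
set_option linter.unusedSectionVars false

noncomputable section

open Finset
open scoped Classical Matrix.Norms.L2Operator

namespace IPC.BS

open IPC.Fo

variable {n : ℕ}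

/-- the box -/
def Bx (n : ℕ) (R : ℕ) : Finset (Fin n → ℤ) := Fintype.piFinset fun _ => Finset.Icc (-(R : ℤ)) R

private theorem POb_mem_bx {n r : ℕ} {x : Fin n → ℤ} : x ∈ Bx n r ↔ ∀ i, -(r : ℤ) ≤ x i ∧ x i ≤ r := by
  unfold Bx
  rw [Fintype.mem_piFinset]
  exact forall_congr' fun i => Finset.mem_Icc

private theorem POb_card_bx (n r : ℕ) : ((Bx n r).card : ℝ) = (2 * r + 1 : ℝ) ^ n := by
  unfold Bx
  rw [Fintype.card_piFinset, Finset.prod_const, Finset.card_univ, Fintype.card_fin, Int.card_Icc]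
  have h : ((r : ℤ) + 1 - -(r : ℤ)).toNat = 2 * r + 1 := by omega
  rw [h]
  push_cast
  ring

/-- the fraction of the points `x` of the box with `x + z` in the box -/
private def POb_fr (n r : ℕ) (z : Fin n → ℤ) : ℝ := ((Bx n r).filter fun x => x + z ∈ Bx n r).card / (Bx n r).card

private theorem POb_fr_nonneg (n r : ℕ) (z : Fin n → ℤ) : 0 ≤ POb_fr n r z := by
  unfold POb_fr
  positivity

private theorem POb_card_bx_pos (n r : ℕ) : (0 : ℝ) < (Bx n r).card := by
  rw [POb_card_bx]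
  positivity

private theorem POb_fr_le_one (n r : ℕ) (z : Fin n → ℤ) : POb_fr n r z ≤ 1 := by
  unfold POb_fr
  rw [div_le_one (POb_card_bx_pos n r)]
  exact_mod_cast Finset.card_filter_le _ _

private theorem POb_fr_ge {n r m : ℕ} {z : Fin n → ℤ} (hz : z ∈ Bx n m) (hr : m ≤ r) :
    ((2 * ((r : ℝ) - m) + 1) / (2 * r + 1)) ^ n ≤ POb_fr n r z := by
  unfold POb_fr
  rw [div_pow, ← POb_card_bx n r]
  refine div_le_div_of_nonneg_right ?_ (POb_card_bx_pos n r).le
  have h1 : Bx n (r - m) ⊆ (Bx n r).filter fun x => x + z ∈ Bx n r := by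
    intro x hx
    rw [POb_mem_bx] at hx hz
    rw [Finset.mem_filter, POb_mem_bx, POb_mem_bx]
    constructor
    · intro i
      have := hx i
      omega
    · intro i
      have h2 := hx i
      have h3 := hz i
      rw [Pi.add_apply]
      omega
  have h2 : ((Bx n (r - m)).card : ℝ) ≤ (((Bx n r).filter fun x => x + z ∈ Bx n r).card : ℝ) := by
    exact_mod_cast Finset.card_le_card h1
  rw [POb_card_bx, Nat.cast_sub hr] at h2
  exact h2

private theorem POb_fr_tendsto (n : ℕ) (z : Fin n → ℤ) : Filter.Tendsto (fun r => POb_fr n r z) Filter.atTop (nhds 1) := by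
  obtain ⟨m, hm⟩ := box_cover n z
  have hz : z ∈ Bx n m := hm
  have h1 : Filter.Tendsto (fun r : ℕ => ((2 * ((r : ℝ) - m) + 1) / (2 * r + 1)) ^ n) Filter.atTop (nhds 1) := by
    have h2 : Filter.Tendsto (fun r : ℕ => (2 * ((r : ℝ) - m) + 1) / (2 * r + 1)) Filter.atTop (nhds 1) := by
      have h3 : ∀ r : ℕ, (2 * ((r : ℝ) - m) + 1) / (2 * r + 1) = 1 - (2 * m) / (2 * r + 1) := by
        intro r
        have : (2 * (r : ℝ) + 1) ≠ 0 := by positivity
        field_simp
        ring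
      simp only [h3]
      have h4 : Filter.Tendsto (fun r : ℕ => (2 * (m : ℝ)) / (2 * r + 1)) Filter.atTop (nhds 0) := by
        refine Filter.Tendsto.const_div_atTop ?_ _
        refine Filter.tendsto_atTop_add_const_right _ _ ?_
        exact Filter.Tendsto.const_mul_atTop (by norm_num) tendsto_natCast_atTop_atTop
      have h5 := (tendsto_const_nhds (x := (1 : ℝ))).sub h4
      rwa [sub_zero] at h5
    have h6 := h2.pow n
    rwa [one_pow] at h6
  refine tendsto_of_tendsto_of_tendsto_of_le_of_le' h1 tendsto_const_nhds ?_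
    (Filter.Eventually.of_forall fun r => POb_fr_le_one n r z)
  filter_upwards [Filter.eventually_ge_atTop m] with r hr
  exact POb_fr_ge hz hr

/-- the double sum over a box of a function of the difference -/
private theorem POb_box_sum {n : ℕ} (r : ℕ) {F : (Fin n → ℤ) → ℂ} (hF : Summable F) :
    ((Bx n r).card : ℂ)⁻¹ * ∑ x ∈ Bx n r, ∑ y ∈ Bx n r, F (y - x) = ∑' z, (POb_fr n r z : ℂ) * F z := by
  have e1 : ∀ x, ∑ y ∈ Bx n r, F (y - x) = ∑' z, if x + z ∈ Bx n r then F z else 0 := by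
    intro x
    have h1 : ∑ y ∈ Bx n r, F (y - x) = ∑' y, if y ∈ Bx n r then F (y - x) else 0 := by
      rw [tsum_eq_sum (s := Bx n r) (fun y hy => if_neg hy)]
      exact Finset.sum_congr rfl fun y hy => (if_pos hy).symm
    rw [h1, ← (Equiv.addLeft x).tsum_eq]
    refine tsum_congr fun z => ?_
    show (if x + z ∈ Bx n r then F (x + z - x) else 0) = _
    rw [add_sub_cancel_left]
  have hs : ∀ x, Summable fun z => if x + z ∈ Bx n r then F z else 0 := by
    intro x
    refine Summable.of_norm_bounded hF.norm fun z => ?_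
    split_ifs
    · exact le_rfl
    · rw [norm_zero]
      exact norm_nonneg _
  simp only [e1]
  rw [← Summable.tsum_finsetSum (fun x _ => hs x), ← tsum_mul_left]
  refine tsum_congr fun z => ?_
  rw [← Finset.sum_filter, Finset.sum_const, nsmul_eq_mul]
  unfold POb_fr
  push_cast
  rw [← mul_assoc, div_eq_inv_mul]

private theorem POb_box_avgC {n : ℕ} {F : (Fin n → ℤ) → ℂ} (hF : Summable F) :
    Filter.Tendsto (fun r => ((Bx n r).card : ℂ)⁻¹ * ∑ x ∈ Bx n r, ∑ y ∈ Bx n r, F (y - x)) Filter.atTop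
      (nhds (∑' z, F z)) := by
  simp only [fun r => POb_box_sum r hF]
  refine tendsto_tsum_of_dominated_convergence (bound := fun z => ‖F z‖) hF.norm ?_ ?_
  · intro z
    have h1 : Filter.Tendsto (fun r => (POb_fr n r z : ℂ)) Filter.atTop (nhds ((1 : ℝ) : ℂ)) :=
      (Complex.continuous_ofReal.tendsto _).comp (POb_fr_tendsto n z)
    have h2 := h1.mul_const (F z)
    rwa [Complex.ofReal_one, one_mul] at h2
  · refine Filter.Eventually.of_forall fun r z => ?_
    rw [norm_mul, Complex.norm_real, Real.norm_eq_abs, abs_of_nonneg (POb_fr_nonneg n r z)]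
    exact mul_le_of_le_one_left (norm_nonneg _) (POb_fr_le_one n r z)


theorem box_avg {φ : (Fin n → ℤ) → ℝ} (hφ : Summable fun z => |φ z|) :
    Filter.Tendsto (fun R : ℕ => (∑ x ∈ Bx n R, ∑ y ∈ Bx n R, φ (y - x)) / (2 * (R : ℝ) + 1) ^ n) Filter.atTop
      (nhds (∑' z, φ z)) := by
  have hF : Summable fun z => ((φ z : ℝ) : ℂ) := Complex.ofRealCLM.summable (Summable.of_abs hφ)
  have h1 := (Complex.continuous_re.tendsto _).comp (POb_box_avgC hF)
  have e1 : (∑' z, ((φ z : ℝ) : ℂ)).re = ∑' z, φ z := by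
    rw [← Complex.ofReal_tsum, Complex.ofReal_re]
  rw [e1] at h1
  refine h1.congr fun R => ?_
  show (((Bx n R).card : ℂ)⁻¹ * ∑ x ∈ Bx n R, ∑ y ∈ Bx n R, ((φ (y - x) : ℝ) : ℂ)).re = _
  rw [← POb_card_bx n R]
  have e2 : ((Bx n R).card : ℂ)⁻¹ * ∑ x ∈ Bx n R, ∑ y ∈ Bx n R, ((φ (y - x) : ℝ) : ℂ) =
      (((∑ x ∈ Bx n R, ∑ y ∈ Bx n R, φ (y - x)) / ((Bx n R).card : ℝ) : ℝ) : ℂ) := by
    push_cast
    rw [div_eq_inv_mul]
  rw [e2, Complex.ofReal_re]

variable {ι : Type} [Fintype ι] [DecidableEq ι] {H : SimpleGraph ι} {p : ℝ}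

theorem ts_pos (hdeg : ∀ i, (Finset.univ.filter fun j => H.Adj i j).card ≤ 2) (hn : 1 ≤ n) (hp0 : 0 ≤ p)
    (hp : p < (Wg n ι H).pc) (hp2 : p ≤ 1 / 2) (k : Fin n → ℝ) (v : ι → ℂ) :
    (1 - p) ^ (2 * n + 2) * nq v ≤ qf (FM (ts n ι H p) k) v := by
  have h1 : p ≤ 1 := by linarith
  have hS : ∀ i j, S1 (fun x => ts n ι H p x i j) := fun i j => (Mm_ts hn hp0 hp hp2 0 i j).s1
  set F : (Fin n → ℤ) → ℂ := fun z =>
    ∑ i, ∑ j, (starRingEnd ℂ) (v i) * v j * ((ts n ι H p z i j : ℝ) : ℂ) * ch k z with hFdef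
  have hsum : ∀ i j, Summable fun z : Fin n → ℤ =>
      (starRingEnd ℂ) (v i) * v j * ((ts n ι H p z i j : ℝ) : ℂ) * ch k z := by
    intro i j
    have h2 := ((hS i j).ft k).mul_left ((starRingEnd ℂ) (v i) * v j)
    refine h2.congr fun z => ?_
    ring
  have hF : Summable F := summable_sum fun i _ => summable_sum fun j _ => hsum i j
  have hFT : ∑' z, F z = ∑ i, ∑ j, (starRingEnd ℂ) (v i) * FM (ts n ι H p) k i j * v j := by
    rw [hFdef, Summable.tsum_finsetSum (fun i _ => summable_sum fun j _ => hsum i j)]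
    refine Finset.sum_congr rfl fun i _ => ?_
    rw [Summable.tsum_finsetSum (fun j _ => hsum i j)]
    refine Finset.sum_congr rfl fun j _ => ?_
    have h3 : FM (ts n ι H p) k i j = ∑' z, ((ts n ι H p z i j : ℝ) : ℂ) * ch k z := rfl
    rw [h3, ← tsum_mul_left, ← tsum_mul_right]
    refine tsum_congr fun z => ?_
    ring
  have hlim := (Complex.continuous_re.tendsto _).comp (POb_box_avgC hF)
  have hgoal : (1 - p) ^ (2 * n + 2) * nq v ≤ (∑' z, F z).re := by
    refine ge_of_tendsto hlim (Filter.Eventually.of_forall fun r => ?_)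
    show (1 - p) ^ (2 * n + 2) * nq v ≤ (((Bx n r).card : ℂ)⁻¹ * ∑ x ∈ Bx n r, ∑ y ∈ Bx n r, F (y - x)).re
    have h4 := tau_pos_fin (Wg n ι H) hp0 h1 (degW hdeg) (Bx n r ×ˢ (Finset.univ : Finset ι))
      (fun a => v a.2 * ch k a.1)
    have e1 : ∑ a ∈ Bx n r ×ˢ (Finset.univ : Finset ι), ‖v a.2 * ch k a.1‖ ^ 2 =
        ((Bx n r).card : ℝ) * nq v := by
      rw [Finset.sum_product]
      have : ∀ x ∈ Bx n r, ∑ i : ι, ‖v i * ch k x‖ ^ 2 = nq v := by
        intro x _
        unfold nq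
        refine Finset.sum_congr rfl fun i _ => ?_
        rw [norm_mul, norm_ch, mul_one]
      rw [Finset.sum_congr rfl this, Finset.sum_const, nsmul_eq_mul]
    have e2 : ∑ a ∈ Bx n r ×ˢ (Finset.univ : Finset ι), ∑ b ∈ Bx n r ×ˢ (Finset.univ : Finset ι),
        (star (v a.2 * ch k a.1) * (v b.2 * ch k b.1)).re * (Wg n ι H).tau p a b =
        (∑ x ∈ Bx n r, ∑ y ∈ Bx n r, F (y - x)).re := by
      rw [Complex.re_sum, Finset.sum_product]
      refine Finset.sum_congr rfl fun x _ => ?_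
      rw [Complex.re_sum]
      rw [Finset.sum_comm' (s := (Finset.univ : Finset ι)) (t := fun _ => Bx n r ×ˢ (Finset.univ : Finset ι))
        (t' := Bx n r ×ˢ (Finset.univ : Finset ι)) (s' := fun _ => (Finset.univ : Finset ι))
        (by intro a b; simp)]
      rw [Finset.sum_product]
      refine Finset.sum_congr rfl fun y _ => ?_
      rw [Finset.sum_comm]
      show _ = (∑ i, ∑ j, (starRingEnd ℂ) (v i) * v j * ((ts n ι H p (y - x) i j : ℝ) : ℂ) * ch k (y - x)).re
      rw [Complex.re_sum]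
      refine Finset.sum_congr rfl fun i _ => ?_
      rw [Complex.re_sum]
      refine Finset.sum_congr rfl fun j _ => ?_
      show (star (v i * ch k x) * (v j * ch k y)).re * (Wg n ι H).tau p (x, i) (y, j) =
        ((starRingEnd ℂ) (v i) * v j * ((ts n ι H p (y - x) i j : ℝ) : ℂ) * ch k (y - x)).re
      rw [tau_ts hp0 h1, ← Complex.re_mul_ofReal]
      congr 1
      show (starRingEnd ℂ) (v i * ch k x) * (v j * ch k y) * ((ts n ι H p (y - x) i j : ℝ) : ℂ) =
        (starRingEnd ℂ) (v i) * v j * ((ts n ι H p (y - x) i j : ℝ) : ℂ) * ch k (y - x)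
      rw [sub_eq_add_neg y x, ch_add, ch_neg, map_mul]
      ring
    rw [e1, e2] at h4
    have hc := POb_card_bx_pos n r
    have h5 : (((Bx n r).card : ℂ)⁻¹ * ∑ x ∈ Bx n r, ∑ y ∈ Bx n r, F (y - x)).re =
        ((Bx n r).card : ℝ)⁻¹ * (∑ x ∈ Bx n r, ∑ y ∈ Bx n r, F (y - x)).re := by
      rw [← Complex.re_ofReal_mul]
      push_cast
      rfl
    rw [h5, ← div_eq_inv_mul, le_div_iff₀ hc]
    calc (1 - p) ^ (2 * n + 2) * nq v * ((Bx n r).card : ℝ) =
          (1 - p) ^ (2 * n + 2) * (((Bx n r).card : ℝ) * nq v) := by ring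
      _ ≤ _ := h4
  refine hgoal.trans (le_of_eq ?_)
  rw [hFT]
  rfl

end IPC.BS
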