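import Pool.Agent.Lib.MP_25e40f_pr.D.WDef
import Pool.Agent.Lib.MP_25e40f_pr.D.EXa
import Pool.Agent.Lib.MP_25e40f_pr.D.HEa
import Pool.Agent.Lib.MP_25e40f_pr.D.POb
import Pool.Agent.Lib.MP_25e40f_pr.D.HPa
import Pool.Agent.Lib.MP_25e40f_pr.D.GBb
import Pool.Agent.Lib.MP_25e40f_pr.D.PKa
import Pool.Agent.Lib.MP_25e40f_pr.D.ENa
import Pool.Agent.Lib.MP_25e40f_pr.T.Arm

/-!
# MP_25e40f_pr, stream D, job HWa: the hypotheses `HP` for `ℤⁿ × H`, the bound of `p`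

`hN : NoPerc p` is `T.noPerc_of_lt` (T/Arm.lean) applied to `S.hp0`, `S.hp`; `hfin` from `zz_fin` (`≤ 2 < ⊤`, `2000 * ofReal q ≤ 1`).
`hp_W`: `hT`: `FM_herm` with `ts_symm`; `hP`: `FM_herm` with `ps_symm`; `pos`: `ts_pos` with `c = (1-p)^(2n+2) > 0`; `eq`: `FM_ts_eq` with `gs_mom0`, `Mm_ts .. 0`.
`gs_sym`: `symm_of_herm (gs_mom0 ..) (fun k => (hp_W .. k).hG)`.
`G_near`: `row_norm` for `gs - dm` (`Mm 0`: `gs_mom0`, `Mm_dm`; `Mo.sub` entrywise; symmetry: `gs_sym`, and `dm x i j = dm (-x) j i`), `gs_row`, `FM_sub_dm`.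
`p_bound`: `(hp_W .. 0).test i`: `(FM ps 0 i i).re = Ck p 0 = 2 n p` (`FM_ps_entry`, `H.irrefl`), `near_one` with `r = 97 q < 1`.
-/

set_option autoImplicit false
set_option linter.unusedSectionVars false

noncomputable section

open Finset
open scoped Classical Matrix.Norms.L2Operator

namespace IPC.BS

open IPC.Fo

variable {n : ℕ} {ι : Type} [Fintype ι] [DecidableEq ι] {H : SimpleGraph ι} {p : ℝ}

private theorem HWa_noPerc (S : Std n ι H p) : (Wg n ι H).NoPerc p := T.noPerc_of_lt (Wg n ι H) S.hp0 S.hp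

private theorem HWa_q {q : ℝ} (hq : q ≤ 1 / 2000) : 2000 * ENNReal.ofReal q ≤ 1 := by
  have e : (2000 : ENNReal) = ENNReal.ofReal 2000 := by
    rw [ENNReal.ofReal_ofNat]
  rw [e, ← ENNReal.ofReal_mul (by norm_num), ← ENNReal.ofReal_one]
  exact ENNReal.ofReal_le_ofReal (by linarith)

private theorem HWa_fin (S : Std n ι H p) {q : ℝ} (hq : q ≤ 1 / 2000) (hQ : Qs n ι H p q)
    (x : (Fin n → ℤ) × ι) : ∑' m, ∑' u, ZZ (Wg n ι H) p m {x} Set.univ u ≠ ⊤ := by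
  have h := zz_fin (Wg n ι H) S.hp0 S.hp2 (HWa_noPerc S) (HWa_q hq) hQ x
  exact (lt_of_le_of_lt h (by norm_num)).ne

private theorem HWa_mom (S : Std n ι H p) {q : ℝ} (hq0 : 0 ≤ q) (hq : q ≤ 1 / 2000) (hQ : Qs n ι H p q) :
    Mm 0 (gs n ι H p) := gs_mom0 S.hp0 S.hp2 (HWa_noPerc S) hq0 hq hQ

theorem hp_W (S : Std n ι H p) {q : ℝ} (hq0 : 0 ≤ q) (hq : q ≤ 1 / 2000) (hQ : Qs n ι H p q) (k : Fin n → ℝ) :
    HP (FM (ts n ι H p) k) (FM (gs n ι H p) k) (FM (ps n ι H p) k) := by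
  have h0 := S.hp0
  have h2 := S.hp2
  have h1 : p ≤ 1 := by linarith
  have hn : 1 ≤ n := by
    have := S.hn
    omega
  refine ⟨FM_herm (fun x i j => ts_symm h0 h1 x i j) k, FM_herm (fun x i j => ps_symm x i j) k, ?_, ?_⟩
  · refine ⟨(1 - p) ^ (2 * n + 2), pow_pos (by linarith) _, fun v => ?_⟩
    exact ts_pos S.hdeg hn h0 S.hp h2 k v
  · exact FM_ts_eq S.hdeg h0 h1 (HWa_noPerc S) (HWa_fin S hq hQ) (HWa_mom S hq0 hq hQ)
      (Mm_ts hn h0 S.hp h2 0) k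

theorem gs_sym (S : Std n ι H p) {q : ℝ} (hq0 : 0 ≤ q) (hq : q ≤ 1 / 2000) (hQ : Qs n ι H p q) (x : Fin n → ℤ)
    (i j : ι) : gs n ι H p x i j = gs n ι H p (-x) j i :=
  symm_of_herm (HWa_mom S hq0 hq hQ) (fun k => (hp_W S hq0 hq hQ k).hG) x i j

theorem G_near (S : Std n ι H p) {q : ℝ} (hq0 : 0 ≤ q) (hq : q ≤ 1 / 2000) (hQ : Qs n ι H p q) (k : Fin n → ℝ) :
    ‖FM (gs n ι H p) k - 1‖ ≤ 97 * q := by
  have hm := HWa_mom S hq0 hq hQ
  rw [← FM_sub_dm hm k]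
  apply row_norm
  · intro i j
    exact Mo.sub (hm i j) (Mm_dm 0 i j)
  · intro x i j
    have h1 := gs_sym S hq0 hq hQ x i j
    have h2 : dm n ι x i j = dm n ι (-x) j i := by
      unfold dm del
      by_cases h : i = j
      · rw [if_pos h, if_pos h.symm]
        by_cases hx : x = 0
        · rw [if_pos hx, if_pos (neg_eq_zero.2 hx)]
        · rw [if_neg hx, if_neg (fun h => hx (neg_eq_zero.1 h))]
      · rw [if_neg h, if_neg (fun h' => h h'.symm)]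
    rw [h1, h2]
  · positivity
  · intro i
    exact gs_row S.hp0 S.hp2 (HWa_noPerc S) hq0 hq hQ i

theorem p_bound [Nonempty ι] (S : Std n ι H p) {q : ℝ} (hq0 : 0 ≤ q) (hq : q ≤ 1 / 2000) (hQ : Qs n ι H p q) :
    2 * n * p ≤ 1 / (1 - 97 * q) := by
  obtain ⟨i⟩ := ‹Nonempty ι›
  have hW := hp_W S hq0 hq hQ (0 : Fin n → ℝ)
  have h1 := hW.test i
  have h2 := (near_one hW.isUnit_G (G_near S hq0 hq hQ (0 : Fin n → ℝ)) (by linarith)).1
  have h3 := h1.trans h2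
  rw [FM_ps_entry, if_pos rfl, if_neg (H.irrefl), add_zero, Complex.ofReal_re] at h3
  refine le_trans (le_of_eq ?_) h3
  unfold Ck
  simp only [Pi.zero_apply, Real.cos_zero, Finset.sum_const, Finset.card_univ, Fintype.card_fin, nsmul_eq_mul, mul_one]
  ring

end IPC.BS
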