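import Pool.Agent.Lib.MP_25e40f_pr.D.NMa

/-!
# MP_25e40f_pr, stream D, job NMb: inverses and norms

`qf_pos_of`: `nq v = 0` iff `v = 0`.
`norm_le_of_inv`: let `v` be given and `w = T *ᵥ v`. Then `T⁻¹ *ᵥ w = v` (`IsUnit T`, `Matrix.nonsing_inv_mul`), so `qf T⁻¹ w = re (sum_i conj (w i) (T⁻¹ *ᵥ w) i) = re (sum_i conj (w i) v i) ≤ sqrt (nq w) sqrt (nq v)` (Cauchy-Schwarz). With the hypothesis `c nq w ≤ sqrt (nq w) sqrt (nq v)`, hence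
 `c sqrt (nq w) ≤ sqrt (nq v)` (also if `nq w = 0`), that is `nq (T *ᵥ v) ≤ (1/c)^2 nq v`; `norm_le_of_nq`. (`T` need not be Hermitian.)
`near_one`: `G⁻¹ - 1 = G⁻¹ * (1 - G)` (as `G⁻¹ * G = 1`), so `‖G⁻¹ - 1‖ ≤ ‖G⁻¹‖ r` (`norm_mul_le`, `norm_sub_rev`) and `‖G⁻¹‖ ≤ 1 + ‖G⁻¹‖ r` (`norm_one_le`), so `‖G⁻¹‖ ≤ 1/(1-r)`, and then `‖G⁻¹ - 1‖ ≤ r/(1-r)`.
`inv_diff`: `G⁻¹ - K⁻¹ = G⁻¹ * (K - G) * K⁻¹`.
-/

set_option autoImplicit false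
set_option linter.unusedSectionVars false

noncomputable section

open Finset
open scoped Classical Matrix.Norms.L2Operator

namespace IPC.BS

open IPC.Fo

variable {ι : Type} [Fintype ι] [DecidableEq ι]

private lemma NMb_det {T : Matrix ι ι ℂ} (hu : IsUnit T) : IsUnit T.det :=
  (Matrix.isUnit_iff_isUnit_det T).mp hu

theorem norm_le_of_inv {T : Matrix ι ι ℂ} (hu : IsUnit T) {c : ℝ} (hc : 0 < c)
    (h : ∀ v, c * nq v ≤ qf T⁻¹ v) : ‖T‖ ≤ 1 / c := by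
  have hd := NMb_det hu
  apply norm_le_of_nq (by positivity)
  intro v
  set w := T.mulVec v with hw
  have hv : T⁻¹.mulVec w = v := by
    rw [hw, Matrix.mulVec_mulVec, Matrix.nonsing_inv_mul _ hd, Matrix.one_mulVec]
  have h1 : qf T⁻¹ w = (∑ i, (starRingEnd ℂ) (w i) * v i).re := by
    unfold qf
    congr 1
    refine Finset.sum_congr rfl fun i _ => ?_
    rw [← congrFun hv i]
    simp only [Matrix.mulVec, dotProduct, Finset.mul_sum, mul_assoc]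
  have h2 : qf T⁻¹ w ≤ ∑ i, ‖w i‖ * ‖v i‖ := by
    rw [h1]
    refine (Complex.re_le_norm _).trans ((norm_sum_le _ _).trans ?_)
    refine Finset.sum_le_sum fun i _ => ?_
    rw [norm_mul, RCLike.norm_conj]
  have h3 : (∑ i, ‖w i‖ * ‖v i‖) ^ 2 ≤ nq w * nq v :=
    Finset.sum_mul_sq_le_sq_mul_sq _ _ _
  have h4 : c * nq w ≤ ∑ i, ‖w i‖ * ‖v i‖ := (h w).trans h2
  have h5 : 0 ≤ nq w := nq_nonneg w
  have h6 : 0 ≤ nq v := nq_nonneg v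
  have h7 : (c * nq w) ^ 2 ≤ nq w * nq v :=
    (pow_le_pow_left₀ (by positivity) h4 2).trans h3
  have h8 : c ^ 2 * nq w ≤ nq v := by
    rcases h5.eq_or_lt with h0 | h0
    · rw [← h0]; simpa using h6
    · have : nq w * (c ^ 2 * nq w) ≤ nq w * nq v := by nlinarith [h7]
      exact le_of_mul_le_mul_left this h0
  have hc2 : 0 < c ^ 2 := by positivity
  calc nq w = (c ^ 2)⁻¹ * (c ^ 2 * nq w) := by field_simp
    _ ≤ (c ^ 2)⁻¹ * nq v := by gcongr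
    _ = (1 / c) ^ 2 * nq v := by rw [one_div, inv_pow]

theorem near_one {G : Matrix ι ι ℂ} {r : ℝ} (hu : IsUnit G) (h : ‖G - 1‖ ≤ r) (hr : r < 1) :
    ‖G⁻¹‖ ≤ 1 / (1 - r) ∧ ‖G⁻¹ - 1‖ ≤ r / (1 - r) := by
  have hd := NMb_det hu
  have h0 : 0 ≤ r := (norm_nonneg _).trans h
  have h1r : 0 < 1 - r := by linarith
  have e1 : G⁻¹ - 1 = G⁻¹ * (1 - G) := by
    rw [mul_sub, mul_one, Matrix.nonsing_inv_mul _ hd]
  have h1 : ‖G⁻¹ - 1‖ ≤ ‖G⁻¹‖ * r := by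
    rw [e1]
    refine (Matrix.l2_opNorm_mul _ _).trans ?_
    rw [norm_sub_rev]
    exact mul_le_mul_of_nonneg_left h (norm_nonneg _)
  have h2 : ‖G⁻¹‖ ≤ 1 + ‖G⁻¹‖ * r := by
    have e2 : G⁻¹ = 1 + (G⁻¹ - 1) := by abel
    calc ‖G⁻¹‖ = ‖1 + (G⁻¹ - 1)‖ := by rw [← e2]
      _ ≤ ‖(1 : Matrix ι ι ℂ)‖ + ‖G⁻¹ - 1‖ := norm_add_le _ _
      _ ≤ 1 + ‖G⁻¹‖ * r := add_le_add norm_one_le h1
  have h3 : ‖G⁻¹‖ ≤ 1 / (1 - r) := by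
    rw [le_div_iff₀ h1r]; linarith
  refine ⟨h3, h1.trans ?_⟩
  calc ‖G⁻¹‖ * r ≤ 1 / (1 - r) * r := mul_le_mul_of_nonneg_right h3 h0
    _ = r / (1 - r) := by ring

theorem inv_diff {G K : Matrix ι ι ℂ} (hG : IsUnit G) (hK : IsUnit K) :
    ‖G⁻¹ - K⁻¹‖ ≤ ‖G⁻¹‖ * ‖K - G‖ * ‖K⁻¹‖ := by
  have hdG := NMb_det hG
  have hdK := NMb_det hK
  have e : G⁻¹ - K⁻¹ = G⁻¹ * (K - G) * K⁻¹ := by
    rw [mul_sub, sub_mul, Matrix.nonsing_inv_mul _ hdG, one_mul, mul_assoc,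
      Matrix.mul_nonsing_inv _ hdK, mul_one]
  rw [e]
  refine (Matrix.l2_opNorm_mul _ _).trans ?_
  exact mul_le_mul_of_nonneg_right (Matrix.l2_opNorm_mul _ _) (norm_nonneg _)

end IPC.BS
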