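import Pool.Agent.Lib.MP_25e40f_pr.T.Pos
import Pool.Agent.Lib.MP_25e40f_pr.T.Tau
import Pool.Agent.Lib.MP_25e40f_pr.D.Defs

/-!
# MP_25e40f_pr, stream D, job POa: positivity of the two point function in infinite volume

`tau_pos_fin`: for large `r`, `D ⊆ Lam r` (`T.exists_Lam`, `T.Lam_mono` or the names in T/Ein.lean). Apply `T.tauD_pos G h0 h1 (Lam r) hΔ f'` with `f' x = if x ∈ D then f x else 0`: the sums over `Lam r` reduce to `D` (`Finset.sum_subset`, terms outside `D` vanish), so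
 `(1-p)^Δ ∑_{x ∈ D} ‖f x‖² ≤ ∑_{x,y ∈ D} (star (f x) * f y).re * tauD p (Lam r) x y`. Let `r → ∞`: `T.tau_tendsto`, `tendsto_finset_sum`, `ge_of_tendsto'` / `le_of_tendsto` with `eventually_ge_atTop`.
-/

set_option autoImplicit false
set_option linter.unusedSectionVars false

noncomputable section

open Finset
open scoped Classical Matrix.Norms.L2Operator

namespace IPC.BS



variable {V : Type} [DecidableEq V]

private theorem POa_aux (G : PG V) {p : ℝ} (h0 : 0 ≤ p) (h1 : p ≤ 1) {Δ : ℕ} (hΔ : G.DegLe Δ) (D : Finset V)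
    (f : V → ℂ) (L : Finset V) (hL : D ⊆ L) : (1 - p) ^ Δ * ∑ x ∈ D, ‖f x‖ ^ 2 ≤
      ∑ x ∈ D, ∑ y ∈ D, (star (f x) * f y).re * G.tauD p L x y := by
  have h := T.tauD_pos G h0 h1 L (fun x _ => hΔ x) (fun x => if x ∈ D then f x else 0)
  have e1 : ∑ x ∈ L, ‖(if x ∈ D then f x else 0)‖ ^ 2 = ∑ x ∈ D, ‖f x‖ ^ 2 := by
    rw [← Finset.sum_subset hL (fun x _ hx => by simp [hx])]
    exact Finset.sum_congr rfl fun x hx => by simp [hx]
  have e2 : ∑ x ∈ L, ∑ y ∈ L, (star (if x ∈ D then f x else 0) * (if y ∈ D then f y else 0)).re * G.tauD p L x y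
      = ∑ x ∈ D, ∑ y ∈ D, (star (f x) * f y).re * G.tauD p L x y := by
    rw [← Finset.sum_subset hL (fun x _ hx => by simp [hx])]
    refine Finset.sum_congr rfl fun x hx => ?_
    rw [← Finset.sum_subset hL (fun y _ hy => by simp [hy])]
    exact Finset.sum_congr rfl fun y hy => by simp only [hx, hy, if_true]
  rw [e1, e2] at h
  exact h

theorem tau_pos_fin (G : PG V) {p : ℝ} (h0 : 0 ≤ p) (h1 : p ≤ 1) {Δ : ℕ} (hΔ : G.DegLe Δ) (D : Finset V)
    (f : V → ℂ) : (1 - p) ^ Δ * ∑ x ∈ D, ‖f x‖ ^ 2 ≤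
      ∑ x ∈ D, ∑ y ∈ D, (star (f x) * f y).re * G.tau p x y := by
  obtain ⟨r0, hr0⟩ := T.exists_Lam G D
  have ht : Filter.Tendsto (fun r => ∑ x ∈ D, ∑ y ∈ D, (star (f x) * f y).re * G.tauD p (G.Lam r) x y)
      Filter.atTop (nhds (∑ x ∈ D, ∑ y ∈ D, (star (f x) * f y).re * G.tau p x y)) :=
    tendsto_finsetSum _ fun x _ => tendsto_finsetSum _ fun y _ =>
      (T.tau_tendsto G h0 h1 x y).const_mul _
  refine ge_of_tendsto ht ?_
  filter_upwards [Filter.eventually_ge_atTop r0] with r hr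
  exact POa_aux G h0 h1 hΔ D f (G.Lam r) (hr0.trans (T.Lam_mono G hr))

end IPC.BS
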