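import Pool.Agent.Lib.MP_25e40f_pr.D.TBa
import Pool.Agent.Lib.MP_25e40f_pr.D.MAb

/-!
# MP_25e40f_pr, stream D, job SBa: derivatives of the two point function

`T_eq1`, `T_eq2`: `ts_eq` (job EXa) gives `ts = cm gs W`, `W = dm + cm ps ts` (`hfin`: `zz_fin` as in job HWa; `hN`: `T.noPerc_of_lt`). Apply `om_cm1`, `om_cm2` (job MAb) to `cm gs W` (`Mm 2`: `gs_mom2` (via `(EvS_gs S hS).m2`), `Mm_ts`, `Mm_ps`, `Mm_cm`, `Mm_dm`, `Mm_add`),
 `FM W = 1 + P T`, `FM (om e a W) = FM (om e a (cm ps ts))` (`FM_om_add`, `FM_om_dm`) and `om_cm1`, `om_cm2` for `cm ps ts`.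
`T1_le`: `u := 10 / En k`. `HP.d1_le` with `t = u`, `a1 = |k e| / (16 n)` (`(EvS_gs S hS).om1`: `|k e| (2319 dl0/n) ≤ |k e|/(16 n)`), `b1 = 2 |k e| / n` (`FM_ps_om1`, `p ≤ 1/n`): `u² (|k e|/(4n) + 2 |k e|/n) ≤ 3 u² |k e|/n`.
`T2_le`: `HP.d2_le` with `a2 = 1/(16 n)` (`EvS.om2`), `b2 = 2/n` (`FM_ps_om2`, `norm_smul_one_le`, `|cos| ≤ 1`), `t1 = 3 u² |k e|/n`:
 `u²/(4n) + 8 u (|k e|/(16 n)) (3 u² |k e|/n + |k e| u/(8 n)) + 2 u²/n + 2 u (2 |k e|/n) (3 u² |k e|/n) = (9/4) u²/n + (27/2) u³ k_e²/n² + u² k_e²/(16 n²) ≤ 3 u²/n + (14 u³ + u²) k_e²/n²`.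
-/

set_option autoImplicit false
set_option linter.unusedSectionVars false

noncomputable section

open Finset
open scoped Classical Matrix.Norms.L2Operator

namespace IPC.BS

open IPC.Fo

variable {n : ℕ} {ι : Type} [Fintype ι] [DecidableEq ι] {H : SimpleGraph ι} {p : ℝ}

private theorem SBa_q : 2000 * ENNReal.ofReal dl0 ≤ 1 := by
  have h : (2000 : ENNReal) = ENNReal.ofReal 2000 := (ENNReal.ofReal_ofNat 2000).symm
  rw [h, ← ENNReal.ofReal_mul (by norm_num), ← ENNReal.ofReal_one]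
  refine ENNReal.ofReal_le_ofReal ?_
  unfold dl0
  norm_num

private theorem SBa_data [Nonempty ι] (S : Std n ι H p) (hS : Sml n ι H p (ENNReal.ofReal dl0)) :
    Mm 2 (gs n ι H p) ∧ Mm 2 (ts n ι H p) ∧ Mm 2 (ps n ι H p) ∧
    ts n ι H p = cm (gs n ι H p) (fun x i j => dm n ι x i j + cm (ps n ι H p) (ts n ι H p) x i j) := by
  have hp1 : p ≤ 1 := by linarith [S.hp2]
  have hN : (Wg n ι H).NoPerc p := T.noPerc_of_lt _ S.hp0 S.hp
  refine ⟨(EvS_gs S hS).m2, Mm_ts (by have := S.hn; omega) S.hp0 S.hp S.hp2 2, Mm_ps 2, ?_⟩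
  refine ts_eq S.hdeg S.hp0 hp1 hN fun x => ?_
  exact ne_top_of_le_ne_top ENNReal.ofNat_ne_top (zz_fin (Wg n ι H) S.hp0 S.hp2 hN SBa_q hS.q x)

theorem T_eq1 [Nonempty ι] (S : Std n ι H p) (hS : Sml n ι H p (ENNReal.ofReal dl0)) (e : Fin n) (k : Fin n → ℝ) :
    FM (om e 1 (ts n ι H p)) k = FM (om e 1 (gs n ι H p)) k * (1 + FM (ps n ι H p) k * FM (ts n ι H p) k) +
      FM (gs n ι H p) k * (FM (om e 1 (ps n ι H p)) k * FM (ts n ι H p) k +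
        FM (ps n ι H p) k * FM (om e 1 (ts n ι H p)) k) := by
  obtain ⟨hg, ht, hp, he⟩ := SBa_data S hS
  have hc : Mm 2 (cm (ps n ι H p) (ts n ι H p)) := Mm_cm hp ht
  have hW : Mm 2 (fun x i j => dm n ι x i j + cm (ps n ι H p) (ts n ι H p) x i j) := Mm_add (Mm_dm 2) hc
  have h1 := om_cm1 e (Mm.mono (by norm_num : 1 ≤ 2) hg) (Mm.mono (by norm_num : 1 ≤ 2) hW) k
  rw [← he] at h1
  have h2 := FM_add (Mm_dm 0) (Mm.mono (by norm_num : 0 ≤ 2) hc) k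
  have h3 := FM_om_add e 1 (Mm_dm 1) (Mm.mono (by norm_num : 1 ≤ 2) hc) k
  rw [FM_dm, FM_cm (Mm.mono (by norm_num : 0 ≤ 2) hp) (Mm.mono (by norm_num : 0 ≤ 2) ht)] at h2
  rw [FM_om_dm e one_pos, zero_add, om_cm1 e (Mm.mono (by norm_num : 1 ≤ 2) hp)
    (Mm.mono (by norm_num : 1 ≤ 2) ht)] at h3
  rw [h2, h3] at h1
  exact h1

theorem T_eq2 [Nonempty ι] (S : Std n ι H p) (hS : Sml n ι H p (ENNReal.ofReal dl0)) (e : Fin n) (k : Fin n → ℝ) :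
    FM (om e 2 (ts n ι H p)) k = FM (om e 2 (gs n ι H p)) k * (1 + FM (ps n ι H p) k * FM (ts n ι H p) k) +
      (2 : ℂ) • (FM (om e 1 (gs n ι H p)) k * (FM (om e 1 (ps n ι H p)) k * FM (ts n ι H p) k +
        FM (ps n ι H p) k * FM (om e 1 (ts n ι H p)) k)) +
      FM (gs n ι H p) k * (FM (om e 2 (ps n ι H p)) k * FM (ts n ι H p) k +
        (2 : ℂ) • (FM (om e 1 (ps n ι H p)) k * FM (om e 1 (ts n ι H p)) k) +
        FM (ps n ι H p) k * FM (om e 2 (ts n ι H p)) k) := by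
  obtain ⟨hg, ht, hp, he⟩ := SBa_data S hS
  have hc : Mm 2 (cm (ps n ι H p) (ts n ι H p)) := Mm_cm hp ht
  have hW : Mm 2 (fun x i j => dm n ι x i j + cm (ps n ι H p) (ts n ι H p) x i j) := Mm_add (Mm_dm 2) hc
  have h1 := om_cm2 e hg hW k
  rw [← he] at h1
  have h2 := FM_add (Mm_dm 0) (Mm.mono (by norm_num : 0 ≤ 2) hc) k
  have h3 := FM_om_add e 1 (Mm_dm 1) (Mm.mono (by norm_num : 1 ≤ 2) hc) k
  have h4 := FM_om_add e 2 (Mm_dm 2) hc k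
  rw [FM_dm, FM_cm (Mm.mono (by norm_num : 0 ≤ 2) hp) (Mm.mono (by norm_num : 0 ≤ 2) ht)] at h2
  rw [FM_om_dm e one_pos, zero_add, om_cm1 e (Mm.mono (by norm_num : 1 ≤ 2) hp)
    (Mm.mono (by norm_num : 1 ≤ 2) ht)] at h3
  rw [FM_om_dm e two_pos, zero_add, om_cm2 e hp ht] at h4
  rw [h2, h3, h4] at h1
  exact h1

theorem T1_le [Nonempty ι] (S : Std n ι H p) (hS : Sml n ι H p (ENNReal.ofReal dl0)) (e : Fin n) {k : Fin n → ℝ}
    (hk : Cb k) (hE : 0 < En k) : ‖FM (om e 1 (ts n ι H p)) k‖ ≤ 3 * (10 / En k) ^ 2 * |k e| / n := by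
  have hdl : (0 : ℝ) ≤ dl0 := by unfold dl0; norm_num
  have hdl2 : dl0 ≤ 1 / 2000 := by unfold dl0; norm_num
  have hdl3 : 4 * 2319 * dl0 ≤ 1 := by unfold dl0; norm_num
  have hn : (0 : ℝ) < n := by
    have := S.hn
    exact_mod_cast (by omega : 0 < n)
  have hB : (0 : ℝ) ≤ 2319 * dl0 / n := by positivity
  have hg1 := (EvS_gs S hS).om1 hB e k
  have hp1 := FM_ps_om1 (ι := ι) (H := H) S.hp0 e k
  have h := (hp_W S hdl hdl2 hS.q k).d1_le (Ginv_le S hS k) (T_eq1 S hS e k) (T_bound S hS hk hE) hg1 hp1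
  refine h.trans ?_
  have hple := (p_le S hS).1
  have hk0 := abs_nonneg (k e)
  have e1 : 4 * (|k e| * (2319 * dl0 / n)) ≤ |k e| / n := by
    have e2 : 4 * (|k e| * (2319 * dl0 / n)) = |k e| / n * (4 * 2319 * dl0) := by ring
    rw [e2]
    exact mul_le_of_le_one_right (by positivity) hdl3
  have e3 : 2 * p * |k e| ≤ 2 * (|k e| / n) := by
    have e4 : 2 * (|k e| / n) = 2 * (1 / n) * |k e| := by ring
    rw [e4]
    exact mul_le_mul_of_nonneg_right (mul_le_mul_of_nonneg_left hple (by norm_num)) hk0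
  have e5 : 3 * (10 / En k) ^ 2 * |k e| / n = (10 / En k) ^ 2 * (3 * (|k e| / n)) := by ring
  rw [e5]
  exact mul_le_mul_of_nonneg_left (by linarith) (by positivity)

theorem T2_le [Nonempty ι] (S : Std n ι H p) (hS : Sml n ι H p (ENNReal.ofReal dl0)) (e : Fin n) {k : Fin n → ℝ}
    (hk : Cb k) (hE : 0 < En k) : ‖FM (om e 2 (ts n ι H p)) k‖ ≤
      3 * (10 / En k) ^ 2 / n + (14 * (10 / En k) ^ 3 + (10 / En k) ^ 2) * k e ^ 2 / n ^ 2 := by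
  have hdl : (0 : ℝ) ≤ dl0 := by unfold dl0; norm_num
  have hdl2 : dl0 ≤ 1 / 2000 := by unfold dl0; norm_num
  have hdl3 : 16 * 2319 * dl0 ≤ 1 := by unfold dl0; norm_num
  have hn : (0 : ℝ) < n := by
    have := S.hn
    exact_mod_cast (by omega : 0 < n)
  have hB : (0 : ℝ) ≤ 2319 * dl0 / n := by positivity
  have hk0 := abs_nonneg (k e)
  have hple := (p_le S hS).1
  have hB2 : 2319 * dl0 / n ≤ 1 / (16 * n) := by
    have e2 : 2319 * dl0 / n = 1 / (16 * n) * (16 * 2319 * dl0) := by field_simp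
    rw [e2]
    exact mul_le_of_le_one_right (by positivity) hdl3
  have hg1 : ‖FM (om e 1 (gs n ι H p)) k‖ ≤ |k e| * (1 / (16 * n)) :=
    ((EvS_gs S hS).om1 hB e k).trans (mul_le_mul_of_nonneg_left hB2 hk0)
  have hg2 : ‖FM (om e 2 (gs n ι H p)) k‖ ≤ 1 / (16 * n) := ((EvS_gs S hS).om2 hB e k).trans hB2
  have hp1 : ‖FM (om e 1 (ps n ι H p)) k‖ ≤ 2 * (|k e| / n) := by
    refine (FM_ps_om1 (ι := ι) (H := H) S.hp0 e k).trans ?_
    have e4 : 2 * (|k e| / n) = 2 * (1 / n) * |k e| := by ring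
    rw [e4]
    exact mul_le_mul_of_nonneg_right (mul_le_mul_of_nonneg_left hple (by norm_num)) hk0
  have hp2 : ‖FM (om e 2 (ps n ι H p)) k‖ ≤ 2 / n := by
    rw [FM_ps_om2]
    refine (norm_smul_one_le _).trans ?_
    rw [Complex.norm_real, Real.norm_eq_abs, abs_mul, abs_of_nonneg (by linarith [S.hp0] : 0 ≤ 2 * p)]
    have e1 : 2 * p * |Real.cos (k e)| ≤ 2 * p * 1 :=
      mul_le_mul_of_nonneg_left (Real.abs_cos_le_one _) (by linarith [S.hp0])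
    have e2 : (2 : ℝ) / n = 2 * (1 / n) := by ring
    rw [e2]
    linarith
  have h := (hp_W S hdl hdl2 hS.q k).d2_le (Ginv_le S hS k) (T_eq1 S hS e k) (T_eq2 S hS e k)
    (T_bound S hS hk hE) hg1 hp1 hg2 hp2 (T1_le S hS e hk hE)
  refine h.trans ?_
  have ht : 0 < 10 / En k := by positivity
  generalize 10 / En k = t at ht ⊢
  have hsq : k e ^ 2 = |k e| ^ 2 := (sq_abs _).symm
  rw [hsq]
  generalize |k e| = a at hk0 ⊢
  have key : 3 * t ^ 2 / n + (14 * t ^ 3 + t ^ 2) * a ^ 2 / (n : ℝ) ^ 2 -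
      (4 * (1 / (16 * (n : ℝ))) * t ^ 2 + 8 * t * (a * (1 / (16 * n))) * (3 * t ^ 2 * a / n + 2 * (a * (1 / (16 * n))) * t) +
        t ^ 2 * (2 / n) + 2 * t * (2 * (a / n)) * (3 * t ^ 2 * a / n)) =
      3 / 4 * t ^ 2 / n + (1 / 2 * t ^ 3 + 15 / 16 * t ^ 2) * a ^ 2 / (n : ℝ) ^ 2 := by
    field_simp
    ring
  have hpos : 0 ≤ 3 / 4 * t ^ 2 / n + (1 / 2 * t ^ 3 + 15 / 16 * t ^ 2) * a ^ 2 / (n : ℝ) ^ 2 := by positivity
  linarith

end IPC.BS
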