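import Pool.Agent.Lib.MP_25e40f_pr.D.SBa

/-!
# MP_25e40f_pr, stream D, job SBb: the weighted `P τ`, and the three pointwise bounds

Let `u = 10 / En k`, so `u * En k = 10`, `u ≥ 5` (`En_le_two`).
`T2_sum`: `∑ e, ‖FM (om e 2 ts) k‖ ≤ 3 u² + (14 u³ + u²) (∑ k_e²)/n² ≤ 3 u² + (14 u³ + u²) 5 En/n = 3 u² + (700 u² + 50 u)/n ≤ 713 u²` (`T2_le`, `sum_sq_le`, `∑ 1/n = 1`, `50 u ≤ 10 u²`, `n ≥ 1`).
`S_le`: `FM (sq (cm ps ts)) k = ∑ e, FM (om e 2 (cm ps ts)) k` (`FM_sq`) `= ∑ e, (P2_e T + 2 P1_e T1_e + P T2_e)` (`om_cm2`). `∑ e, P2_e = Ck p k • 1` (`FM_ps_om2`, `Finset.sum_smul`, `Ck = 2 p ∑ cos`), so the first part has norm `≤ |Ck| u` (`norm_smul_one_le`); the second `≤ 2 ∑ (2 p |k_e|) (3 u² |k_e|/n) ≤ 12 u² (∑ k_e²)/n² ≤ 60 u² En/n = 600 u/n ≤ 120 u²/n`;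
 the third `≤ ‖P‖ 713 u² ≤ (|Ck| + 2/n) 713 u²` (`norm_FM_ps`, `p ≤ 1/n`). Total `≤ (u + 713 u²) |Ck| + (120 + 1426) u²/n ≤ 2026 u² (|Ck| + 1/n)`.
`f0_le`, `f1_le`, `f2_le`: `FM_cm` (moments `Mm 0`: `Mm_cm`, `Mm_sq`, `Mm_ts`, `Mm_ps`), `norm_mul_le`: `‖FM f0 k‖ ≤ ‖P‖ u⁴ ≤ (|Ck| + 2/n) u⁵`, `‖FM f1 k‖, ‖FM f2 k‖ ≤ 2026 u² (|Ck| + 1/n) u³`; `u⁵ = 10⁵ (En⁵)⁻¹`, so all `≤ 2026 * 10⁵ * (En^5)⁻¹ (|Ck| + 2/n) ≤ 2026 * 10⁵ * 3 Bn ≤ 10⁹ Bn` (`elem` of job AVb; `Bn ≥ 0`).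
-/

set_option autoImplicit false
set_option linter.unusedSectionVars false

noncomputable section

open Finset
open scoped Classical Matrix.Norms.L2Operator

namespace IPC.BS

open IPC.Fo

variable {n : ℕ} {ι : Type} [Fintype ι] [DecidableEq ι] {H : SimpleGraph ι} {p : ℝ}

private theorem SBb_u {k : Fin n → ℝ} (hE : 0 < En k) : 5 ≤ 10 / En k ∧ 10 / En k * En k = 10 := by
  refine ⟨?_, div_mul_cancel₀ 10 hE.ne'⟩
  rw [le_div_iff₀ hE]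
  linarith [En_le_two k]

theorem T2_sum [Nonempty ι] (S : Std n ι H p) (hS : Sml n ι H p (ENNReal.ofReal dl0)) {k : Fin n → ℝ}
    (hk : Cb k) (hE : 0 < En k) : ∑ e, ‖FM (om e 2 (ts n ι H p)) k‖ ≤ 713 * (10 / En k) ^ 2 := by
  have hn : 40 ≤ n := S.hn
  have hn0 : (40 : ℝ) ≤ n := by exact_mod_cast hn
  have h1 : ∑ e, ‖FM (om e 2 (ts n ι H p)) k‖ ≤ ∑ e : Fin n,
      (3 * (10 / En k) ^ 2 / n + (14 * (10 / En k) ^ 3 + (10 / En k) ^ 2) * k e ^ 2 / n ^ 2) :=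
    Finset.sum_le_sum fun e _ => T2_le S hS e hk hE
  have h3 := sum_sq_le (by omega) hk
  obtain ⟨hu5, huE⟩ := SBb_u hE
  generalize 10 / En k = u at h1 hu5 huE ⊢
  have h2 : ∑ e : Fin n, (3 * u ^ 2 / n + (14 * u ^ 3 + u ^ 2) * k e ^ 2 / n ^ 2) =
      3 * u ^ 2 + (14 * u ^ 3 + u ^ 2) / n ^ 2 * ∑ e, k e ^ 2 := by
    rw [Finset.sum_add_distrib, Finset.sum_const, Finset.card_univ, Fintype.card_fin, nsmul_eq_mul, Finset.mul_sum]
    refine congrArg₂ (· + ·) ?_ (Finset.sum_congr rfl fun e _ => ?_)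
    · field_simp
    · ring
  rw [h2] at h1
  have hc : 0 ≤ (14 * u ^ 3 + u ^ 2) / (n : ℝ) ^ 2 := by positivity
  have h4 : (14 * u ^ 3 + u ^ 2) / (n : ℝ) ^ 2 * ∑ e, k e ^ 2 ≤ (14 * u ^ 3 + u ^ 2) / (n : ℝ) ^ 2 * (5 * n * En k) :=
    mul_le_mul_of_nonneg_left h3 hc
  have h5 : (14 * u ^ 3 + u ^ 2) / (n : ℝ) ^ 2 * (5 * n * En k) = (700 * u ^ 2 + 50 * u) / n := by
    have h6 : (14 * u ^ 3 + u ^ 2) / (n : ℝ) ^ 2 * (5 * n * En k) = (14 * u ^ 2 + u) * 5 * (u * En k) / n := by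
      field_simp
    rw [h6, huE]
    ring
  have h7 : (700 * u ^ 2 + 50 * u) / n ≤ 710 * u ^ 2 := by
    rw [div_le_iff₀ (by linarith)]
    nlinarith [mul_nonneg (by positivity : (0 : ℝ) ≤ u) (by linarith : (0 : ℝ) ≤ u - 5), sq_nonneg u,
      mul_nonneg (sq_nonneg u) (by linarith : (0 : ℝ) ≤ (n : ℝ) - 40)]
  linarith

theorem S_le [Nonempty ι] (S : Std n ι H p) (hS : Sml n ι H p (ENNReal.ofReal dl0)) {k : Fin n → ℝ}
    (hk : Cb k) (hE : 0 < En k) : ‖FM (sq (cm (ps n ι H p) (ts n ι H p))) k‖ ≤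
      2026 * (10 / En k) ^ 2 * (|Ck p k| + 1 / n) := by
  have hn : 40 ≤ n := S.hn
  have hn0 : (40 : ℝ) ≤ n := by exact_mod_cast hn
  have hp0 := S.hp0
  obtain ⟨hpn, _⟩ := p_le S hS
  have hts : Mm 2 (ts n ι H p) := Mm_ts (by omega) S.hp0 S.hp S.hp2 2
  have hps : Mm 2 (ps n ι H p) := Mm_ps 2
  have hT := T_bound S hS hk hE
  have hT1 : ∀ e, ‖FM (om e 1 (ts n ι H p)) k‖ ≤ 3 * (10 / En k) ^ 2 * |k e| / n := fun e => T1_le S hS e hk hE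
  have hT2 := T2_sum S hS hk hE
  have h3 := sum_sq_le (by omega) hk
  obtain ⟨hu5, huE⟩ := SBb_u hE
  have hP := norm_FM_ps (n := n) (H := H) S.hdeg hp0 k
  rw [FM_sq (Mm_cm hps hts)]
  have hsum : ∑ e, FM (om e 2 (cm (ps n ι H p) (ts n ι H p))) k =
      ((Ck p k : ℝ) : ℂ) • (1 : Matrix ι ι ℂ) * FM (ts n ι H p) k +
      (∑ e, (2 : ℂ) • (FM (om e 1 (ps n ι H p)) k * FM (om e 1 (ts n ι H p)) k) +
      ∑ e, FM (ps n ι H p) k * FM (om e 2 (ts n ι H p)) k) := by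
    have e1 : ∀ e : Fin n, FM (om e 2 (cm (ps n ι H p) (ts n ι H p))) k =
        FM (om e 2 (ps n ι H p)) k * FM (ts n ι H p) k +
        ((2 : ℂ) • (FM (om e 1 (ps n ι H p)) k * FM (om e 1 (ts n ι H p)) k) +
        FM (ps n ι H p) k * FM (om e 2 (ts n ι H p)) k) := by
      intro e
      rw [om_cm2 e hps hts, add_assoc]
    rw [Finset.sum_congr rfl (fun e _ => e1 e), Finset.sum_add_distrib, Finset.sum_add_distrib, ← Finset.sum_mul]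
    have e2 : ∑ e, FM (om e 2 (ps n ι H p)) k = ((Ck p k : ℝ) : ℂ) • (1 : Matrix ι ι ℂ) := by
      rw [Finset.sum_congr rfl (fun e _ => FM_ps_om2 e k), ← Finset.sum_smul]
      unfold Ck
      rw [Finset.mul_sum]
      push_cast
      rfl
    rw [e2]
  rw [hsum]
  have a1 : ‖((Ck p k : ℝ) : ℂ) • (1 : Matrix ι ι ℂ) * FM (ts n ι H p) k‖ ≤ |Ck p k| * (10 / En k) := by
    refine (norm_mul_le _ _).trans ?_
    have h4 := norm_smul_one_le (ι := ι) ((Ck p k : ℝ) : ℂ)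
    rw [Complex.norm_real, Real.norm_eq_abs] at h4
    exact mul_le_mul h4 hT (norm_nonneg _) (abs_nonneg _)
  have a3 : ‖∑ e, FM (ps n ι H p) k * FM (om e 2 (ts n ι H p)) k‖ ≤
      (|Ck p k| + 2 / n) * (713 * (10 / En k) ^ 2) := by
    rw [← Finset.mul_sum]
    refine (norm_mul_le _ _).trans ?_
    have h4 : ‖FM (ps n ι H p) k‖ ≤ |Ck p k| + 2 / n := by
      have : 2 / (n : ℝ) = 2 * (1 / n) := by ring
      rw [this]
      linarith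
    have h5 := (norm_sum_le (Finset.univ : Finset (Fin n)) (fun e => FM (om e 2 (ts n ι H p)) k)).trans hT2
    exact mul_le_mul h4 h5 (norm_nonneg _) (by positivity)
  have a2 : ‖∑ e, (2 : ℂ) • (FM (om e 1 (ps n ι H p)) k * FM (om e 1 (ts n ι H p)) k)‖ ≤
      12 * (10 / En k) ^ 2 / n ^ 2 * (5 * n * En k) := by
    refine (norm_sum_le _ _).trans ?_
    have h4 : ∀ e : Fin n, ‖(2 : ℂ) • (FM (om e 1 (ps n ι H p)) k * FM (om e 1 (ts n ι H p)) k)‖ ≤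
        12 * (10 / En k) ^ 2 / n ^ 2 * k e ^ 2 := by
      intro e
      rw [norm_smul, Complex.norm_ofNat]
      have h5 := norm_mul_le (FM (om e 1 (ps n ι H p)) k) (FM (om e 1 (ts n ι H p)) k)
      have h6 := FM_ps_om1 (ι := ι) (H := H) hp0 e k
      have h7 : ‖FM (om e 1 (ps n ι H p)) k‖ ≤ 2 / n * |k e| := by
        refine h6.trans (mul_le_mul_of_nonneg_right ?_ (abs_nonneg _))
        have : 2 / (n : ℝ) = 2 * (1 / n) := by ring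
        rw [this]
        linarith
      have h8 := mul_le_mul h7 (hT1 e) (norm_nonneg _) (by positivity)
      calc 2 * ‖FM (om e 1 (ps n ι H p)) k * FM (om e 1 (ts n ι H p)) k‖
          ≤ 2 * (2 / n * |k e| * (3 * (10 / En k) ^ 2 * |k e| / n)) :=
            mul_le_mul_of_nonneg_left (h5.trans h8) (by norm_num)
        _ = 12 * (10 / En k) ^ 2 / n ^ 2 * (|k e| * |k e|) := by ring
        _ = 12 * (10 / En k) ^ 2 / n ^ 2 * k e ^ 2 := by rw [← abs_mul, ← pow_two, abs_of_nonneg (sq_nonneg _)]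
    refine (Finset.sum_le_sum fun e _ => h4 e).trans ?_
    rw [← Finset.mul_sum]
    exact mul_le_mul_of_nonneg_left h3 (by positivity)
  refine (norm_add_le _ _).trans ?_
  have a4 := norm_add_le (∑ e, (2 : ℂ) • (FM (om e 1 (ps n ι H p)) k * FM (om e 1 (ts n ι H p)) k))
    (∑ e, FM (ps n ι H p) k * FM (om e 2 (ts n ι H p)) k)
  have hfin : |Ck p k| * (10 / En k) + (12 * (10 / En k) ^ 2 / n ^ 2 * (5 * n * En k) +
      (|Ck p k| + 2 / n) * (713 * (10 / En k) ^ 2)) ≤ 2026 * (10 / En k) ^ 2 * (|Ck p k| + 1 / n) := by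
    generalize 10 / En k = u at hu5 huE ⊢
    have h6 : 12 * u ^ 2 / (n : ℝ) ^ 2 * (5 * n * En k) = 600 * u / n := by
      have h6 : 12 * u ^ 2 / (n : ℝ) ^ 2 * (5 * n * En k) = 60 * u * (u * En k) / n := by
        field_simp
        ring
      rw [h6, huE]
      ring
    rw [h6]
    have h7 : 600 * u / n ≤ 120 * u ^ 2 * (1 / n) := by
      have : 600 * u / (n : ℝ) = (600 * u) * (1 / n) := by ring
      rw [this]
      refine mul_le_mul_of_nonneg_right ?_ (by positivity)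
      nlinarith
    have h8 : |Ck p k| * u ≤ |Ck p k| * u ^ 2 := mul_le_mul_of_nonneg_left (by nlinarith) (abs_nonneg _)
    have h9 : 0 ≤ |Ck p k| * u ^ 2 := by positivity
    have h10 : 0 ≤ u ^ 2 * (1 / (n : ℝ)) := by positivity
    have h11 : (2 : ℝ) / n = 2 * (1 / n) := by ring
    rw [h11]
    nlinarith
  linarith

end IPC.BS
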