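import Pool.Agent.Lib.MP_25e40f_pr.D.SBb
import Pool.Agent.Lib.MP_25e40f_pr.D.AVb

/-!
# MP_25e40f_pr, stream D, job SBc: the three pointwise bounds

Let `u = 10 / En k`, so `u * En k = 10`, `u ≥ 5` (`En_le_two`).
`f0_le`, `f1_le`, `f2_le`: definitions in D/WDef.lean; `FM_cm` (moments `Mm 0`: `Mm_cm`, `Mm_sq`, `Mm_ts`, `Mm_ps`; `Mm 2` of `cm ps ts` for `Mm_sq`), `norm_mul_le`, `T_bound`: `‖FM f0 k‖ ≤ ‖P‖ u⁴ ≤ (|Ck| + 2/n) u⁵` (`norm_FM_ps`, `p ≤ 1/n` by `p_le`), `‖FM f1 k‖, ‖FM f2 k‖ ≤ 2026 u² (|Ck| + 1/n) u³` (`S_le`);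
 `u⁵ = 10⁵ (En⁵)⁻¹`, so all three are `≤ 2026 * 10⁵ * (En^5)⁻¹ (|Ck| + 2/n) ≤ 2026 * 10⁵ * 3 Bn ≤ 10⁹ Bn` (`elem` of job AVb; `Bn ≥ 0`).
-/

set_option autoImplicit false
set_option linter.unusedSectionVars false

noncomputable section

open Finset
open scoped Classical Matrix.Norms.L2Operator

namespace IPC.BS

open IPC.Fo

variable {n : ℕ} {ι : Type} [Fintype ι] [DecidableEq ι] {H : SimpleGraph ι} {p : ℝ}

private theorem SBc_fin (S : Std n ι H p) {k : Fin n → ℝ} (hE : 0 < En k) {X : ℝ}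
    (hX : X ≤ 2026 * (10 / En k) ^ 5 * (|Ck p k| + 2 / n)) : X ≤ 10 ^ 9 * Bn p k := by
  have h1 := elem S.hn p hE
  have h2 : 0 ≤ (En k ^ 5)⁻¹ * (|Ck p k| + 2 / n) := by positivity
  have h3 : (10 / En k) ^ 5 = 10 ^ 5 * (En k ^ 5)⁻¹ := by
    rw [div_pow, div_eq_mul_inv]
  rw [h3] at hX
  have h4 : X ≤ 202600000 * ((En k ^ 5)⁻¹ * (|Ck p k| + 2 / n)) := by
    refine hX.trans (le_of_eq ?_)
    ring
  have h5 : 0 ≤ Bn p k := by linarith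
  calc X ≤ 202600000 * ((En k ^ 5)⁻¹ * (|Ck p k| + 2 / n)) := h4
    _ ≤ 202600000 * (3 * Bn p k) := by linarith
    _ ≤ 10 ^ 9 * Bn p k := by linarith

private theorem SBc_Mts (S : Std n ι H p) (m : ℕ) : Mm m (ts n ι H p) :=
  Mm_ts (by have := S.hn; omega) S.hp0 S.hp S.hp2 m

private theorem SBc_P [Nonempty ι] (S : Std n ι H p) (hS : Sml n ι H p (ENNReal.ofReal dl0)) (k : Fin n → ℝ) :
    ‖FM (ps n ι H p) k‖ ≤ |Ck p k| + 2 / n := by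
  have h1 := norm_FM_ps (n := n) (H := H) S.hdeg S.hp0 k
  have h2 := (p_le S hS).1
  have h3 : (2 : ℝ) / n = 2 * (1 / n) := by ring
  rw [h3]
  linarith

private theorem SBc_u {k : Fin n → ℝ} (hE : 0 < En k) : 1 ≤ 10 / En k := by
  rw [le_div_iff₀ hE]
  have := En_le_two k
  linarith

private theorem SBc_ttt [Nonempty ι] (S : Std n ι H p) (hS : Sml n ι H p (ENNReal.ofReal dl0)) {k : Fin n → ℝ}
    (hk : Cb k) (hE : 0 < En k) :
    ‖FM (ts n ι H p) k * (FM (ts n ι H p) k * FM (ts n ι H p) k)‖ ≤ (10 / En k) ^ 3 := by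
  have hT := T_bound S hS hk hE
  have hu : 0 ≤ 10 / En k := by positivity
  calc ‖FM (ts n ι H p) k * (FM (ts n ι H p) k * FM (ts n ι H p) k)‖
      ≤ ‖FM (ts n ι H p) k‖ * ‖FM (ts n ι H p) k * FM (ts n ι H p) k‖ := norm_mul_le _ _
    _ ≤ ‖FM (ts n ι H p) k‖ * (‖FM (ts n ι H p) k‖ * ‖FM (ts n ι H p) k‖) :=
        mul_le_mul_of_nonneg_left (norm_mul_le _ _) (norm_nonneg _)
    _ ≤ (10 / En k) * ((10 / En k) * (10 / En k)) :=
        mul_le_mul hT (mul_le_mul hT hT (norm_nonneg _) hu) (by positivity) hu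
    _ = (10 / En k) ^ 3 := by ring

theorem f0_le [Nonempty ι] (S : Std n ι H p) (hS : Sml n ι H p (ENNReal.ofReal dl0)) {k : Fin n → ℝ}
    (hk : Cb k) (hE : 0 < En k) : ‖FM (f0 n ι H p) k‖ ≤ 10 ^ 9 * Bn p k := by
  refine SBc_fin S hE ?_
  have hT := T_bound S hS hk hE
  have hP := SBc_P S hS k
  have h3 := SBc_ttt S hS hk hE
  have hu : 0 ≤ 10 / En k := by positivity
  have hu1 := SBc_u hE
  have hc : 0 ≤ |Ck p k| + 2 / n := by positivity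
  have mt : Mm 0 (ts n ι H p) := SBc_Mts S 0
  have mp : Mm 0 (ps n ι H p) := Mm_ps 0
  unfold f0
  rw [FM_cm (Mm_cm mp mt) (Mm_cm mt (Mm_cm mt mt)), FM_cm mp mt, FM_cm mt (Mm_cm mt mt), FM_cm mt mt]
  have h5 : ‖FM (ps n ι H p) k * FM (ts n ι H p) k‖ ≤ (|Ck p k| + 2 / n) * (10 / En k) :=
    (norm_mul_le _ _).trans (mul_le_mul hP hT (norm_nonneg _) hc)
  have h6 : ‖FM (ps n ι H p) k * FM (ts n ι H p) k *
      (FM (ts n ι H p) k * (FM (ts n ι H p) k * FM (ts n ι H p) k))‖ ≤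
        ((|Ck p k| + 2 / n) * (10 / En k)) * (10 / En k) ^ 3 :=
    (norm_mul_le _ _).trans (mul_le_mul h5 h3 (norm_nonneg _) (mul_nonneg hc hu))
  refine h6.trans ?_
  have h7 : (10 / En k) ^ 4 ≤ (10 / En k) ^ 5 := pow_le_pow_right₀ hu1 (by norm_num)
  have h8 : (10 / En k) ^ 5 ≤ 2026 * (10 / En k) ^ 5 := by
    have : 0 ≤ (10 / En k) ^ 5 := by positivity
    linarith
  calc ((|Ck p k| + 2 / n) * (10 / En k)) * (10 / En k) ^ 3
      = (10 / En k) ^ 4 * (|Ck p k| + 2 / n) := by ring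
    _ ≤ 2026 * (10 / En k) ^ 5 * (|Ck p k| + 2 / n) :=
        mul_le_mul_of_nonneg_right (h7.trans h8) hc

private theorem SBc_S [Nonempty ι] (S : Std n ι H p) (hS : Sml n ι H p (ENNReal.ofReal dl0)) {k : Fin n → ℝ}
    (hk : Cb k) (hE : 0 < En k) : ‖FM (sq (cm (ps n ι H p) (ts n ι H p))) k‖ ≤
      2026 * (10 / En k) ^ 2 * (|Ck p k| + 2 / n) := by
  refine (S_le S hS hk hE).trans ?_
  have h1 : (1 : ℝ) / n ≤ 2 / n := by
    have h3 : (2 : ℝ) / n = 1 / n + 1 / n := by ring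
    have h4 : (0 : ℝ) ≤ 1 / n := by positivity
    rw [h3]
    linarith
  refine mul_le_mul_of_nonneg_left ?_ (by positivity)
  linarith

theorem f1_le [Nonempty ι] (S : Std n ι H p) (hS : Sml n ι H p (ENNReal.ofReal dl0)) {k : Fin n → ℝ}
    (hk : Cb k) (hE : 0 < En k) : ‖FM (f1 n ι H p) k‖ ≤ 10 ^ 9 * Bn p k := by
  refine SBc_fin S hE ?_
  have hQ := SBc_S S hS hk hE
  have h3 := SBc_ttt S hS hk hE
  have hu : 0 ≤ 10 / En k := by positivity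
  have hc : 0 ≤ |Ck p k| + 2 / n := by positivity
  have mt : ∀ m, Mm m (ts n ι H p) := SBc_Mts S
  have mq : Mm 0 (sq (cm (ps n ι H p) (ts n ι H p))) := Mm_sq (Mm_cm (Mm_ps 2) (mt 2))
  unfold f1
  rw [FM_cm mq (Mm_cm (mt 0) (Mm_cm (mt 0) (mt 0))), FM_cm (mt 0) (Mm_cm (mt 0) (mt 0)), FM_cm (mt 0) (mt 0)]
  refine (norm_mul_le _ _).trans ?_
  refine (mul_le_mul hQ h3 (norm_nonneg _) (by positivity)).trans (le_of_eq ?_)
  ring

theorem f2_le [Nonempty ι] (S : Std n ι H p) (hS : Sml n ι H p (ENNReal.ofReal dl0)) {k : Fin n → ℝ}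
    (hk : Cb k) (hE : 0 < En k) : ‖FM (f2 n ι H p) k‖ ≤ 10 ^ 9 * Bn p k := by
  refine SBc_fin S hE ?_
  have hQ := SBc_S S hS hk hE
  have hT := T_bound S hS hk hE
  have hu : 0 ≤ 10 / En k := by positivity
  have hc : 0 ≤ |Ck p k| + 2 / n := by positivity
  have mt : ∀ m, Mm m (ts n ι H p) := SBc_Mts S
  have mq : Mm 0 (sq (cm (ps n ι H p) (ts n ι H p))) := Mm_sq (Mm_cm (Mm_ps 2) (mt 2))
  unfold f2
  rw [FM_cm (mt 0) (Mm_cm mq (Mm_cm (mt 0) (mt 0))), FM_cm mq (Mm_cm (mt 0) (mt 0)), FM_cm (mt 0) (mt 0)]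
  have h1 : ‖FM (ts n ι H p) k * FM (ts n ι H p) k‖ ≤ (10 / En k) * (10 / En k) :=
    (norm_mul_le _ _).trans (mul_le_mul hT hT (norm_nonneg _) hu)
  have h2 : ‖FM (sq (cm (ps n ι H p) (ts n ι H p))) k * (FM (ts n ι H p) k * FM (ts n ι H p) k)‖ ≤
      (2026 * (10 / En k) ^ 2 * (|Ck p k| + 2 / n)) * ((10 / En k) * (10 / En k)) :=
    (norm_mul_le _ _).trans (mul_le_mul hQ h1 (norm_nonneg _) (by positivity))
  refine (norm_mul_le _ _).trans ?_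
  refine (mul_le_mul hT h2 (norm_nonneg _) hu).trans (le_of_eq ?_)
  ring

end IPC.BS
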