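import Pool.Agent.Lib.MP_25e40f_pr.D.MDef

/-!
# MP_25e40f_pr, stream D (helper38): translations, reflections and permutations of `ℤⁿ × ι`
-/

set_option autoImplicit false

noncomputable section

open Finset
open scoped Classical

namespace IPC.BS

open IPC.Fo

/-- translation -/
def trW {n : ℕ} {ι : Type} (a : Fin n → ℤ) : (Fin n → ℤ) × ι ≃ (Fin n → ℤ) × ι where
  toFun x := (x.1 + a, x.2)
  invFun x := (x.1 - a, x.2)
  left_inv x := by simp
  right_inv x := by simp

/-- reflection of a coordinate -/
def rfW {n : ℕ} {ι : Type} (e : Fin n) : (Fin n → ℤ) × ι ≃ (Fin n → ℤ) × ι where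
  toFun x := (refl e x.1, x.2)
  invFun x := (refl e x.1, x.2)
  left_inv x := by simp [refl_refl]
  right_inv x := by simp [refl_refl]

/-- permutation of the coordinates -/
def pmW {n : ℕ} {ι : Type} (σ : Equiv.Perm (Fin n)) : (Fin n → ℤ) × ι ≃ (Fin n → ℤ) × ι where
  toFun x := (fun l => x.1 (σ l), x.2)
  invFun x := (fun l => x.1 (σ.symm l), x.2)
  left_inv x := by simp
  right_inv x := by simp

end IPC.BS
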