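import Pool.Agent.Lib.MP_25e40f_pr.D.SDef

/-!
# MP_25e40f_pr, stream D, job SYa: automorphisms of `ℤⁿ × H`

`trW a`, `rfW e`, `pmW σ` (D/SDef.lean) map neighbours to neighbours. `(Wg n ι H).nb x = (nbZ n x.1).image (fun y => (y, x.2)) ∪ (univ.filter (H.Adj x.2)).image (fun j => (x.1, j))` (Defs.lean; the value is `rfl`), `mem_nbZ`: `y ∈ nbZ n x` iff `y = update x i (x i + s)`, `s = ± 1`.
`nb_iff`: membership in `nb`: `y ∈ nb x` iff (`y.1 ∈ nbZ n x.1` and `y.2 = x.2`) or (`y.1 = x.1` and `H.Adj x.2 y.2`).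
`nbZ_add`: `y + a ∈ nbZ n (x + a)` iff `y ∈ nbZ n x`. `nbZ_refl`: `refl e y ∈ nbZ n (refl e x)` iff `y ∈ nbZ n x` (one direction by cases `i = e` (then `s` changes sign) or not, the other one by `refl_refl`). `nbZ_perm`: `(y ∘ σ) ∈ nbZ n (x ∘ σ)` iff `y ∈ nbZ n x`: the changed coordinate is `σ⁻¹ i`.
`nb_trW` etc.: `Finset.ext`, `Finset.mem_image`; an element `z` of the left side is `φ (φ.symm z)`; with `nb_iff` and the three equivalences.
-/

set_option autoImplicit false
set_option linter.unusedSectionVars false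

noncomputable section

open Finset
open scoped Classical Matrix.Norms.L2Operator

namespace IPC.BS

open IPC.Fo

variable {n : ℕ} {ι : Type} [Fintype ι] [DecidableEq ι] {H : SimpleGraph ι} {p : ℝ}

theorem nb_iff (x y : (Fin n → ℤ) × ι) : y ∈ (Wg n ι H).nb x ↔
    (y.1 ∈ nbZ n x.1 ∧ y.2 = x.2) ∨ (y.1 = x.1 ∧ H.Adj x.2 y.2) := by
  obtain ⟨x1, x2⟩ := x
  obtain ⟨y1, y2⟩ := y
  have h0 : (Wg n ι H).nb (x1, x2) = (nbZ n x1).image (fun y => (y, x2)) ∪
    (Finset.univ.filter fun j => H.Adj x2 j).image fun j => (x1, j) := rfl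
  rw [h0, Finset.mem_union, Finset.mem_image, Finset.mem_image]
  constructor
  · rintro (⟨z, hz, hzy⟩ | ⟨j, hj, hjy⟩)
    · rw [Prod.mk.injEq] at hzy
      obtain ⟨rfl, rfl⟩ := hzy
      exact Or.inl ⟨hz, rfl⟩
    · rw [Prod.mk.injEq] at hjy
      obtain ⟨rfl, rfl⟩ := hjy
      exact Or.inr ⟨rfl, (Finset.mem_filter.1 hj).2⟩
  · rintro (⟨h1, h2⟩ | ⟨h1, h2⟩)
    · exact Or.inl ⟨y1, h1, by rw [show y2 = x2 from h2]⟩
    · exact Or.inr ⟨y2, Finset.mem_filter.2 ⟨Finset.mem_univ _, h2⟩, by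
        rw [show y1 = x1 from h1]⟩

private theorem SYa_add (x y a : Fin n → ℤ) (h : y ∈ nbZ n x) : y + a ∈ nbZ n (x + a) := by
  rw [mem_nbZ] at h ⊢
  obtain ⟨i, s, hs, rfl⟩ := h
  refine ⟨i, s, hs, ?_⟩
  funext l
  by_cases hl : l = i
  · subst hl
    simp only [Pi.add_apply, Function.update_self]
    ring
  · simp only [Pi.add_apply, Function.update_of_ne hl]

private theorem SYa_refl (e : Fin n) (x y : Fin n → ℤ) (h : y ∈ nbZ n x) :
    refl e y ∈ nbZ n (refl e x) := by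
  rw [mem_nbZ] at h ⊢
  obtain ⟨i, s, hs, rfl⟩ := h
  by_cases hi : i = e
  · subst hi
    refine ⟨i, -s, ?_, ?_⟩
    · rcases hs with rfl | rfl
      · exact Or.inr rfl
      · exact Or.inl (neg_neg 1)
    · funext l
      by_cases hl : l = i
      · subst hl
        rw [refl_self, Function.update_self, Function.update_self, refl_self]
        ring
      · rw [refl_other hl, Function.update_of_ne hl, Function.update_of_ne hl, refl_other hl]
  · refine ⟨i, s, hs, ?_⟩
    funext l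
    by_cases hl : l = i
    · subst hl
      rw [refl_other hi, Function.update_self, Function.update_self, refl_other hi]
    · rw [Function.update_of_ne hl]
      by_cases hle : l = e
      · subst hle
        rw [refl_self, refl_self, Function.update_of_ne hl]
      · rw [refl_other hle, refl_other hle, Function.update_of_ne hl]

private theorem SYa_perm (σ : Equiv.Perm (Fin n)) (x y : Fin n → ℤ) (h : y ∈ nbZ n x) :
    (fun l => y (σ l)) ∈ nbZ n (fun l => x (σ l)) := by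
  rw [mem_nbZ] at h ⊢
  obtain ⟨i, s, hs, rfl⟩ := h
  refine ⟨σ.symm i, s, hs, ?_⟩
  funext l
  by_cases hl : l = σ.symm i
  · subst hl
    simp only [Equiv.apply_symm_apply, Function.update_self]
  · have h1 : σ l ≠ i := by
      intro h
      exact hl (by rw [← h, Equiv.symm_apply_apply])
    simp only [Function.update_of_ne hl, Function.update_of_ne h1]

theorem nbZ_add (x y a : Fin n → ℤ) : y + a ∈ nbZ n (x + a) ↔ y ∈ nbZ n x := by
  refine ⟨fun h => ?_, SYa_add x y a⟩
  have h1 := SYa_add _ _ (-a) h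
  rwa [add_neg_cancel_right, add_neg_cancel_right] at h1

theorem nbZ_refl (e : Fin n) (x y : Fin n → ℤ) : refl e y ∈ nbZ n (refl e x) ↔ y ∈ nbZ n x := by
  refine ⟨fun h => ?_, SYa_refl e x y⟩
  have h1 := SYa_refl e _ _ h
  rwa [refl_refl, refl_refl] at h1

theorem nbZ_perm (σ : Equiv.Perm (Fin n)) (x y : Fin n → ℤ) :
    (fun l => y (σ l)) ∈ nbZ n (fun l => x (σ l)) ↔ y ∈ nbZ n x := by
  refine ⟨fun h => ?_, SYa_perm σ x y⟩
  have h1 := SYa_perm σ.symm _ _ h
  simp only [Equiv.apply_symm_apply] at h1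
  exact h1

private theorem SYa_img (φ : (Fin n → ℤ) × ι ≃ (Fin n → ℤ) × ι)
    (hφ : ∀ x y, φ y ∈ (Wg n ι H).nb (φ x) ↔ y ∈ (Wg n ι H).nb x) (x : (Fin n → ℤ) × ι) :
    (Wg n ι H).nb (φ x) = ((Wg n ι H).nb x).image φ := by
  apply Finset.ext
  intro z
  rw [Finset.mem_image]
  constructor
  · intro hz
    refine ⟨φ.symm z, ?_, φ.apply_symm_apply z⟩
    rw [← hφ, φ.apply_symm_apply]
    exact hz
  · rintro ⟨y, hy, rfl⟩
    exact (hφ x y).2 hy

theorem nb_trW (a : Fin n → ℤ) (x : (Fin n → ℤ) × ι) :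
    (Wg n ι H).nb (trW a x) = ((Wg n ι H).nb x).image (trW a) := by
  refine SYa_img (trW a) (fun x y => ?_) x
  rw [nb_iff, nb_iff]
  have e1 : (trW a x).1 = x.1 + a := rfl
  have e2 : (trW a y).1 = y.1 + a := rfl
  have e3 : (trW a x).2 = x.2 := rfl
  have e4 : (trW a y).2 = y.2 := rfl
  rw [e1, e2, e3, e4, nbZ_add, add_left_inj]

theorem nb_rfW (e : Fin n) (x : (Fin n → ℤ) × ι) :
    (Wg n ι H).nb (rfW e x) = ((Wg n ι H).nb x).image (rfW e) := by
  refine SYa_img (rfW e) (fun x y => ?_) x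
  rw [nb_iff, nb_iff]
  have e1 : (rfW e x).1 = refl e x.1 := rfl
  have e2 : (rfW e y).1 = refl e y.1 := rfl
  have e3 : (rfW e x).2 = x.2 := rfl
  have e4 : (rfW e y).2 = y.2 := rfl
  have e5 : refl e y.1 = refl e x.1 ↔ y.1 = x.1 := by
    constructor
    · intro h
      have h1 := congrArg (refl e) h
      rwa [refl_refl, refl_refl] at h1
    · intro h
      rw [h]
  rw [e1, e2, e3, e4, nbZ_refl, e5]

theorem nb_pmW (σ : Equiv.Perm (Fin n)) (x : (Fin n → ℤ) × ι) :
    (Wg n ι H).nb (pmW σ x) = ((Wg n ι H).nb x).image (pmW σ) := by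
  refine SYa_img (pmW σ) (fun x y => ?_) x
  rw [nb_iff, nb_iff]
  have e1 : (pmW σ x).1 = fun l => x.1 (σ l) := rfl
  have e2 : (pmW σ y).1 = fun l => y.1 (σ l) := rfl
  have e3 : (pmW σ x).2 = x.2 := rfl
  have e4 : (pmW σ y).2 = y.2 := rfl
  have e5 : ((fun l => y.1 (σ l)) = fun l => x.1 (σ l)) ↔ y.1 = x.1 := by
    constructor
    · intro h
      funext l
      have h1 := congrFun h (σ.symm l)
      simp only [Equiv.apply_symm_apply] at h1
      exact h1
    · intro h
      rw [h]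
  rw [e1, e2, e3, e4, nbZ_perm, e5]

/-- degrees: `card (nbZ n x) ≤ 2 n` (image of `Fin n × Bool`), `card_union_le`, `card_image_le` -/
theorem degW (hdeg : ∀ i, (Finset.univ.filter fun j => H.Adj i j).card ≤ 2) : (Wg n ι H).DegLe (2 * n + 2) := by
  intro x
  have h0 : (Wg n ι H).nb x = (nbZ n x.1).image (fun y => (y, x.2)) ∪
    (Finset.univ.filter fun j => H.Adj x.2 j).image fun j => (x.1, j) := rfl
  have h1 : (nbZ n x.1).card ≤ 2 * n := by
    unfold nbZ
    refine Finset.card_image_le.trans (le_of_eq ?_)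
    rw [Finset.card_univ, Fintype.card_prod, Fintype.card_fin, Fintype.card_bool, mul_comm]
  have h2 : ((Finset.univ.filter fun j => H.Adj x.2 j).image fun j => (x.1, j)).card ≤ 2 :=
    Finset.card_image_le.trans (hdeg x.2)
  rw [h0]
  refine (Finset.card_union_le _ _).trans ?_
  exact add_le_add (Finset.card_image_le.trans h1) h2

end IPC.BS
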