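import Pool.Agent.Lib.MP_25e40f_pr.D.HWa
import Pool.Agent.Lib.MP_25e40f_pr.D.EVa
import Pool.Agent.Lib.MP_25e40f_pr.D.GBc
import Pool.Agent.Lib.MP_25e40f_pr.D.HPb

/-!
# MP_25e40f_pr, stream D, job TBa: the bound `‖τ(k)‖ ≤ 10/E(k)`

Let `q = dl0 = 10^(-9)`, `hS : Sml n ι H p (ofReal dl0)`; `hS.q : Qs n ι H p dl0`.
`p_le`: `p_bound`: `2 n p ≤ 1/(1 - 97 dl0) ≤ 2`, so `p ≤ 1/n` (`n ≥ 40`), and `(2n+2) p ≤ 3`.
`EvS_gs`: `gs_mom2`, `gs_sym`, `gs_refl`, `gs_coord` (with `2319 * q / n`).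
`T_bound`: `h = hp_W .. k`, `h0 = hp_W .. 0`. `‖G - 1‖, ‖G0 - 1‖ ≤ 97 dl0 ≤ 1/10` (`G_near`). `‖G0 - G‖ ≤ 1/2 (∑ k_e²) (2319 dl0/n) ≤ 1/2 * 5 n E * 2319 dl0/n ≤ (1/10) E` (`EvS.diff`, `sum_sq_le`). `P0 - P = (Ck 0 - Ck k) • 1 = (2 n p E) • 1` (`FM_ps_diff`, `Ck_sub`).
 If `2 n p ≥ 1/2`: `HP.bigp` with `c = 2 n p`, `e = 1/10`. Otherwise `‖P‖ ≤ |Ck| + 2 p ≤ 2 n p + 2 p ≤ 1/2 + 1/(2n) ≤ 3/5` (`norm_FM_ps`, `abs_Ck_le`), `HP.smallp` with `En_le_two`.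
`Ginv_le`: `near_one` with `r = 97 dl0`: `‖G⁻¹‖ ≤ 1/(1 - 97 dl0) ≤ 2`.
-/

set_option autoImplicit false
set_option linter.unusedSectionVars false

noncomputable section

open Finset
open scoped Classical Matrix.Norms.L2Operator

namespace IPC.BS

open IPC.Fo

variable {n : ℕ} {ι : Type} [Fintype ι] [DecidableEq ι] {H : SimpleGraph ι} {p : ℝ}

private theorem TBa_dl0 : 0 ≤ dl0 := by
  unfold dl0
  positivity

private theorem TBa_dl1 : dl0 ≤ 1 / 2000 := by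
  unfold dl0
  norm_num

private theorem TBa_dl2 : 97 * dl0 ≤ 1 / 10 := by
  unfold dl0
  norm_num

theorem p_le [Nonempty ι] (S : Std n ι H p) (hS : Sml n ι H p (ENNReal.ofReal dl0)) : p ≤ 1 / n ∧ (2 * n + 2) * p ≤ 3 := by
  have hn : (0 : ℝ) < n := by
    have h := S.hn
    have : 0 < n := by omega
    exact_mod_cast this
  have h1 : 2 * n * p ≤ 1 / (1 - 97 * dl0) := p_bound S TBa_dl0 TBa_dl1 hS.q
  have h2 : 1 / (1 - 97 * dl0) ≤ 2 := by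
    have := TBa_dl2
    rw [div_le_iff₀ (by linarith)]
    linarith
  refine ⟨?_, ?_⟩
  · rw [le_div_iff₀ hn]
    linarith
  · have := S.hp2
    linarith

theorem EvS_gs [Nonempty ι] (S : Std n ι H p) (hS : Sml n ι H p (ENNReal.ofReal dl0)) :
    EvS (gs n ι H p) (2319 * dl0 / n) := by
  have hN : (Wg n ι H).NoPerc p := T.noPerc_of_lt _ S.hp0 S.hp
  have hp3 := (p_le S hS).2
  have hn1 : 1 ≤ n := by
    have h := S.hn
    omega
  exact ⟨gs_mom2 S.hdeg S.hp0 S.hp2 hN hp3 TBa_dl0 TBa_dl1 hS,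
    fun x i j => gs_sym S TBa_dl0 TBa_dl1 hS.q x i j, fun e x i j => gs_refl e x i j,
    fun i e => gs_coord S.hdeg hn1 S.hp0 S.hp2 hN hp3 TBa_dl0 TBa_dl1 hS i e⟩

theorem T_bound [Nonempty ι] (S : Std n ι H p) (hS : Sml n ι H p (ENNReal.ofReal dl0)) {k : Fin n → ℝ} (hk : Cb k)
    (hE : 0 < En k) : ‖FM (ts n ι H p) k‖ ≤ 10 / En k := by
  have h := hp_W S TBa_dl0 TBa_dl1 hS.q k
  have h0 := hp_W S TBa_dl0 TBa_dl1 hS.q (0 : Fin n → ℝ)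
  have hn1 : 1 ≤ n := by
    have h := S.hn
    omega
  have hn : (0 : ℝ) < n := by
    exact_mod_cast hn1
  have hn40 : (40 : ℝ) ≤ n := by
    exact_mod_cast S.hn
  have hG : ‖FM (gs n ι H p) k - 1‖ ≤ 1 / 10 := (G_near S TBa_dl0 TBa_dl1 hS.q k).trans TBa_dl2
  have hG0 : ‖FM (gs n ι H p) 0 - 1‖ ≤ 1 / 10 := (G_near S TBa_dl0 TBa_dl1 hS.q 0).trans TBa_dl2
  have hB0 : 0 ≤ 2319 * dl0 / n := by
    have := TBa_dl0
    positivity
  have hd : ‖FM (gs n ι H p) 0 - FM (gs n ι H p) k‖ ≤ (1 / 10) * En k := by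
    refine ((EvS_gs S hS).diff hB0 k).trans ?_
    have h1 := sum_sq_le hn1 hk
    have h2 : 1 / 2 * (∑ e, k e ^ 2) * (2319 * dl0 / n) ≤ 1 / 2 * (5 * n * En k) * (2319 * dl0 / n) := by
      refine mul_le_mul_of_nonneg_right ?_ hB0
      linarith
    refine h2.trans ?_
    have h3 : 1 / 2 * (5 * n * En k) * (2319 * dl0 / n) = (5 / 2 * 2319 * dl0) * En k := by
      field_simp
    rw [h3]
    refine mul_le_mul_of_nonneg_right ?_ hE.le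
    unfold dl0
    norm_num
  have hP : FM (ps n ι H p) 0 - FM (ps n ι H p) k =
      (((2 * n * p) * En k : ℝ) : ℂ) • (1 : Matrix ι ι ℂ) := by
    rw [FM_ps_diff, Ck_sub hn1]
  rcases le_or_gt (1 / 2) (2 * n * p) with hc | hc
  · exact h.bigp h0 hE hG hG0 hd hP hc le_rfl
  · refine h.smallp hE (En_le_two k) hG ?_
    refine (norm_FM_ps S.hdeg S.hp0 k).trans ?_
    have h4 := abs_Ck_le S.hp0 k
    have h5 : 2 * p ≤ 1 / 10 := by
      have hp0 := S.hp0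
      nlinarith
    linarith

theorem Ginv_le (S : Std n ι H p) (hS : Sml n ι H p (ENNReal.ofReal dl0)) (k : Fin n → ℝ) :
    ‖(FM (gs n ι H p) k)⁻¹‖ ≤ 2 := by
  have h := hp_W S TBa_dl0 TBa_dl1 hS.q k
  have hG := (G_near S TBa_dl0 TBa_dl1 hS.q k).trans TBa_dl2
  have h1 := (near_one h.isUnit_G hG (by norm_num)).1
  refine h1.trans ?_
  norm_num

end IPC.BS
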