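import Pool.Agent.Lib.MP_25e40f_pr.D.MDef

/-!
# MP_25e40f_pr, stream D (helper38): standing hypotheses, the three chains
-/

set_option autoImplicit false
set_option linter.unusedSectionVars false

noncomputable section

open Finset
open scoped Classical Matrix.Norms.L2Operator

namespace IPC.BS

open IPC.Fo

/-- standing hypotheses -/
structure Std (n : ℕ) (ι : Type) [Fintype ι] [DecidableEq ι] (H : SimpleGraph ι) (p : ℝ) : Prop where
  hn : 40 ≤ n
  hdeg : ∀ i, (Finset.univ.filter fun j => H.Adj i j).card ≤ 2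
  hp0 : 0 ≤ p
  hp : p < (Wg n ι H).pc
  hp2 : p ≤ 1 / 2

/-- the first quantity of the bootstrap is at most `q` -/
def Qs (n : ℕ) (ι : Type) [Fintype ι] [DecidableEq ι] (H : SimpleGraph ι) (p q : ℝ) : Prop :=
  ∀ x y, ch4 (mm ((Wg n ι H).pK p) ((Wg n ι H).tK p)) ((Wg n ι H).tK p)
      ((Wg n ι H).tK p) ((Wg n ι H).tK p) x y ≤ ENNReal.ofReal q

section
variable (n : ℕ) (ι : Type) [Fintype ι] [DecidableEq ι] (H : SimpleGraph ι) (p : ℝ)

/-- `P τ τ τ τ` -/
def f0 : MS n ι := cm (cm (ps n ι H p) (ts n ι H p)) (cm (ts n ι H p) (cm (ts n ι H p) (ts n ι H p)))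

/-- `|x|² (P τ)`, `τ τ τ` -/
def f1 : MS n ι := cm (sq (cm (ps n ι H p) (ts n ι H p))) (cm (ts n ι H p) (cm (ts n ι H p) (ts n ι H p)))

/-- `τ`, `|x|² (P τ)`, `τ τ` -/
def f2 : MS n ι := cm (ts n ι H p) (cm (sq (cm (ps n ι H p) (ts n ι H p))) (cm (ts n ι H p) (ts n ι H p)))

end

end IPC.BS
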