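import Pool.Agent.Lib.MP_25e40f_pr.B.Ela
import Pool.Agent.Lib.MP_25e40f_pr.B.Tau
import Pool.Agent.Lib.MP_25e40f_pr.D.Defs

/-!
# MP_25e40f_pr, stream D, job Zza: the diagonal coefficient of order zero is one

`ZZ_self`: `tendsto_EP G hp0 hp1 hN (singleton_nonempty x) univ x` (B/Ela.lean): `ofReal (Pr p (ein (Lam R)) (fun ω => EP ω univ {x} x))` tends to `ZZ G p 0 {x} univ x`. The event is always true: `Thru ω univ {x} x`: `AllConn ω {x} x` (`Conn_refl`), and `¬ ConnOff ω univ f x` since `ConnOff` requires `f ∉ univ`; and for an edge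
 `s(y, y')` the condition `x ∉ Cl (ω.erase ..) {x}` is false because `x ∈ Cl _ {x}` (`Conn_refl`). So the sequence is constant `ofReal 1 = 1` (`Pr_true` of A/Prb.lean), `tendsto_nhds_unique` with `tendsto_const_nhds`.
-/

set_option autoImplicit false
set_option linter.unusedSectionVars false

noncomputable section

open Finset
open scoped Classical Matrix.Norms.L2Operator

namespace IPC.BS



variable {V : Type} [DecidableEq V]

theorem EP_self (ω : Finset (Sym2 V)) (x : V) : EP ω Set.univ {x} x := by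
  have hx : ∀ ω' : Finset (Sym2 V), x ∈ Cl ω' {x} := fun ω' =>
    ⟨x, Finset.mem_singleton_self x, Conn_refl ω' x⟩
  refine ⟨⟨?_, ?_⟩, ?_⟩
  · intro f hf
    rw [Finset.mem_singleton.1 hf]
    exact Conn_refl ω x
  · intro f _ h
    exact h.1 (Set.mem_univ f)
  · intro y y' _ _ h
    exact absurd (hx _) h

theorem ZZ_self (G : PG V) {p : ℝ} (hp0 : 0 ≤ p) (hp1 : p ≤ 1) (hN : G.NoPerc p) (x : V) :
    ZZ G p 0 {x} Set.univ x = 1 := by
  have h1 := tendsto_EP G hp0 hp1 hN (Finset.singleton_nonempty x) Set.univ x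
  have h2 : (fun R => ENNReal.ofReal (Pr p (G.ein (G.Lam R)) (fun ω => EP ω Set.univ {x} x))) =
      fun _ => 1 := by
    funext R
    rw [Pr_true p _ fun ω _ => EP_self ω x, ENNReal.ofReal_one]
  rw [h2] at h1
  exact (tendsto_nhds_unique h1 tendsto_const_nhds)

end IPC.BS
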